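import Mathlib

/-! Orientation bits of planar point sets and the finite facts about them. -/

namespace Pool.R339.Hull

/-- Twice the signed area of the triangle `a b c`. -/
def det3 (a b c : ℝ × ℝ) : ℝ := (b.1 - a.1) * (c.2 - a.2) - (b.2 - a.2) * (c.1 - a.1)

variable {V : Type*}

/-- No three points on a line, in determinant form. -/
def GP (p : V → ℝ × ℝ) : Prop :=
  ∀ a b c, a ≠ b → b ≠ c → a ≠ c → det3 (p a) (p b) (p c) ≠ 0

/-- The orientation bit. -/
noncomputable def sg (p : V → ℝ × ℝ) (a b c : V) : Bool := decide (0 < det3 (p a) (p b) (p c))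

lemma sg_cyc (p : V → ℝ × ℝ) (a b c : V) : sg p b c a = sg p a b c := by
  unfold sg
  have : det3 (p b) (p c) (p a) = det3 (p a) (p b) (p c) := by unfold det3; ring
  rw [this]

lemma sg_cyc2 (p : V → ℝ × ℝ) (a b c : V) : sg p c a b = sg p a b c := by
  rw [sg_cyc, sg_cyc]

lemma sg_swap {p : V → ℝ × ℝ} (h : GP p) {a b c : V} (h1 : a ≠ b) (h2 : b ≠ c) (h3 : a ≠ c) :
    sg p b a c = !sg p a b c := by
  unfold sg
  have e : det3 (p b) (p a) (p c) = -det3 (p a) (p b) (p c) := by unfold det3; ring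
  rw [e]
  have := h a b c h1 h2 h3
  rcases lt_or_gt_of_ne this with h | h
  · rw [decide_eq_true (by linarith : (0:ℝ) < -det3 (p a) (p b) (p c)),
      decide_eq_false (by linarith : ¬ (0:ℝ) < det3 (p a) (p b) (p c))]; rfl
  · rw [decide_eq_false (by linarith : ¬ (0:ℝ) < -det3 (p a) (p b) (p c)),
      decide_eq_true (by linarith : (0:ℝ) < det3 (p a) (p b) (p c))]; rfl

lemma sg_swap23 {p : V → ℝ × ℝ} (h : GP p) {a b c : V} (h1 : a ≠ b) (h2 : b ≠ c) (h3 : a ≠ c) :
    sg p a c b = !sg p a b c := by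
  have := sg_swap h h2 h3.symm h1.symm
  rwa [sg_cyc p a b c, sg_cyc p a c b] at this

lemma sg_swap13 {p : V → ℝ × ℝ} (h : GP p) {a b c : V} (h1 : a ≠ b) (h2 : b ≠ c) (h3 : a ≠ c) :
    sg p c b a = !sg p a b c := by
  rw [← sg_cyc p c b a]
  exact sg_swap h h1 h2 h3

/-- The four point relation on bits. -/
def F4ok (p q r t : Bool) : Bool := !((p == !q) && (p == r) && (p == !t))

lemma f4 {p : V → ℝ × ℝ} (h : GP p) {a b c d : V} (hab : a ≠ b) (hac : a ≠ c) (had : a ≠ d)
    (hbc : b ≠ c) (hbd : b ≠ d) (hcd : c ≠ d) :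
    F4ok (sg p a b c) (sg p a b d) (sg p a c d) (sg p b c d) = true := by
  have e : det3 (p a) (p b) (p c) - det3 (p a) (p b) (p d) + det3 (p a) (p c) (p d)
      - det3 (p b) (p c) (p d) = 0 := by unfold det3; ring
  have h1 := h a b c hab hbc hac
  have h2 := h a b d hab hbd had
  have h3 := h a c d hac hcd had
  have h4 := h b c d hbc hcd hbd
  unfold sg F4ok
  generalize det3 (p a) (p b) (p c) = x1 at *
  generalize det3 (p a) (p b) (p d) = x2 at *
  generalize det3 (p a) (p c) (p d) = x3 at *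
  generalize det3 (p b) (p c) (p d) = x4 at *
  rcases lt_or_gt_of_ne h1 with h1 | h1 <;> rcases lt_or_gt_of_ne h2 with h2 | h2 <;>
  rcases lt_or_gt_of_ne h3 with h3 | h3 <;> rcases lt_or_gt_of_ne h4 with h4 | h4 <;>
  simp only [h1, h2, h3, h4, not_lt_of_gt, decide_true, decide_false] <;>
  first
    | rfl
    | (exfalso; linarith)

/-- The five point relation on bits. -/
def G5ok (x1 x2 x3 x4 x5 x6 : Bool) : Bool :=
  !(((x1 == x2) == (x5 == x6)) && ((x1 == x2) == !(x3 == x4)))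

lemma bit_mul {x y : ℝ} (hx : x ≠ 0) (hy : y ≠ 0) :
    decide (0 < x * y) = (decide (0 < x) == decide (0 < y)) := by
  rcases lt_or_gt_of_ne hx with h1 | h1 <;> rcases lt_or_gt_of_ne hy with h2 | h2
  · have : 0 < x * y := mul_pos_of_neg_of_neg h1 h2
    simp [this, not_lt_of_gt h1, not_lt_of_gt h2]
  · have : x * y < 0 := mul_neg_of_neg_of_pos h1 h2
    simp [not_lt_of_gt this, not_lt_of_gt h1, h2]
  · have : x * y < 0 := mul_neg_of_pos_of_neg h1 h2
    simp [not_lt_of_gt this, h1, not_lt_of_gt h2]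
  · have : 0 < x * y := mul_pos h1 h2
    simp [this, h1, h2]

lemma g5real {x1 x2 x3 x4 x5 x6 : ℝ} (h1 : x1 ≠ 0) (h2 : x2 ≠ 0) (h3 : x3 ≠ 0) (h4 : x4 ≠ 0)
    (h5 : x5 ≠ 0) (h6 : x6 ≠ 0) (e : x1 * x2 - x3 * x4 + x5 * x6 = 0) :
    G5ok (decide (0 < x1)) (decide (0 < x2)) (decide (0 < x3)) (decide (0 < x4))
      (decide (0 < x5)) (decide (0 < x6)) = true := by
  unfold G5ok
  rw [← bit_mul h1 h2, ← bit_mul h3 h4, ← bit_mul h5 h6]
  have n1 := mul_ne_zero h1 h2
  have n2 := mul_ne_zero h3 h4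
  have n3 := mul_ne_zero h5 h6
  generalize x1 * x2 = X at *
  generalize x3 * x4 = Y at *
  generalize x5 * x6 = Z at *
  rcases lt_or_gt_of_ne n1 with h1 | h1 <;> rcases lt_or_gt_of_ne n2 with h2 | h2 <;>
  rcases lt_or_gt_of_ne n3 with h3 | h3 <;>
  simp only [h1, h2, h3, not_lt_of_gt, decide_true, decide_false] <;>
  first
    | rfl
    | (exfalso; linarith)

/-- All relations among the ten bits of five points (lexicographic order). -/
def F5ok (abc abd abe acd ace ade bcd bce bde cde : Bool) : Bool :=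
  F4ok abc abd acd bcd && F4ok abc abe ace bce && F4ok abd abe ade bde &&
  F4ok acd ace ade cde && F4ok bcd bce bde cde &&
  G5ok abc ade abd ace abe acd &&
  G5ok abc bde abd bce abe bcd &&
  G5ok abc cde acd bce ace bcd &&
  G5ok abd cde acd bde ade bcd &&
  G5ok abe cde ace bde ade bce

lemma f5 {p : V → ℝ × ℝ} (h : GP p) {a b c d e : V} (hab : a ≠ b) (hac : a ≠ c) (had : a ≠ d)
    (hae : a ≠ e) (hbc : b ≠ c) (hbd : b ≠ d) (hbe : b ≠ e) (hcd : c ≠ d) (hce : c ≠ e)
    (hde : d ≠ e) :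
    F5ok (sg p a b c) (sg p a b d) (sg p a b e) (sg p a c d) (sg p a c e) (sg p a d e)
      (sg p b c d) (sg p b c e) (sg p b d e) (sg p c d e) = true := by
  have n1 := h a b c hab hbc hac
  have n2 := h a b d hab hbd had
  have n3 := h a b e hab hbe hae
  have n4 := h a c d hac hcd had
  have n5 := h a c e hac hce hae
  have n6 := h a d e had hde hae
  have n7 := h b c d hbc hcd hbd
  have n8 := h b c e hbc hce hbe
  have n9 := h b d e hbd hde hbe
  have n10 := h c d e hcd hde hce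
  unfold F5ok
  rw [f4 h hab hac had hbc hbd hcd, f4 h hab hac hae hbc hbe hce, f4 h hab had hae hbd hbe hde,
    f4 h hac had hae hcd hce hde, f4 h hbc hbd hbe hcd hce hde]
  unfold sg
  rw [g5real n1 n6 n2 n5 n3 n4 (by unfold det3; ring),
    g5real n1 n9 n2 n8 n3 n7 (by unfold det3; ring),
    g5real n1 n10 n4 n8 n5 n7 (by unfold det3; ring),
    g5real n2 n10 n4 n9 n6 n7 (by unfold det3; ring),
    g5real n3 n10 n5 n9 n6 n8 (by unfold det3; ring)]
  rfl

/-- The segments `ab` and `cd` cross, in terms of bits. -/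
def Cr (p : V → ℝ × ℝ) (a b c d : V) : Prop :=
  sg p a b c ≠ sg p a b d ∧ sg p a c d ≠ sg p b c d

/-- `x` lies in the open triangle `a b c`, in terms of bits. -/
def Tri (p : V → ℝ × ℝ) (x a b c : V) : Prop :=
  sg p x a b = sg p a b c ∧ sg p x b c = sg p a b c ∧ sg p x c a = sg p a b c

/-- `x` lies in no triangle of other points. -/
def Ext (p : V → ℝ × ℝ) (x : V) : Prop :=
  ∀ a b c, x ≠ a → x ≠ b → x ≠ c → a ≠ b → b ≠ c → a ≠ c → ¬ Tri p x a b c

end Pool.R339.Hull
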