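import Pool.Agent.R339.HullA

namespace Pool.R339.Hull

variable {V : Type*} {p : V → ℝ × ℝ}

lemma tri1_iff (h : GP p) {a b c d : V} (_hab : a ≠ b) (_hac : a ≠ c) (_had : a ≠ d)
    (_hbc : b ≠ c) (_hbd : b ≠ d) (_hcd : c ≠ d) :
    Tri p a b c d ↔ (sg p a b c = sg p b c d ∧ sg p a c d = sg p b c d ∧
      sg p a b d = !sg p b c d) := by
  unfold Tri
  rw [sg_swap23 h _hab _hbd _had]
  generalize sg p a b c = x; generalize sg p a b d = y
  generalize sg p a c d = z; generalize sg p b c d = w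
  revert x y z w; decide

lemma tri2_iff (h : GP p) {a b c d : V} (_hab : a ≠ b) (_hac : a ≠ c) (_had : a ≠ d)
    (_hbc : b ≠ c) (_hbd : b ≠ d) (_hcd : c ≠ d) :
    Tri p b a c d ↔ (sg p a b d = sg p a c d ∧ sg p b c d = sg p a c d ∧
      sg p a b c = !sg p a c d) := by
  unfold Tri
  rw [sg_swap h _hab _hbc _hac, ← sg_cyc p b d a, ← sg_cyc p d a b]
  generalize sg p a b c = x; generalize sg p a b d = y
  generalize sg p a c d = z; generalize sg p b c d = w
  revert x y z w; decide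

lemma tri3_iff (h : GP p) {a b c d : V} (_hab : a ≠ b) (_hac : a ≠ c) (_had : a ≠ d)
    (_hbc : b ≠ c) (_hbd : b ≠ d) (_hcd : c ≠ d) :
    Tri p c a b d ↔ (sg p a b c = sg p a b d ∧ sg p a c d = sg p a b d ∧
      sg p b c d = !sg p a b d) := by
  unfold Tri
  rw [← sg_cyc p c a b, sg_swap h _hbc _hcd _hbd, ← sg_cyc p c d a, ← sg_cyc p d a c]
  generalize sg p a b c = x; generalize sg p a b d = y
  generalize sg p a c d = z; generalize sg p b c d = w
  revert x y z w; decide

lemma tri4_iff (h : GP p) {a b c d : V} (_hab : a ≠ b) (_hac : a ≠ c) (_had : a ≠ d)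
    (_hbc : b ≠ c) (_hbd : b ≠ d) (_hcd : c ≠ d) :
    Tri p d a b c ↔ (sg p a b d = sg p a b c ∧ sg p b c d = sg p a b c ∧
      sg p a c d = !sg p a b c) := by
  unfold Tri
  rw [← sg_cyc p d a b, ← sg_cyc p d b c, ← sg_cyc p d c a, sg_swap h _hac _hcd _had]
  generalize sg p a b c = x; generalize sg p a b d = y
  generalize sg p a c d = z; generalize sg p b c d = w
  revert x y z w; decide

lemma cr2_iff (h : GP p) {a b c d : V} (_hab : a ≠ b) (_hac : a ≠ c) (_had : a ≠ d)
    (_hbc : b ≠ c) (_hbd : b ≠ d) (_hcd : c ≠ d) :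
    Cr p a c b d ↔ (sg p a b c = sg p a c d ∧ sg p a b d = sg p b c d) := by
  unfold Cr
  rw [sg_swap23 h _hab _hbc _hac, sg_swap h _hbc _hcd _hbd]
  generalize sg p a b c = x; generalize sg p a b d = y
  generalize sg p a c d = z; generalize sg p b c d = w
  revert x y z w; decide

lemma cr3_iff (h : GP p) {a b c d : V} (_hab : a ≠ b) (_hac : a ≠ c) (_had : a ≠ d)
    (_hbc : b ≠ c) (_hbd : b ≠ d) (_hcd : c ≠ d) :
    Cr p a d b c ↔ (sg p a b d ≠ sg p a c d ∧ sg p a b c ≠ sg p b c d) := by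
  unfold Cr
  rw [sg_swap23 h _hab _hbd _had, sg_swap23 h _hac _hcd _had, ← sg_cyc p d b c]
  generalize sg p a b c = x; generalize sg p a b d = y
  generalize sg p a c d = z; generalize sg p b c d = w
  revert x y z w; decide

/-- Two extreme points with points on both sides of their line: the segments cross. -/
lemma ext_cross (h : GP p) {x y z w : V} (hxy : x ≠ y) (hxz : x ≠ z) (hxw : x ≠ w)
    (hyz : y ≠ z) (hyw : y ≠ w) (hzw : z ≠ w) (hx : Ext p x) (hy : Ext p y)
    (hs : sg p x y z ≠ sg p x y w) : Cr p x y z w := by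
  refine ⟨hs, ?_⟩
  have h1 := hx y z w hxy hxz hxw hyz hzw hyw
  have h2 := hy x z w hxy.symm hyz hyw hxz hzw hxw
  rw [tri1_iff h hxy hxz hxw hyz hyw hzw] at h1
  rw [tri2_iff h hxy hxz hxw hyz hyw hzw] at h2
  generalize sg p x y z = a at *; generalize sg p x y w = b at *
  generalize sg p x z w = c at *; generalize sg p y z w = d at *
  revert a b c d; decide

/-- If `x ∈ tri(a,b,y)` then `a`, `b` are on different sides of `xy` and `xy`, `ab` do not
cross. -/
lemma tri_side (h : GP p) {x y a b : V} (hxy : x ≠ y) (hxa : x ≠ a) (hxb : x ≠ b)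
    (hya : y ≠ a) (hyb : y ≠ b) (hab : a ≠ b) (ht : Tri p x a b y) :
    sg p x y a ≠ sg p x y b ∧ ¬ Cr p x y a b := by
  rw [tri1_iff h hxa hxb hxy hab hya.symm hyb.symm] at ht
  have e1 : sg p x y a = !sg p x a y := sg_swap23 h hxa hya.symm hxy
  have e2 : sg p x y b = !sg p x b y := sg_swap23 h hxb hyb.symm hxy
  have e3 : sg p y a b = sg p a b y := (sg_cyc p y a b).symm
  unfold Cr
  rw [e1, e2, e3]
  clear e1 e2 e3
  obtain ⟨t1, t2, t3⟩ := ht
  generalize sg p x a b = u at *; generalize sg p x a y = v at *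
  generalize sg p x b y = w at *; generalize sg p a b y = z at *
  revert u v w z; decide

lemma tri_rot {x a b c : V} (ht : Tri p x a b c) : Tri p x b c a := by
  unfold Tri at *
  rw [sg_cyc p a b c]
  exact ⟨ht.2.1, ht.2.2, ht.1⟩

/-- Five points: a point of the open triangle `a b c` cannot be separated only by segments
crossing `xy`. -/
lemma five_tri (h : GP p) {x y a b c : V} (hxy : x ≠ y) (hxa : x ≠ a) (hxb : x ≠ b)
    (hxc : x ≠ c) (hya : y ≠ a) (hyb : y ≠ b) (hyc : y ≠ c) (hab : a ≠ b) (hbc : b ≠ c)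
    (hac : a ≠ c) (ht : Tri p x a b c)
    (k1 : sg p x y a ≠ sg p x y b → Cr p x y a b)
    (k2 : sg p x y a ≠ sg p x y c → Cr p x y a c)
    (k3 : sg p x y b ≠ sg p x y c → Cr p x y b c) : False := by
  have hf := f5 h hxy hxa hxb hxc hya hyb hyc hab hac hbc
  rw [tri1_iff h hxa hxb hxc hab hac hbc] at ht
  unfold Cr at k1 k2 k3
  obtain ⟨t1, t2, t3⟩ := ht
  rw [t1, t2, t3] at hf
  rw [t1] at k1
  rw [t3] at k2
  rw [t2] at k3
  clear t1 t2 t3
  generalize sg p x y a = v1 at *; generalize sg p x y b = v2 at *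
  generalize sg p x y c = v3 at *; generalize sg p y a b = v4 at *
  generalize sg p y a c = v5 at *; generalize sg p y b c = v6 at *
  generalize sg p a b c = v7 at *
  revert v1 v2 v3 v4 v5 v6 v7; decide

end Pool.R339.Hull
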