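import Pool.Agent.R339.HullB

namespace Pool.R339.Hull

variable {V : Type*} {p : V → ℝ × ℝ}

lemma sg_true {a b c : V} (h : sg p a b c = true) : 0 < det3 (p a) (p b) (p c) := by
  simpa [sg] using h

lemma sg_false (hp : GP p) {a b c : V} (hab : a ≠ b) (hbc : b ≠ c) (hac : a ≠ c)
    (h : sg p a b c = false) : det3 (p a) (p b) (p c) < 0 := by
  have h1 : ¬ 0 < det3 (p a) (p b) (p c) := by simpa [sg] using h
  have h2 := hp a b c hab hbc hac
  exact lt_of_le_of_ne (not_lt.1 h1) h2

lemma sg_eq_pos (hp : GP p) {a b c d e f : V} (hab : a ≠ b) (hbc : b ≠ c) (hac : a ≠ c)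
    (hde : d ≠ e) (hef : e ≠ f) (hdf : d ≠ f) (h : sg p a b c = sg p d e f) :
    0 < det3 (p a) (p b) (p c) / det3 (p d) (p e) (p f) := by
  cases hs : sg p d e f with
  | true =>
    rw [hs] at h
    exact div_pos (sg_true h) (sg_true hs)
  | false =>
    rw [hs] at h
    exact div_pos_of_neg_of_neg (sg_false hp hab hbc hac h) (sg_false hp hde hef hdf hs)

/-- A point of an open triangle is a positive combination of the corners. -/
lemma tri_real (hp : GP p) {x a b c : V} (hxa : x ≠ a) (hxb : x ≠ b) (hxc : x ≠ c)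
    (hab : a ≠ b) (hbc : b ≠ c) (hac : a ≠ c) (ht : Tri p x a b c) :
    ∃ α β γ : ℝ, 0 < α ∧ 0 < β ∧ 0 < γ ∧ α + β + γ = 1 ∧
      (p x).1 = α * (p a).1 + β * (p b).1 + γ * (p c).1 ∧
      (p x).2 = α * (p a).2 + β * (p b).2 + γ * (p c).2 := by
  obtain ⟨t1, t2, t3⟩ := ht
  have hD := hp a b c hab hbc hac
  refine ⟨det3 (p x) (p b) (p c) / det3 (p a) (p b) (p c),
    det3 (p x) (p c) (p a) / det3 (p a) (p b) (p c),
    det3 (p x) (p a) (p b) / det3 (p a) (p b) (p c), ?_, ?_, ?_, ?_, ?_, ?_⟩
  · exact sg_eq_pos hp hxb hbc hxc hab hbc hac t2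
  · exact sg_eq_pos hp hxc hac.symm hxa hab hbc hac t3
  · exact sg_eq_pos hp hxa hab hxb hab hbc hac t1
  · field_simp
    unfold det3; ring
  · field_simp
    unfold det3; ring
  · field_simp
    unfold det3; ring

lemma det3_comb (u v a b c x : ℝ × ℝ) {α β γ : ℝ} (hs : α + β + γ = 1)
    (h1 : x.1 = α * a.1 + β * b.1 + γ * c.1) (h2 : x.2 = α * a.2 + β * b.2 + γ * c.2) :
    det3 u v x = α * det3 u v a + β * det3 u v b + γ * det3 u v c := by
  have hα : α = 1 - β - γ := by linarith
  subst hα
  unfold det3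
  rw [h1, h2]; ring

lemma det3_zero_of_par {a b c x y z : ℝ × ℝ} (hpos : 0 < det3 a b c)
    (h1 : det3 a b x = det3 a b y) (h2 : det3 a b x = det3 a b z) : det3 x y z = 0 := by
  have e1 : (b.1 - a.1) * det3 x y z
      = (y.1 - x.1) * (det3 a b z - det3 a b x) - (z.1 - x.1) * (det3 a b y - det3 a b x) := by
    unfold det3; ring
  have e2 : (b.2 - a.2) * det3 x y z
      = (y.2 - x.2) * (det3 a b z - det3 a b x) - (z.2 - x.2) * (det3 a b y - det3 a b x) := by
    unfold det3; ring
  rw [← h2, ← h1] at e1 e2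
  simp only [sub_self, mul_zero] at e1 e2
  rcases mul_eq_zero.1 e1 with h | h
  · rcases mul_eq_zero.1 e2 with h' | h'
    · exfalso
      unfold det3 at hpos
      rw [h, h'] at hpos
      simp at hpos
    · exact h'
  · exact h

/-- On every side of a line through two points where there is a point, there is an extreme
point. -/
lemma exists_ext_side [Fintype V] (hp : GP p) {a b z : V} (hs : sg p a b z = true) :
    ∃ c, Ext p c ∧ c ≠ a ∧ c ≠ b ∧ sg p a b c = true := by
  obtain ⟨c, -, hc⟩ := Finset.exists_max_image Finset.univ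
    (fun c => det3 (p a) (p b) (p c)) ⟨z, Finset.mem_univ z⟩
  have hpos : 0 < det3 (p a) (p b) (p c) := lt_of_lt_of_le (sg_true hs) (hc z (Finset.mem_univ z))
  refine ⟨c, ?_, ?_, ?_, by simpa [sg] using hpos⟩
  · intro x y w hcx hcy hcw hxy hyw hxw ht
    obtain ⟨α, β, γ, h1, h2, h3, hsum, e1, e2⟩ := tri_real hp hcx hcy hcw hxy hyw hxw ht
    have e := det3_comb (p a) (p b) (p x) (p y) (p w) (p c) hsum e1 e2
    have k1 := hc x (Finset.mem_univ x)
    have k2 := hc y (Finset.mem_univ y)
    have k3 := hc w (Finset.mem_univ w)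
    have m1 : 0 ≤ α * (det3 (p a) (p b) (p c) - det3 (p a) (p b) (p x)) :=
      mul_nonneg h1.le (by linarith)
    have m2 : 0 ≤ β * (det3 (p a) (p b) (p c) - det3 (p a) (p b) (p y)) :=
      mul_nonneg h2.le (by linarith)
    have m3 : 0 ≤ γ * (det3 (p a) (p b) (p c) - det3 (p a) (p b) (p w)) :=
      mul_nonneg h3.le (by linarith)
    have msum : α * (det3 (p a) (p b) (p c) - det3 (p a) (p b) (p x)) +
        β * (det3 (p a) (p b) (p c) - det3 (p a) (p b) (p y)) +
        γ * (det3 (p a) (p b) (p c) - det3 (p a) (p b) (p w)) = 0 := by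
      have : (α + β + γ) * det3 (p a) (p b) (p c) = det3 (p a) (p b) (p c) := by
        rw [hsum, one_mul]
      linarith
    have z1 : det3 (p a) (p b) (p c) - det3 (p a) (p b) (p x) = 0 := by
      have : α * (det3 (p a) (p b) (p c) - det3 (p a) (p b) (p x)) = 0 := by linarith
      exact (mul_eq_zero.1 this).resolve_left h1.ne'
    have z2 : det3 (p a) (p b) (p c) - det3 (p a) (p b) (p y) = 0 := by
      have : β * (det3 (p a) (p b) (p c) - det3 (p a) (p b) (p y)) = 0 := by linarith
      exact (mul_eq_zero.1 this).resolve_left h2.ne'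
    have z3 : det3 (p a) (p b) (p c) - det3 (p a) (p b) (p w) = 0 := by
      have : γ * (det3 (p a) (p b) (p c) - det3 (p a) (p b) (p w)) = 0 := by linarith
      exact (mul_eq_zero.1 this).resolve_left h3.ne'
    exact hp x y w hxy hyw hxw (det3_zero_of_par hpos (by linarith) (by linarith))
  · rintro rfl
    unfold det3 at hpos
    simp at hpos
  · rintro rfl
    unfold det3 at hpos
    have : (0:ℝ) < 0 := by linarith [hpos]
    exact lt_irrefl _ this

/-- A line through a non-extreme point has extreme points on both sides. -/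
lemma exists_ext_through [Fintype V] (hp : GP p) {w w' : V} (hw : ¬ Ext p w) (hne : w ≠ w')
    (τ : Bool) : ∃ c, Ext p c ∧ c ≠ w ∧ c ≠ w' ∧ sg p w w' c = τ := by
  unfold Ext at hw
  push Not at hw
  obtain ⟨a, b, c, hxa, hxb, hxc, hab, hbc, hac, ht⟩ := hw
  obtain ⟨α, β, γ, h1, h2, h3, hsum, e1, e2⟩ := tri_real hp hxa hxb hxc hab hbc hac ht
  have e := det3_comb (p w) (p w') (p a) (p b) (p c) (p w) hsum e1 e2
  have e0 : det3 (p w) (p w') (p w) = 0 := by unfold det3; ring
  rw [e0] at e
  have hz : ∀ v, v ≠ w → det3 (p w) (p w') (p v) = 0 → v = w' := by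
    intro v hv h0
    by_contra hv'
    exact hp w w' v hne (Ne.symm hv') (Ne.symm hv) h0
  cases τ with
  | true =>
    have : ∃ z, sg p w w' z = true := by
      by_contra hcon
      push Not at hcon
      have k : ∀ v, det3 (p w) (p w') (p v) ≤ 0 := by
        intro v
        have := hcon v
        simpa [sg] using this
      have m1 := mul_nonpos_of_nonneg_of_nonpos h1.le (k a)
      have m2 := mul_nonpos_of_nonneg_of_nonpos h2.le (k b)
      have m3 := mul_nonpos_of_nonneg_of_nonpos h3.le (k c)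
      have z1 : det3 (p w) (p w') (p a) = 0 :=
        (mul_eq_zero.1 (by linarith : α * det3 (p w) (p w') (p a) = 0)).resolve_left h1.ne'
      have z2 : det3 (p w) (p w') (p b) = 0 :=
        (mul_eq_zero.1 (by linarith : β * det3 (p w) (p w') (p b) = 0)).resolve_left h2.ne'
      exact hab ((hz a hxa.symm z1).trans (hz b hxb.symm z2).symm)
    obtain ⟨z, hz'⟩ := this
    exact exists_ext_side hp hz'
  | false =>
    have : ∃ z, sg p w' w z = true := by
      by_contra hcon
      push Not at hcon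
      have k : ∀ v, 0 ≤ det3 (p w) (p w') (p v) := by
        intro v
        have := hcon v
        have e : det3 (p w') (p w) (p v) = - det3 (p w) (p w') (p v) := by unfold det3; ring
        have h2 : ¬ 0 < det3 (p w') (p w) (p v) := by simpa [sg] using this
        rw [e] at h2
        linarith
      have m1 := mul_nonneg h1.le (k a)
      have m2 := mul_nonneg h2.le (k b)
      have m3 := mul_nonneg h3.le (k c)
      have z1 : det3 (p w) (p w') (p a) = 0 :=
        (mul_eq_zero.1 (by linarith : α * det3 (p w) (p w') (p a) = 0)).resolve_left h1.ne'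
      have z2 : det3 (p w) (p w') (p b) = 0 :=
        (mul_eq_zero.1 (by linarith : β * det3 (p w) (p w') (p b) = 0)).resolve_left h2.ne'
      exact hab ((hz a hxa.symm z1).trans (hz b hxb.symm z2).symm)
    obtain ⟨z, hz'⟩ := this
    obtain ⟨c, c1, c2, c3, c4⟩ := exists_ext_side hp hz'
    refine ⟨c, c1, c3, c2, ?_⟩
    rw [sg_swap hp hne.symm c3.symm c2.symm, c4]
    rfl

end Pool.R339.Hull
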