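import Pool.Agent.R339.HullC

namespace Pool.R339.Hull

variable {V : Type*} {P Q : V → ℝ × ℝ}

/-- Every crossing of `P` is a crossing of `Q`. -/
def CrLe (P Q : V → ℝ × ℝ) : Prop :=
  ∀ a b c d, a ≠ b → a ≠ c → a ≠ d → b ≠ c → b ≠ d → c ≠ d → Cr P a b c d → Cr Q a b c d

lemma bool_aux1 {a b c : Bool} (h1 : a ≠ c) (h2 : b ≠ c) : a = b := by
  revert a b c; decide

/-- If `x`, `y` are extreme in `P` with points on both sides of `xy`, then the pairs separated by
`xy` in `Q` give crossings of `xy` in `Q`. -/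
lemma sep_cross (hP : GP P) (hcr : CrLe P Q) {x y u v : V} (hxy : x ≠ y) (hxu : x ≠ u)
    (hxv : x ≠ v) (hyu : y ≠ u) (hyv : y ≠ v) (hx : Ext P x) (hy : Ext P y)
    (hs : sg P x y u ≠ sg P x y v) {z w : V} (hxz : x ≠ z) (hxw : x ≠ w) (hyz : y ≠ z)
    (hyw : y ≠ w) (hzw : z ≠ w) (hne : sg Q x y z ≠ sg Q x y w) : Cr Q x y z w := by
  by_cases hPzw : sg P x y z = sg P x y w
  · exfalso
    obtain ⟨r, hxr, hyr, hr⟩ : ∃ r, x ≠ r ∧ y ≠ r ∧ sg P x y z ≠ sg P x y r := by
      by_cases h : sg P x y z = sg P x y u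
      · exact ⟨v, hxv, hyv, by rw [h]; exact hs⟩
      · exact ⟨u, hxu, hyu, h⟩
    have hzr : z ≠ r := by
      rintro rfl; exact hr rfl
    have hwr : w ≠ r := by
      rintro rfl; exact hr hPzw
    have c1 := (hcr x y z r hxy hxz hxr hyz hyr hzr
      (ext_cross hP hxy hxz hxr hyz hyr hzr hx hy hr)).1
    have c2 := (hcr x y w r hxy hxw hxr hyw hyr hwr
      (ext_cross hP hxy hxw hxr hyw hyr hwr hx hy (by rw [← hPzw]; exact hr))).1
    exact hne (bool_aux1 c1 c2)
  · exact hcr x y z w hxy hxz hxw hyz hyw hzw (ext_cross hP hxy hxz hxw hyz hyw hzw hx hy hPzw)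

/-- The chord lemma: `x` is extreme in `Q`. -/
lemma ext_of_sep (hP : GP P) (hQ : GP Q) (hcr : CrLe P Q) {x y u v : V} (hxy : x ≠ y)
    (hxu : x ≠ u) (hxv : x ≠ v) (hyu : y ≠ u) (hyv : y ≠ v) (hx : Ext P x) (hy : Ext P y)
    (hs : sg P x y u ≠ sg P x y v) : Ext Q x := by
  intro a b c hxa hxb hxc hab hbc hac ht
  have F2 : ∀ z w, x ≠ z → x ≠ w → y ≠ z → y ≠ w → z ≠ w → sg Q x y z ≠ sg Q x y w →
      Cr Q x y z w := fun z w hxz hxw hyz hyw hzw hne =>
    sep_cross hP hcr hxy hxu hxv hyu hyv hx hy hs hxz hxw hyz hyw hzw hne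
  by_cases hya : y = a
  · subst hya
    have ht' : Tri Q x b c y := tri_rot ht
    obtain ⟨k1, k2⟩ := tri_side hQ hxy hxb hxc hab hac hbc ht'
    exact k2 (F2 b c hxb hxc hab hac hbc k1)
  by_cases hyb : y = b
  · subst hyb
    have ht' : Tri Q x c a y := tri_rot (tri_rot ht)
    obtain ⟨k1, k2⟩ := tri_side hQ hxy hxc hxa hbc hya hac.symm ht'
    exact k2 (F2 c a hxc hxa hbc hya hac.symm k1)
  by_cases hyc : y = c
  · subst hyc
    obtain ⟨k1, k2⟩ := tri_side hQ hxy hxa hxb hya hyb hab ht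
    exact k2 (F2 a b hxa hxb hya hyb hab k1)
  exact five_tri hQ hxy hxa hxb hxc hya hyb hyc hab hbc hac ht
    (F2 a b hxa hxb hya hyb hab) (F2 a c hxa hxc hya hyc hac) (F2 b c hxb hxc hyb hyc hbc)

/-- With four extreme points in `P`, each of them is extreme in `Q`. -/
lemma ext_of_four (hP : GP P) (hQ : GP Q) (hcr : CrLe P Q) {x y₁ y₂ y₃ : V} (h1 : x ≠ y₁)
    (h2 : x ≠ y₂) (h3 : x ≠ y₃) (h12 : y₁ ≠ y₂) (h23 : y₂ ≠ y₃) (h13 : y₁ ≠ y₃)
    (hx : Ext P x) (e1 : Ext P y₁) (e2 : Ext P y₂) (e3 : Ext P y₃) : Ext Q x := by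
  have s12 : sg P x y₂ y₁ = !sg P x y₁ y₂ := sg_swap23 hP h1 h12 h2
  have s13 : sg P x y₃ y₁ = !sg P x y₁ y₃ := sg_swap23 hP h1 h13 h3
  have s23 : sg P x y₃ y₂ = !sg P x y₂ y₃ := sg_swap23 hP h2 h23 h3
  by_cases k1 : sg P x y₁ y₂ ≠ sg P x y₁ y₃
  · exact ext_of_sep hP hQ hcr h1 h2 h3 h12 h13 hx e1 k1
  by_cases k2 : sg P x y₂ y₁ ≠ sg P x y₂ y₃
  · exact ext_of_sep hP hQ hcr h2 h1 h3 h12.symm h23 hx e2 k2
  have k3 : sg P x y₃ y₁ ≠ sg P x y₃ y₂ := by
    rw [s13, s23]
    rw [s12] at k2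
    clear s12 s13 s23
    generalize sg P x y₁ y₂ = a at *; generalize sg P x y₁ y₃ = b at *
    generalize sg P x y₂ y₃ = c at *
    revert a b c; decide
  exact ext_of_sep hP hQ hcr h3 h1 h2 h13.symm h23.symm hx e3 k3

/-- The comparison bit of the two orientations of a triple. -/
noncomputable def tb (P Q : V → ℝ × ℝ) (a b c : V) : Bool := xor (sg P a b c) (sg Q a b c)

lemma tb_cyc (a b c : V) : tb P Q b c a = tb P Q a b c := by
  unfold tb; rw [sg_cyc P a b c, sg_cyc Q a b c]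

lemma tb_swap (hP : GP P) (hQ : GP Q) {a b c : V} (h1 : a ≠ b) (h2 : b ≠ c) (h3 : a ≠ c) :
    tb P Q b a c = tb P Q a b c := by
  unfold tb; rw [sg_swap hP h1 h2 h3, sg_swap hQ h1 h2 h3]
  generalize sg P a b c = x; generalize sg Q a b c = y
  revert x y; decide

lemma tb_swap23 (hP : GP P) (hQ : GP Q) {a b c : V} (h1 : a ≠ b) (h2 : b ≠ c) (h3 : a ≠ c) :
    tb P Q a c b = tb P Q a b c := by
  have := tb_swap hP hQ h2 h3.symm h1.symm
  rwa [tb_cyc a c b, tb_cyc a b c] at this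

set_option synthInstance.maxSize 1000 in
set_option synthInstance.maxHeartbeats 400000 in
lemma boolII0 : ∀ a b c d e : Bool, ¬(a = c ∧ b = c ∧ a = !c) → ¬(a = b ∧ c = b ∧ a = !b) →
    ¬(a = a ∧ b = a ∧ c = !a) → ¬(a = a ∧ c = a ∧ b = !a) → (true ≠ false ∧ d ≠ e) →
    F4ok true false d e = true → (a = b ∧ a = c → true = d ∧ false = e) →
    (a ≠ b ∧ a ≠ c → false ≠ d ∧ true ≠ e) → False := by decide

/-- Equal sets of extreme points: step II.0. -/
lemma tb_ext_const [Fintype V] (hP : GP P) (hQ : GP Q) (hcr : CrLe P Q)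
    (hE : ∀ x, Ext P x ↔ Ext Q x) {v w z z' : V} (hvw : v ≠ w) (hvz : v ≠ z) (hwz : w ≠ z)
    (hvz' : v ≠ z') (hwz' : w ≠ z') (ev : Ext P v) (ew : Ext P w) :
    tb P Q v w z = tb P Q v w z' := by
  -- opposite sides in `P`
  have key : ∀ z z', v ≠ z → w ≠ z → v ≠ z' → w ≠ z' → sg P v w z ≠ sg P v w z' →
      tb P Q v w z = tb P Q v w z' := by
    intro z z' hvz hwz hvz' hwz' hne
    have hzz' : z ≠ z' := by rintro rfl; exact hne rfl
    have c := (hcr v w z z' hvw hvz hvz' hwz hwz' hzz'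
      (ext_cross hP hvw hvz hvz' hwz hwz' hzz' ev ew hne)).1
    unfold tb
    generalize sg P v w z = a at *; generalize sg P v w z' = b at *
    generalize sg Q v w z = c' at *; generalize sg Q v w z' = d at *
    revert a b c' d; decide
  by_cases hs : sg P v w z = sg P v w z'
  · by_cases hu : ∃ u, v ≠ u ∧ w ≠ u ∧ sg P v w z ≠ sg P v w u
    · obtain ⟨u, hvu, hwu, hne⟩ := hu
      rw [key z u hvz hwz hvu hwu hne]
      rw [key z' u hvz' hwz' hvu hwu (by rw [← hs]; exact hne)]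
    · push Not at hu
      by_contra hne
      -- the two points are on different sides in `Q`
      have hQne : sg Q v w z ≠ sg Q v w z' := by
        intro h
        apply hne
        unfold tb
        rw [h, hs]
      -- extreme points on both sides in `Q`
      obtain ⟨c₁, E1, n1, n2, k1⟩ : ∃ c, Ext Q c ∧ c ≠ v ∧ c ≠ w ∧ sg Q v w c = true := by
        by_cases h : sg Q v w z = true
        · exact exists_ext_side hQ h
        · have h' : sg Q v w z' = true := by
            revert hQne h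
            generalize sg Q v w z = a; generalize sg Q v w z' = b
            revert a b; decide
          exact exists_ext_side hQ h'
      obtain ⟨c₂, E2, m1, m2, k2⟩ : ∃ c, Ext Q c ∧ c ≠ v ∧ c ≠ w ∧ sg Q v w c = false := by
        have : ∃ r, v ≠ r ∧ w ≠ r ∧ sg Q v w r = false := by
          by_cases h : sg Q v w z = false
          · exact ⟨z, hvz, hwz, h⟩
          · refine ⟨z', hvz', hwz', ?_⟩
            revert hQne h
            generalize sg Q v w z = a; generalize sg Q v w z' = b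
            revert a b; decide
        obtain ⟨r, hvr, hwr, hr⟩ := this
        have hr' : sg Q w v r = true := by
          rw [sg_swap hQ hvw hwr hvr, hr]; rfl
        obtain ⟨c, c1, c2, c3, c4⟩ := exists_ext_side hQ hr'
        refine ⟨c, c1, c3, c2, ?_⟩
        rw [sg_swap hQ hvw.symm c3.symm c2.symm, c4]
        rfl
      have E1' := (hE c₁).2 E1
      have E2' := (hE c₂).2 E2
      have hc : c₁ ≠ c₂ := by
        rintro rfl
        rw [k1] at k2
        exact absurd k2 (by decide)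
      have p1 := hu c₁ n1.symm n2.symm
      have p2 := hu c₂ m1.symm m2.symm
      have f1 := ev w c₁ c₂ hvw n1.symm m1.symm n2.symm hc m2.symm
      have f2 := ew v c₁ c₂ hvw.symm n2.symm m2.symm n1.symm hc m1.symm
      have f3 := E1' v w c₂ n1 n2 hc hvw m2.symm m1.symm
      have f4' := E2' v w c₁ m1 m2 hc.symm hvw n2.symm n1.symm
      rw [tri1_iff hP hvw n1.symm m1.symm n2.symm m2.symm hc] at f1
      rw [tri2_iff hP hvw n1.symm m1.symm n2.symm m2.symm hc] at f2
      rw [tri3_iff hP hvw n1.symm m1.symm n2.symm m2.symm hc] at f3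
      rw [tri4_iff hP hvw n1.symm m1.symm n2.symm m2.symm hc] at f4'
      have g2 := hcr v c₁ w c₂ n1.symm hvw m1.symm n2 hc m2.symm
      have g3 := hcr v c₂ w c₁ m1.symm hvw n1.symm m2 hc.symm n2.symm
      rw [cr2_iff hP hvw n1.symm m1.symm n2.symm m2.symm hc,
        cr2_iff hQ hvw n1.symm m1.symm n2.symm m2.symm hc] at g2
      rw [cr3_iff hP hvw n1.symm m1.symm n2.symm m2.symm hc,
        cr3_iff hQ hvw n1.symm m1.symm n2.symm m2.symm hc] at g3
      have hq := ext_cross hQ hvw n1.symm m1.symm n2.symm m2.symm hc ((hE v).1 ev) ((hE w).1 ew)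
        (by rw [k1, k2]; decide)
      have hf := f4 hQ hvw n1.symm m1.symm n2.symm m2.symm hc
      unfold Cr at hq
      rw [← p1, ← p2] at *
      clear p1 p2 hu key
      rw [k1, k2] at *
      generalize sg P v w z = a at *
      generalize sg P v c₁ c₂ = b at *
      generalize sg P w c₁ c₂ = c at *
      generalize sg Q v c₁ c₂ = d at *
      generalize sg Q w c₁ c₂ = e at *
      clear hne hQne hs k1 k2
      exact boolII0 a b c d e f1 f2 f3 f4' hq hf g2 g3
  · exact key z z' hvz hwz hvz' hwz' hs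

end Pool.R339.Hull
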