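import Pool.Agent.R339.HullD

namespace Pool.R339.Hull

variable {V : Type*} {P Q : V → ℝ × ℝ}

/-- Equal sets of extreme points, at least three of them: the comparison bit is constant on
triples with two extreme points. -/
lemma tb_two_ext [Fintype V] (hP : GP P) (hQ : GP Q) (hcr : CrLe P Q)
    (hE : ∀ x, Ext P x ↔ Ext Q x) {v₀ v₁ v₂ : V} (h01 : v₀ ≠ v₁) (h12 : v₁ ≠ v₂) (h02 : v₀ ≠ v₂)
    (e0 : Ext P v₀) (e1 : Ext P v₁) (_e2 : Ext P v₂) :
    ∀ a b z, a ≠ b → a ≠ z → b ≠ z → Ext P a → Ext P b → tb P Q a b z = tb P Q v₀ v₁ v₂ := by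
  -- pairs with `v₀`
  have A : ∀ a z, v₀ ≠ a → v₀ ≠ z → a ≠ z → Ext P a → tb P Q v₀ a z = tb P Q v₀ v₁ v₂ := by
    intro a z h0a h0z haz ea
    by_cases ha1 : a = v₁
    · subst ha1
      exact tb_ext_const hP hQ hcr hE h0a h0z haz h02 h12 e0 ea
    · rw [tb_ext_const hP hQ hcr hE h0a h0z haz h01 ha1 e0 ea]
      rw [tb_swap23 hP hQ h01 (Ne.symm ha1) h0a]
      exact tb_ext_const hP hQ hcr hE h01 h0a (Ne.symm ha1) h02 h12 e0 e1
  intro a b z hab haz hbz ea eb
  by_cases ha : a = v₀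
  · subst ha
    exact A b z hab haz hbz eb
  by_cases hb : b = v₀
  · subst hb
    rw [tb_swap hP hQ hab.symm haz hbz]
    exact A a z hab.symm hbz haz ea
  rw [tb_ext_const hP hQ hcr hE hab haz hbz ha hb ea eb]
  rw [tb_cyc v₀ a b]
  exact A a b (Ne.symm ha) (Ne.symm hb) hab ea

lemma boolII2 : ∀ p q r t p' q' r' t' e : Bool, ¬(p = t ∧ r = t ∧ q = !t) →
    ¬(q = r ∧ t = r ∧ p = !r) → r = t → xor p p' = e → xor q q' = e →
    (p = r ∧ q = t → p' = r' ∧ q' = t') → (q ≠ r ∧ p ≠ t → q' ≠ r' ∧ p' ≠ t') →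
    xor r r' = e := by
  intro p q r t p' q' r' t' e
  cases p <;> cases q <;> cases r <;> cases t <;> cases p' <;> cases q' <;> cases r' <;>
    cases t' <;> cases e <;> simp

/-- Step II.2. -/
lemma tb_one_ext [Fintype V] (hP : GP P) (hQ : GP Q) (hcr : CrLe P Q)
    (hE : ∀ x, Ext P x ↔ Ext Q x) {v₀ v₁ v₂ : V} (h01 : v₀ ≠ v₁) (h12 : v₁ ≠ v₂) (h02 : v₀ ≠ v₂)
    (e0 : Ext P v₀) (e1 : Ext P v₁) (e2 : Ext P v₂) {e : Bool}
    (H2 : ∀ a b z, a ≠ b → a ≠ z → b ≠ z → Ext P a → Ext P b → tb P Q a b z = e) :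
    ∀ v w w', Ext P v → ¬ Ext P w → ¬ Ext P w' → w ≠ w' → tb P Q v w w' = e := by
  have step : ∀ v v' w w', Ext P v → Ext P v' → ¬ Ext P w → ¬ Ext P w' → v ≠ v' → w ≠ w' →
      sg P w w' v = sg P w w' v' → tb P Q v w w' = e := by
    intro v v' w w' ev ev' ew ew' hvv' hww' hs
    have nvw : v ≠ w := by rintro rfl; exact ew ev
    have nvw' : v ≠ w' := by rintro rfl; exact ew' ev
    have nv'w : v' ≠ w := by rintro rfl; exact ew ev'
    have nv'w' : v' ≠ w' := by rintro rfl; exact ew' ev'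
    have f1 := ev v' w w' hvv' nvw nvw' nv'w hww' nv'w'
    have f2 := ev' v w w' hvv'.symm nv'w nv'w' nvw hww' nvw'
    rw [tri1_iff hP hvv' nvw nvw' nv'w nv'w' hww'] at f1
    rw [tri2_iff hP hvv' nvw nvw' nv'w nv'w' hww'] at f2
    have g2 := hcr v w v' w' nvw hvv' nvw' nv'w.symm hww' nv'w'
    have g3 := hcr v w' v' w nvw' hvv' nvw nv'w'.symm hww'.symm nv'w
    rw [cr2_iff hP hvv' nvw nvw' nv'w nv'w' hww',
      cr2_iff hQ hvv' nvw nvw' nv'w nv'w' hww'] at g2
    rw [cr3_iff hP hvv' nvw nvw' nv'w nv'w' hww',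
      cr3_iff hQ hvv' nvw nvw' nv'w nv'w' hww'] at g3
    have k1 := H2 v v' w hvv' nvw nv'w ev ev'
    have k2 := H2 v v' w' hvv' nvw' nv'w' ev ev'
    rw [sg_cyc P v w w', sg_cyc P v' w w'] at hs
    unfold tb at *
    exact boolII2 _ _ _ _ _ _ _ _ _ f1 f2 hs k1 k2 g2 g3
  intro v w w' ev ew ew' hww'
  by_cases hex : ∃ v', Ext P v' ∧ v ≠ v' ∧ sg P w w' v = sg P w w' v'
  · obtain ⟨v', ev', hne, hs⟩ := hex
    exact step v v' w w' ev ev' ew ew' hne hww' hs
  · push Not at hex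
    -- all other extreme points lie on the other side, and they are at least two
    have nvw : v ≠ w := by rintro rfl; exact ew ev
    have nvw' : v ≠ w' := by rintro rfl; exact ew' ev
    have others : ∀ u, Ext P u → u ≠ v → tb P Q u w w' = e := by
      intro u eu huv
      -- find another extreme point different from `u` and `v`
      obtain ⟨u', eu', hu1, hu2⟩ : ∃ u', Ext P u' ∧ u' ≠ u ∧ u' ≠ v := by
        by_cases a0 : v₀ ≠ u ∧ v₀ ≠ v
        · exact ⟨v₀, e0, a0.1, a0.2⟩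
        by_cases a1 : v₁ ≠ u ∧ v₁ ≠ v
        · exact ⟨v₁, e1, a1.1, a1.2⟩
        refine ⟨v₂, e2, ?_, ?_⟩
        · rintro rfl
          apply a0
          refine ⟨h02, ?_⟩
          rintro rfl
          exact a1 ⟨h12, h01.symm⟩
        · rintro rfl
          apply a0
          refine ⟨?_, h02⟩
          rintro rfl
          exact a1 ⟨h01.symm, h12⟩
      refine step u u' w w' eu eu' ew ew' hu1.symm hww' ?_
      have k1 := hex u eu huv.symm
      have k2 := hex u' eu' hu2.symm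
      exact bool_aux1 k1.symm k2.symm
    -- an extreme point of `Q` on the right side
    have ewQ : ¬ Ext Q w := fun h => ew ((hE w).2 h)
    obtain ⟨c, c1, c2, c3, c4⟩ := exists_ext_through hQ ewQ hww' (xor e (sg P w w' v))
    have c1' := (hE c).2 c1
    have hcv : c = v := by
      by_contra hcv
      have k1 := others c c1' hcv
      have k2 := hex c c1' (Ne.symm hcv)
      unfold tb at k1
      rw [← sg_cyc P c w w', ← sg_cyc Q c w w', c4] at k1
      revert k1 k2
      generalize sg P w w' v = a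
      generalize sg P w w' c = b
      clear H2 step others c4
      revert a b e
      decide
    subst hcv
    unfold tb
    rw [← sg_cyc P c w w', ← sg_cyc Q c w w', c4]
    generalize sg P w w' c = a
    clear H2 step others c4
    revert a e
    decide

end Pool.R339.Hull
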