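import Pool.Agent.R339.HullE

namespace Pool.R339.Hull

variable {V : Type*} {p P Q : V → ℝ × ℝ}

lemma boolP5 : ∀ a b c T : Bool, F5ok a b c (!T) T T (!T) (!T) (!T) T = true →
    a = T ∧ b = T ∧ c = T := by
  decide

lemma boolQ5 : ∀ a b c T : Bool, F5ok a b c T (!T) (!T) T T T T = true →
    a = T ∧ b = T := by
  decide

lemma bn1 {x T : Bool} (h : (!x) = !T) : x = T := by
  revert h; cases x <;> cases T <;> simp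

lemma bn2 {x T : Bool} (h : (!x) = T) : x = !T := by
  revert h; cases x <;> cases T <;> simp

lemma factP5 (h : GP p) {v₁ v₂ w₁ w₂ w₃ : V} {T : Bool} (n1 : v₁ ≠ v₂) (n2 : v₁ ≠ w₁)
    (n3 : v₁ ≠ w₂) (n4 : v₁ ≠ w₃) (n5 : v₂ ≠ w₁) (n6 : v₂ ≠ w₂) (n7 : v₂ ≠ w₃) (n8 : w₁ ≠ w₂)
    (n9 : w₁ ≠ w₃) (n10 : w₂ ≠ w₃) (hT : sg p w₁ w₂ w₃ = T)
    (a1 : sg p v₁ w₂ w₃ = T) (a2 : sg p v₁ w₃ w₁ = !T) (a3 : sg p v₁ w₁ w₂ = !T)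
    (b1 : sg p v₂ w₂ w₃ = !T) (b2 : sg p v₂ w₃ w₁ = T) (b3 : sg p v₂ w₁ w₂ = !T) :
    sg p v₁ v₂ w₁ = T ∧ sg p v₁ v₂ w₂ = T ∧ sg p v₁ v₂ w₃ = T := by
  have hf := f5 h n1 n2 n3 n4 n5 n6 n7 n8 n9 n10
  rw [sg_swap23 h n2 n9 n4] at a2
  rw [sg_swap23 h n5 n9 n7] at b2
  have a2' : sg p v₁ w₁ w₃ = T := bn1 a2
  have b2' : sg p v₂ w₁ w₃ = !T := bn2 b2
  rw [hT, a1, a2', a3, b1, b2', b3] at hf
  exact boolP5 _ _ _ _ hf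

lemma factQ5 (h : GP p) {v₁ v₂ w₁ w₂ w₃ : V} {T : Bool} (n1 : v₁ ≠ v₂) (n2 : v₁ ≠ w₁)
    (n3 : v₁ ≠ w₂) (n4 : v₁ ≠ w₃) (n5 : v₂ ≠ w₁) (n6 : v₂ ≠ w₂) (n7 : v₂ ≠ w₃) (n8 : w₁ ≠ w₂)
    (n9 : w₁ ≠ w₃) (n10 : w₂ ≠ w₃) (hT : sg p w₁ w₂ w₃ = T)
    (a1 : sg p v₁ w₂ w₃ = !T) (a2 : sg p v₁ w₃ w₁ = T) (a3 : sg p v₁ w₁ w₂ = T)
    (b1 : sg p v₂ w₂ w₃ = T) (b2 : sg p v₂ w₃ w₁ = !T) (b3 : sg p v₂ w₁ w₂ = T) :
    sg p v₁ v₂ w₁ = T ∧ sg p v₁ v₂ w₂ = T := by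
  have hf := f5 h n1 n2 n3 n4 n5 n6 n7 n8 n9 n10
  rw [sg_swap23 h n2 n9 n4] at a2
  rw [sg_swap23 h n5 n9 n7] at b2
  have a2' : sg p v₁ w₁ w₃ = !T := bn2 a2
  have b2' : sg p v₂ w₁ w₃ = T := bn1 b2
  rw [hT, a1, a2', a3, b1, b2', b3] at hf
  exact boolQ5 _ _ _ _ hf

lemma boolII3 : ∀ p q r t e : Bool, ¬(p = t ∧ r = t ∧ q = !t) →
    (p ≠ q ∧ r ≠ t → xor p e ≠ xor q e ∧ xor r e ≠ xor t (!e)) →
    (p = r ∧ q = t → xor p e = xor r e ∧ xor q e = xor t (!e)) →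
    (q ≠ r ∧ p ≠ t → xor q e ≠ xor r e ∧ xor p e ≠ xor t (!e)) →
    F4ok p q r t = true →
    (p = t ∧ r = !t ∧ (!q) = !t) ∨ (p = !t ∧ r = t ∧ (!q) = !t) ∨ (p = !t ∧ r = !t ∧ (!q) = t) := by
  intro p q r t e
  cases p <;> cases q <;> cases r <;> cases t <;> cases e <;> simp [F4ok]

/-- The triangle `T` of three non-extreme points: every extreme point sees exactly two of the
edges. -/
lemma three_types (hP : GP P) (hQ : GP Q) (hcr : CrLe P Q) {v w₁ w₂ w₃ : V} {e : Bool}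
    (ev : Ext P v) (n1 : v ≠ w₁) (n2 : v ≠ w₂) (n3 : v ≠ w₃) (n12 : w₁ ≠ w₂) (n13 : w₁ ≠ w₃)
    (n23 : w₂ ≠ w₃) (k12 : tb P Q v w₁ w₂ = e) (k13 : tb P Q v w₁ w₃ = e)
    (k23 : tb P Q v w₂ w₃ = e) (kT : tb P Q w₁ w₂ w₃ = !e) :
    (sg P v w₁ w₂ = sg P w₁ w₂ w₃ ∧ sg P v w₂ w₃ = !sg P w₁ w₂ w₃ ∧
      sg P v w₃ w₁ = !sg P w₁ w₂ w₃) ∨
    (sg P v w₁ w₂ = !sg P w₁ w₂ w₃ ∧ sg P v w₂ w₃ = sg P w₁ w₂ w₃ ∧
      sg P v w₃ w₁ = !sg P w₁ w₂ w₃) ∨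
    (sg P v w₁ w₂ = !sg P w₁ w₂ w₃ ∧ sg P v w₂ w₃ = !sg P w₁ w₂ w₃ ∧
      sg P v w₃ w₁ = sg P w₁ w₂ w₃) := by
  have f1 := ev w₁ w₂ w₃ n1 n2 n3 n12 n23 n13
  rw [tri1_iff hP n1 n2 n3 n12 n13 n23] at f1
  have g1 := hcr v w₁ w₂ w₃ n1 n2 n3 n12 n13 n23
  have g2 := hcr v w₂ w₁ w₃ n2 n1 n3 n12.symm n23 n13
  have g3 := hcr v w₃ w₁ w₂ n3 n1 n2 n13.symm n23.symm n12
  rw [cr2_iff hP n1 n2 n3 n12 n13 n23, cr2_iff hQ n1 n2 n3 n12 n13 n23] at g2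
  rw [cr3_iff hP n1 n2 n3 n12 n13 n23, cr3_iff hQ n1 n2 n3 n12 n13 n23] at g3
  unfold Cr at g1
  have hf := f4 hP n1 n2 n3 n12 n13 n23
  have q1 : sg Q v w₁ w₂ = xor (sg P v w₁ w₂) e := by
    rw [← k12]; unfold tb
    generalize sg P v w₁ w₂ = a; generalize sg Q v w₁ w₂ = b; revert a b; decide
  have q2 : sg Q v w₁ w₃ = xor (sg P v w₁ w₃) e := by
    rw [← k13]; unfold tb
    generalize sg P v w₁ w₃ = a; generalize sg Q v w₁ w₃ = b; revert a b; decide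
  have q3 : sg Q v w₂ w₃ = xor (sg P v w₂ w₃) e := by
    rw [← k23]; unfold tb
    generalize sg P v w₂ w₃ = a; generalize sg Q v w₂ w₃ = b; revert a b; decide
  have q4 : sg Q w₁ w₂ w₃ = xor (sg P w₁ w₂ w₃) (!e) := by
    rw [← kT]; unfold tb
    generalize sg P w₁ w₂ w₃ = a; generalize sg Q w₁ w₂ w₃ = b; revert a b; decide
  rw [q1, q2, q3, q4] at g1 g2 g3
  rw [sg_swap23 hP n1 n13 n3]
  exact boolII3 _ _ _ _ _ f1 g1 g2 g3 hf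

/-- Step II.3. -/
lemma tb_no_ext [Fintype V] (hP : GP P) (hQ : GP Q) (hcr : CrLe P Q)
    (hE : ∀ x, Ext P x ↔ Ext Q x) {e : Bool}
    (H2 : ∀ a b z, a ≠ b → a ≠ z → b ≠ z → Ext P a → Ext P b → tb P Q a b z = e)
    (H1 : ∀ v w w', Ext P v → ¬ Ext P w → ¬ Ext P w' → w ≠ w' → tb P Q v w w' = e) :
    ∀ w₁ w₂ w₃, ¬ Ext P w₁ → ¬ Ext P w₂ → ¬ Ext P w₃ → w₁ ≠ w₂ → w₁ ≠ w₃ → w₂ ≠ w₃ →
      tb P Q w₁ w₂ w₃ = e := by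
  intro w₁ w₂ w₃ ew1 ew2 ew3 n12 n13 n23
  by_contra hne
  have kT : tb P Q w₁ w₂ w₃ = !e := by
    revert hne; generalize tb P Q w₁ w₂ w₃ = x; clear H1 H2; revert x e; decide
  have types : ∀ v, Ext P v →
      (sg P v w₁ w₂ = sg P w₁ w₂ w₃ ∧ sg P v w₂ w₃ = !sg P w₁ w₂ w₃ ∧
        sg P v w₃ w₁ = !sg P w₁ w₂ w₃) ∨
      (sg P v w₁ w₂ = !sg P w₁ w₂ w₃ ∧ sg P v w₂ w₃ = sg P w₁ w₂ w₃ ∧
        sg P v w₃ w₁ = !sg P w₁ w₂ w₃) ∨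
      (sg P v w₁ w₂ = !sg P w₁ w₂ w₃ ∧ sg P v w₂ w₃ = !sg P w₁ w₂ w₃ ∧
        sg P v w₃ w₁ = sg P w₁ w₂ w₃) := by
    intro v ev
    have m1 : v ≠ w₁ := fun h => ew1 (h ▸ ev)
    have m2 : v ≠ w₂ := fun h => ew2 (h ▸ ev)
    have m3 : v ≠ w₃ := fun h => ew3 (h ▸ ev)
    exact three_types hP hQ hcr ev m1 m2 m3 n12 n13 n23 (H1 v w₁ w₂ ev ew1 ew2 n12)
      (H1 v w₁ w₃ ev ew1 ew3 n13) (H1 v w₂ w₃ ev ew2 ew3 n23) kT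
  set T := sg P w₁ w₂ w₃ with hT
  have qT : sg Q w₁ w₂ w₃ = !(xor T e) := by
    unfold tb at kT
    rw [← hT] at kT
    revert kT
    generalize sg Q w₁ w₂ w₃ = x
    clear H1 H2 hne types
    clear_value T
    clear hT
    revert x T e
    decide
  obtain ⟨v₃, E3, a3, b3, c3⟩ := exists_ext_through hP ew1 n12 T
  obtain ⟨v₁, E1, a1, b1, c1⟩ := exists_ext_through hP ew2 n23 T
  obtain ⟨v₂, E2, a2, b2, c2⟩ := exists_ext_through hP ew3 n13.symm T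
  have m11 : v₁ ≠ w₁ := fun h => ew1 (h ▸ E1)
  have m12 : v₁ ≠ w₂ := fun h => ew2 (h ▸ E1)
  have m13 : v₁ ≠ w₃ := fun h => ew3 (h ▸ E1)
  have m21 : v₂ ≠ w₁ := fun h => ew1 (h ▸ E2)
  have m22 : v₂ ≠ w₂ := fun h => ew2 (h ▸ E2)
  have m23 : v₂ ≠ w₃ := fun h => ew3 (h ▸ E2)
  have m31 : v₃ ≠ w₁ := fun h => ew1 (h ▸ E3)
  have m32 : v₃ ≠ w₂ := fun h => ew2 (h ▸ E3)
  have m33 : v₃ ≠ w₃ := fun h => ew3 (h ▸ E3)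
  rw [sg_cyc P v₃ w₁ w₂] at c3
  rw [sg_cyc P v₁ w₂ w₃] at c1
  rw [sg_cyc P v₂ w₃ w₁] at c2
  have bnot : ∀ {x : Bool}, ¬ (x = !x) := by intro x; cases x <;> simp
  -- the bits of the three points
  have t1 : sg P v₁ w₁ w₂ = !T ∧ sg P v₁ w₃ w₁ = !T := by
    rcases types v₁ E1 with ⟨x, y, z⟩ | ⟨x, y, z⟩ | ⟨x, y, z⟩
    · rw [c1] at y; exact absurd y bnot
    · exact ⟨x, z⟩
    · rw [c1] at y; exact absurd y bnot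
  have t2 : sg P v₂ w₁ w₂ = !T ∧ sg P v₂ w₂ w₃ = !T := by
    rcases types v₂ E2 with ⟨x, y, z⟩ | ⟨x, y, z⟩ | ⟨x, y, z⟩
    · rw [c2] at z; exact absurd z bnot
    · rw [c2] at z; exact absurd z bnot
    · exact ⟨x, y⟩
  have t3 : sg P v₃ w₂ w₃ = !T ∧ sg P v₃ w₃ w₁ = !T := by
    rcases types v₃ E3 with ⟨x, y, z⟩ | ⟨x, y, z⟩ | ⟨x, y, z⟩
    · exact ⟨y, z⟩
    · rw [c3] at x; exact absurd x bnot
    · rw [c3] at x; exact absurd x bnot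
  have d12 : v₁ ≠ v₂ := by
    rintro rfl
    rw [c2] at t1; exact bnot t1.2
  have d13 : v₁ ≠ v₃ := by
    rintro rfl
    rw [c3] at t1; exact bnot t1.1
  have d23 : v₂ ≠ v₃ := by
    rintro rfl
    rw [c3] at t2; exact bnot t2.1
  have hT2 : sg P w₂ w₃ w₁ = T := by rw [sg_cyc P w₁ w₂ w₃]
  have hT3 : sg P w₃ w₁ w₂ = T := by rw [sg_cyc2 P w₁ w₂ w₃]
  -- orientation in `P`
  have o12 := factP5 hP d12 m11 m12 m13 m21 m22 m23 n12 n13 n23 hT.symm c1 t1.2 t1.1 t2.2 c2 t2.1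
  have o23 := factP5 hP d23 m22 m23 m21 m32 m33 m31 n23 n12.symm n13.symm hT2 c2 t2.1 t2.2
    t3.2 c3 t3.1
  have o31 := factP5 hP d13.symm m33 m31 m32 m13 m11 m12 n13.symm n23.symm n12 hT3 c3 t3.1 t3.2
    t1.1 c1 t1.2
  have oP : sg P v₁ v₂ v₃ = T := by
    have hf := f4 hP d12 d13 m11 d23 m21 m31
    have x1 := o12.1
    have x2 := o23.2.2
    have x3 := o31.2.1
    rw [sg_swap hP d13 m31 m11] at x3
    rw [x1, x2] at hf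
    revert hf x3
    generalize sg P v₁ v₂ v₃ = a; generalize sg P v₁ v₃ w₁ = b
    clear H1 H2 types kT qT hne hT hT2 hT3 o12 o23 o31 x1 x2 t1 t2 t3 c1 c2 c3
    clear_value T
    clear bnot
    revert a b T
    decide
  -- orientation in `Q`
  have conv : ∀ v, Ext P v → ∀ w w', ¬ Ext P w → ¬ Ext P w' → w ≠ w' →
      sg Q v w w' = xor (sg P v w w') e := by
    intro v ev w w' ew ew' hww'
    have := H1 v w w' ev ew ew' hww'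
    unfold tb at this
    rw [← this]
    generalize sg P v w w' = a; generalize sg Q v w w' = b; revert a b; decide
  have bx : ∀ x y : Bool, xor x y = !!(xor x y) := by decide
  have bx2 : ∀ x y : Bool, xor (!x) y = !(xor x y) := by decide
  have q11 : sg Q v₁ w₂ w₃ = !!(xor T e) := by
    rw [conv v₁ E1 w₂ w₃ ew2 ew3 n23, c1]; exact bx _ _
  have q12 : sg Q v₁ w₃ w₁ = !(xor T e) := by
    rw [conv v₁ E1 w₃ w₁ ew3 ew1 n13.symm, t1.2]; exact bx2 _ _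
  have q13 : sg Q v₁ w₁ w₂ = !(xor T e) := by
    rw [conv v₁ E1 w₁ w₂ ew1 ew2 n12, t1.1]; exact bx2 _ _
  have q21 : sg Q v₂ w₂ w₃ = !(xor T e) := by
    rw [conv v₂ E2 w₂ w₃ ew2 ew3 n23, t2.2]; exact bx2 _ _
  have q22 : sg Q v₂ w₃ w₁ = !!(xor T e) := by
    rw [conv v₂ E2 w₃ w₁ ew3 ew1 n13.symm, c2]; exact bx _ _
  have q23 : sg Q v₂ w₁ w₂ = !(xor T e) := by
    rw [conv v₂ E2 w₁ w₂ ew1 ew2 n12, t2.1]; exact bx2 _ _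
  have q31 : sg Q v₃ w₂ w₃ = !(xor T e) := by
    rw [conv v₃ E3 w₂ w₃ ew2 ew3 n23, t3.1]; exact bx2 _ _
  have q32 : sg Q v₃ w₃ w₁ = !(xor T e) := by
    rw [conv v₃ E3 w₃ w₁ ew3 ew1 n13.symm, t3.2]; exact bx2 _ _
  have q33 : sg Q v₃ w₁ w₂ = !!(xor T e) := by
    rw [conv v₃ E3 w₁ w₂ ew1 ew2 n12, c3]; exact bx _ _
  have qT3 : sg Q w₃ w₁ w₂ = !(xor T e) := by rw [sg_cyc2 Q w₁ w₂ w₃, qT]
  have r12 := factQ5 hQ d12 m11 m12 m13 m21 m22 m23 n12 n13 n23 qT q11 q12 q13 q21 q22 q23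
  have r31 := factQ5 hQ d13.symm m33 m31 m32 m13 m11 m12 n13.symm n23.symm n12 qT3 q33 q31 q32
    q13 q11 q12
  have oQ : sg Q v₁ v₂ v₃ = !(xor T e) := by
    have hf := f4 hQ d12 d13 m11 d23 m21 m31
    have hx := ((hE v₁).1 E1) v₂ v₃ w₁ d12 d13 m11 d23 m31 m21
    rw [tri1_iff hQ d12 d13 m11 d23 m21 m31] at hx
    have x1 := r12.1
    have x3 := r31.2
    rw [sg_swap hQ d13 m31 m11] at x3
    rw [x1] at hf hx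
    revert hf x3 hx
    generalize sg Q v₁ v₂ v₃ = a; generalize sg Q v₁ v₃ w₁ = b; generalize sg Q v₂ v₃ w₁ = c
    generalize xor T e = y
    clear H1 H2 types kT qT hne hT hT2 hT3 o12 o23 o31 x1 t1 t2 t3 c1 c2 c3 conv r12 r31
    clear bnot
    revert a b c y
    decide
  have fin := H2 v₁ v₂ v₃ d12 d13 d23 E1 E2
  unfold tb at fin
  rw [oP, oQ] at fin
  revert fin
  clear H1 H2 types kT qT hne hT hT2 hT3 o12 o23 o31 t1 t2 t3 c1 c2 c3 conv r12 r31 oP oQ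
    q11 q12 q13 q21 q22 q23 q31 q32 q33 qT3
  clear_value T
  clear bnot
  revert T e
  decide

end Pool.R339.Hull
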