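import Pool.Agent.R339.HullF

namespace Pool.R339.Hull

variable {V : Type*} {p P Q : V → ℝ × ℝ}

/-- Equal sets of extreme points, at least three: same crossings. -/
lemma cr_of_ext_eq [Fintype V] (hP : GP P) (hQ : GP Q) (hcr : CrLe P Q)
    (hE : ∀ x, Ext P x ↔ Ext Q x) {v₀ v₁ v₂ : V} (h01 : v₀ ≠ v₁) (h12 : v₁ ≠ v₂) (h02 : v₀ ≠ v₂)
    (e0 : Ext P v₀) (e1 : Ext P v₁) (e2 : Ext P v₂) : CrLe Q P := by
  have H2 := tb_two_ext hP hQ hcr hE h01 h12 h02 e0 e1 e2
  have H1 := tb_one_ext hP hQ hcr hE h01 h12 h02 e0 e1 e2 H2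
  have H0 := tb_no_ext hP hQ hcr hE H2 H1
  have all : ∀ a b c, a ≠ b → a ≠ c → b ≠ c → tb P Q a b c = tb P Q v₀ v₁ v₂ := by
    intro a b c hab hac hbc
    by_cases ea : Ext P a <;> by_cases eb : Ext P b <;> by_cases ec : Ext P c
    · exact H2 a b c hab hac hbc ea eb
    · exact H2 a b c hab hac hbc ea eb
    · rw [← tb_swap23 hP hQ hab hbc hac]
      exact H2 a c b hac hab hbc.symm ea ec
    · exact H1 a b c ea eb ec hbc
    · rw [← tb_cyc a b c]
      exact H2 b c a hbc hab.symm hac.symm eb ec
    · rw [← tb_cyc a b c]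
      exact H1 b c a eb ec ea hac.symm
    · rw [← tb_cyc a b c, ← tb_cyc b c a]
      exact H1 c a b ec ea eb hab
    · exact H0 a b c ea eb ec hab hac hbc
  have conv : ∀ a b c, a ≠ b → a ≠ c → b ≠ c →
      sg Q a b c = xor (sg P a b c) (tb P Q v₀ v₁ v₂) := by
    intro a b c hab hac hbc
    rw [← all a b c hab hac hbc]
    unfold tb
    generalize sg P a b c = x; generalize sg Q a b c = y; revert x y; decide
  intro a b c d hab hac had hbc hbd hcd h
  unfold Cr at *
  rw [conv a b c hab hac hbc, conv a b d hab had hbd, conv a c d hac had hcd,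
    conv b c d hbc hbd hcd] at h
  generalize tb P Q v₀ v₁ v₂ = e at *
  revert h
  generalize sg P a b c = x; generalize sg P a b d = y; generalize sg P a c d = z
  generalize sg P b c d = w
  clear H2 H1 H0 all conv
  revert x y z w e
  decide

/-- Convexity status of four points (`false` means convex position). -/
noncomputable def nc (p : V → ℝ × ℝ) (a b c d : V) : Bool :=
  xor (xor (sg p a b c) (sg p a b d)) (xor (sg p a c d) (sg p b c d))

lemma nc_swap12 (h : GP p) {a b c d : V} (hab : a ≠ b) (hac : a ≠ c) (had : a ≠ d)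
    (hbc : b ≠ c) (hbd : b ≠ d) (_hcd : c ≠ d) : nc p b a c d = nc p a b c d := by
  unfold nc
  rw [sg_swap h hab hbc hac, sg_swap h hab hbd had]
  generalize sg p a b c = x; generalize sg p a b d = y; generalize sg p a c d = z
  generalize sg p b c d = w
  revert x y z w; decide

lemma nc_swap23 (h : GP p) {a b c d : V} (hab : a ≠ b) (hac : a ≠ c) (_had : a ≠ d)
    (hbc : b ≠ c) (hbd : b ≠ d) (hcd : c ≠ d) : nc p a c b d = nc p a b c d := by
  unfold nc
  rw [sg_swap23 h hab hbc hac, sg_swap h hbc hcd hbd]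
  generalize sg p a b c = x; generalize sg p a b d = y; generalize sg p a c d = z
  generalize sg p b c d = w
  revert x y z w; decide

lemma nc_swap34 (h : GP p) {a b c d : V} (_hab : a ≠ b) (hac : a ≠ c) (had : a ≠ d)
    (hbc : b ≠ c) (hbd : b ≠ d) (hcd : c ≠ d) : nc p a b d c = nc p a b c d := by
  unfold nc
  rw [sg_swap23 h hac hcd had, sg_swap23 h hbc hcd hbd]
  generalize sg p a b c = x; generalize sg p a b d = y; generalize sg p a c d = z
  generalize sg p b c d = w
  revert x y z w; decide

/-- In each five points the convexity bits have even sum. -/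
lemma nc_five (p : V → ℝ × ℝ) (a b c d e : V) :
    xor (nc p a b c d) (xor (nc p a b c e) (xor (nc p a b d e) (xor (nc p a c d e)
      (nc p b c d e)))) = false := by
  unfold nc
  generalize sg p a b c = x1; generalize sg p a b d = x2; generalize sg p a b e = x3
  generalize sg p a c d = x4; generalize sg p a c e = x5; generalize sg p a d e = x6
  generalize sg p b c d = x7; generalize sg p b c e = x8; generalize sg p b d e = x9
  generalize sg p c d e = x10
  revert x1 x2 x3 x4 x5 x6 x7 x8 x9 x10; decide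

/-- Convex in `P` implies convex in `Q`. -/
lemma nc_le (hP : GP P) (hQ : GP Q) (hcr : CrLe P Q) {a b c d : V} (hab : a ≠ b) (hac : a ≠ c)
    (had : a ≠ d) (hbc : b ≠ c) (hbd : b ≠ d) (hcd : c ≠ d) (h : nc P a b c d = false) :
    nc Q a b c d = false := by
  have g1 := hcr a b c d hab hac had hbc hbd hcd
  have g2 := hcr a c b d hac hab had hbc.symm hcd hbd
  have g3 := hcr a d b c had hab hac hbd.symm hcd.symm hbc
  rw [cr2_iff hP hab hac had hbc hbd hcd, cr2_iff hQ hab hac had hbc hbd hcd] at g2
  rw [cr3_iff hP hab hac had hbc hbd hcd, cr3_iff hQ hab hac had hbc hbd hcd] at g3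
  unfold Cr at g1
  have hf := f4 hP hab hac had hbc hbd hcd
  unfold nc at *
  revert h hf g1 g2 g3
  generalize sg P a b c = x1; generalize sg P a b d = x2; generalize sg P a c d = x3
  generalize sg P b c d = x4
  generalize sg Q a b c = y1; generalize sg Q a b d = y2; generalize sg Q a c d = y3
  generalize sg Q b c d = y4
  cases x1 <;> cases x2 <;> cases x3 <;> cases x4 <;> cases y1 <;> cases y2 <;> cases y3 <;>
    cases y4 <;> simp [F4ok]

/-- If the convexity statuses agree, crossings of `Q` are crossings of `P`. -/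
lemma cr_of_nc (hP : GP P) (hQ : GP Q) (hcr : CrLe P Q)
    (hn : ∀ a b c d, a ≠ b → a ≠ c → a ≠ d → b ≠ c → b ≠ d → c ≠ d → nc P a b c d = nc Q a b c d) :
    CrLe Q P := by
  intro a b c d hab hac had hbc hbd hcd h
  have g1 := hcr a b c d hab hac had hbc hbd hcd
  have g2 := hcr a c b d hac hab had hbc.symm hcd hbd
  have g3 := hcr a d b c had hab hac hbd.symm hcd.symm hbc
  rw [cr2_iff hP hab hac had hbc hbd hcd, cr2_iff hQ hab hac had hbc hbd hcd] at g2
  rw [cr3_iff hP hab hac had hbc hbd hcd, cr3_iff hQ hab hac had hbc hbd hcd] at g3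
  have hf := f4 hP hab hac had hbc hbd hcd
  have hf' := f4 hQ hab hac had hbc hbd hcd
  have hnn := hn a b c d hab hac had hbc hbd hcd
  unfold Cr at *
  unfold nc at hnn
  revert h hf hf' g1 g2 g3 hnn
  generalize sg P a b c = x1; generalize sg P a b d = x2; generalize sg P a c d = x3
  generalize sg P b c d = x4
  generalize sg Q a b c = y1; generalize sg Q a b d = y2; generalize sg Q a c d = y3
  generalize sg Q b c d = y4
  cases x1 <;> cases x2 <;> cases x3 <;> cases x4 <;> cases y1 <;> cases y2 <;> cases y3 <;>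
    cases y4 <;> simp [F4ok]

end Pool.R339.Hull
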