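import Pool.Agent.R339.HullG

namespace Pool.R339.Hull

variable {V : Type*} {p P Q : V → ℝ × ℝ}

/-- The extreme points of `Q` are exactly the three distinct points `c₁, c₂, c₃`. -/
structure Tr (Q : V → ℝ × ℝ) (c₁ c₂ c₃ : V) : Prop where
  n12 : c₁ ≠ c₂
  n13 : c₁ ≠ c₃
  n23 : c₂ ≠ c₃
  e1 : Ext Q c₁
  e2 : Ext Q c₂
  e3 : Ext Q c₃
  all : ∀ x, Ext Q x → x = c₁ ∨ x = c₂ ∨ x = c₃

lemma Tr.swap12 {c₁ c₂ c₃ : V} (h : Tr Q c₁ c₂ c₃) : Tr Q c₂ c₁ c₃ :=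
  ⟨h.n12.symm, h.n23, h.n13, h.e2, h.e1, h.e3, fun x hx => by
    rcases h.all x hx with h | h | h
    · exact Or.inr (Or.inl h)
    · exact Or.inl h
    · exact Or.inr (Or.inr h)⟩

lemma Tr.swap23 {c₁ c₂ c₃ : V} (h : Tr Q c₁ c₂ c₃) : Tr Q c₁ c₃ c₂ :=
  ⟨h.n13, h.n12, h.n23.symm, h.e1, h.e3, h.e2, fun x hx => by
    rcases h.all x hx with h | h | h
    · exact Or.inl h
    · exact Or.inr (Or.inr h)
    · exact Or.inr (Or.inl h)⟩

lemma tr_side [Fintype V] (hQ : GP Q) {c₁ c₂ c₃ w : V} (h : Tr Q c₁ c₂ c₃) (w1 : c₁ ≠ w)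
    (w2 : c₂ ≠ w) : sg Q c₁ c₂ w = sg Q c₁ c₂ c₃ := by
  by_contra hne
  cases hs : sg Q c₁ c₂ w with
  | true =>
    obtain ⟨c, k1, k2, k3, k4⟩ := exists_ext_side hQ hs
    rcases h.all c k1 with r | r | r
    · exact k2 r
    · exact k3 r
    · subst r
      rw [hs, k4] at hne
      exact hne rfl
  | false =>
    have hs' : sg Q c₂ c₁ w = true := by
      rw [sg_swap hQ h.n12 w2 w1, hs]; rfl
    obtain ⟨c, k1, k2, k3, k4⟩ := exists_ext_side hQ hs'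
    rcases h.all c k1 with r | r | r
    · exact k3 r
    · exact k2 r
    · subst r
      rw [sg_swap hQ h.n12 h.n23 h.n13] at k4
      rw [hs] at hne
      revert hne k4
      generalize sg Q c₁ c₂ c = x
      revert x; decide

lemma tr_nc3 [Fintype V] (hQ : GP Q) {c₁ c₂ c₃ w : V} (h : Tr Q c₁ c₂ c₃) (w1 : c₁ ≠ w)
    (w2 : c₂ ≠ w) (w3 : c₃ ≠ w) : nc Q c₁ c₂ c₃ w = true := by
  have a1 := tr_side hQ h w1 w2
  have a2 := tr_side hQ h.swap23 w1 w3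
  have a3 := tr_side hQ h.swap12.swap23 w2 w3
  rw [sg_swap23 hQ h.n12 h.n23 h.n13] at a2
  rw [sg_cyc Q c₁ c₂ c₃] at a3
  unfold nc
  rw [a1, a2, a3]
  generalize sg Q c₁ c₂ c₃ = x
  revert x; decide

set_option synthInstance.maxSize 2000 in
set_option synthInstance.maxHeartbeats 1000000 in
lemma boolF5b : ∀ T x y z : Bool, F5ok T T T (!T) (!T) x T T y z = true →
    (xor x y = false ∧ xor x z = true ∧ xor y z = true) ∨
    (xor x y = true ∧ xor x z = false ∧ xor y z = true) ∨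
    (xor x y = true ∧ xor x z = true ∧ xor y z = false) := by decide

/-- For two non-extreme points exactly one of the three quadruples with two extreme points is in
convex position. -/
lemma tr_nc2 [Fintype V] (hQ : GP Q) {c₁ c₂ c₃ w w' : V} (h : Tr Q c₁ c₂ c₃) (w1 : c₁ ≠ w)
    (w2 : c₂ ≠ w) (w3 : c₃ ≠ w) (w1' : c₁ ≠ w') (w2' : c₂ ≠ w') (w3' : c₃ ≠ w') (hww : w ≠ w') :
    (nc Q c₁ c₂ w w' = false ∧ nc Q c₁ c₃ w w' = true ∧ nc Q c₂ c₃ w w' = true) ∨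
    (nc Q c₁ c₂ w w' = true ∧ nc Q c₁ c₃ w w' = false ∧ nc Q c₂ c₃ w w' = true) ∨
    (nc Q c₁ c₂ w w' = true ∧ nc Q c₁ c₃ w w' = true ∧ nc Q c₂ c₃ w w' = false) := by
  have a1 := tr_side hQ h w1 w2
  have a2 := tr_side hQ h.swap23 w1 w3
  have a3 := tr_side hQ h.swap12.swap23 w2 w3
  rw [sg_swap23 hQ h.n12 h.n23 h.n13] at a2
  rw [sg_cyc Q c₁ c₂ c₃] at a3
  have b1 := tr_side hQ h w1' w2'
  have b2 := tr_side hQ h.swap23 w1' w3'
  have b3 := tr_side hQ h.swap12.swap23 w2' w3'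
  rw [sg_swap23 hQ h.n12 h.n23 h.n13] at b2
  rw [sg_cyc Q c₁ c₂ c₃] at b3
  have hf := f5 hQ h.n12 h.n13 w1 w1' h.n23 w2 w2' w3 w3' hww
  unfold nc
  rw [a1, a2, a3, b1, b2, b3] at hf ⊢
  have := boolF5b _ _ _ _ hf
  revert this
  generalize sg Q c₁ c₂ c₃ = T; generalize sg Q c₁ w w' = x
  generalize sg Q c₂ w w' = y; generalize sg Q c₃ w w' = z
  cases T <;> cases x <;> cases y <;> cases z <;> simp

/-- Quadruples with two extreme points have the same status in `P` and `Q`. -/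
lemma tr_nc2_eq [Fintype V] (hP : GP P) (hQ : GP Q) (hcr : CrLe P Q) {c₁ c₂ c₃ w w' : V}
    (h : Tr Q c₁ c₂ c₃) (w1 : c₁ ≠ w) (w2 : c₂ ≠ w) (w3 : c₃ ≠ w) (w1' : c₁ ≠ w') (w2' : c₂ ≠ w')
    (w3' : c₃ ≠ w') (hww : w ≠ w') : nc P c₁ c₂ w w' = nc Q c₁ c₂ w w' := by
  have q1 := tr_nc3 hQ h w1 w2 w3
  have q2 := tr_nc3 hQ h w1' w2' w3'
  have q3 := tr_nc2 hQ h w1 w2 w3 w1' w2' w3' hww
  have l1 := nc_le hP hQ hcr h.n12 h.n13 w1 h.n23 w2 w3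
  have l2 := nc_le hP hQ hcr h.n12 h.n13 w1' h.n23 w2' w3'
  have l3 := nc_le hP hQ hcr h.n12 w1 w1' w2 w2' hww
  have l4 := nc_le hP hQ hcr h.n13 w1 w1' w3 w3' hww
  have l5 := nc_le hP hQ hcr h.n23 w2 w2' w3 w3' hww
  have five := nc_five P c₁ c₂ c₃ w w'
  revert q1 q2 q3 l1 l2 l3 l4 l5 five
  generalize nc P c₁ c₂ c₃ w = x1; generalize nc P c₁ c₂ c₃ w' = x2
  generalize nc P c₁ c₂ w w' = x3; generalize nc P c₁ c₃ w w' = x4
  generalize nc P c₂ c₃ w w' = x5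
  generalize nc Q c₁ c₂ c₃ w = y1; generalize nc Q c₁ c₂ c₃ w' = y2
  generalize nc Q c₁ c₂ w w' = y3; generalize nc Q c₁ c₃ w w' = y4
  generalize nc Q c₂ c₃ w w' = y5
  cases x1 <;> cases x2 <;> cases x3 <;> cases x4 <;> cases x5 <;> cases y1 <;> cases y2 <;>
    cases y3 <;> cases y4 <;> cases y5 <;> simp

/-- The status change of a quadruple with one extreme point does not depend on that point. -/
lemma tr_nc1_const [Fintype V] (hP : GP P) (hQ : GP Q) (hcr : CrLe P Q)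
    {c₁ c₂ c₃ w₁ w₂ w₃ : V} (h : Tr Q c₁ c₂ c₃) (a1 : c₁ ≠ w₁) (a2 : c₂ ≠ w₁) (a3 : c₃ ≠ w₁)
    (b1 : c₁ ≠ w₂) (b2 : c₂ ≠ w₂) (b3 : c₃ ≠ w₂) (d1 : c₁ ≠ w₃) (d2 : c₂ ≠ w₃) (d3 : c₃ ≠ w₃)
    (n12 : w₁ ≠ w₂) (n13 : w₁ ≠ w₃) (n23 : w₂ ≠ w₃) :
    xor (nc P c₁ w₁ w₂ w₃) (nc Q c₁ w₁ w₂ w₃) = xor (nc P c₂ w₁ w₂ w₃) (nc Q c₂ w₁ w₂ w₃) := by
  have e1 := tr_nc2_eq hP hQ hcr h a1 a2 a3 b1 b2 b3 n12
  have e2 := tr_nc2_eq hP hQ hcr h a1 a2 a3 d1 d2 d3 n13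
  have e3 := tr_nc2_eq hP hQ hcr h b1 b2 b3 d1 d2 d3 n23
  have fP := nc_five P c₁ c₂ w₁ w₂ w₃
  have fQ := nc_five Q c₁ c₂ w₁ w₂ w₃
  rw [e1, e2, e3] at fP
  revert fP fQ
  generalize nc P c₁ w₁ w₂ w₃ = x1; generalize nc P c₂ w₁ w₂ w₃ = x2
  generalize nc Q c₁ w₁ w₂ w₃ = y1; generalize nc Q c₂ w₁ w₂ w₃ = y2
  generalize nc Q c₁ c₂ w₁ w₂ = z1; generalize nc Q c₁ c₂ w₁ w₃ = z2
  generalize nc Q c₁ c₂ w₂ w₃ = z3
  cases x1 <;> cases x2 <;> cases y1 <;> cases y2 <;> cases z1 <;> cases z2 <;> cases z3 <;> simp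

set_option maxRecDepth 10000 in
lemma boolF6core : ∀ b1 b2 b3 b4 b5 b6 t : Bool,
    (F5ok b1 (!b1) b2 b3 t (!(xor (xor b3 t) b4)) (!b3) (!(xor (xor b1 b2) t))
      (!(xor (xor (!b1) b2) (!(xor (xor b3 t) b4)))) b4 &&
    F5ok b1 (!b1) (!b2) b3 (!(xor (xor t b5) b6)) (!(xor (xor (!(xor (xor b3 t) b4)) b5) (!b6)))
      (!b3) (!(xor (xor b1 (!b2)) (!(xor (xor t b5) b6))))
      (!(xor (xor (!(xor (xor (!b1) b2) (!(xor (xor b3 t) b4)))) (!b5)) (!b6))) (!b4) &&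
    F5ok b1 b2 (!b2) t (!(xor (xor t b5) b6)) b5 (!(xor (xor b1 b2) t))
      (!(xor (xor b1 (!b2)) (!(xor (xor t b5) b6)))) (!b5) b6 &&
    F5ok (!b1) b2 (!b2) (!(xor (xor b3 t) b4)) (!(xor (xor (!(xor (xor b3 t) b4)) b5) (!b6))) b5
      (!(xor (xor (!b1) b2) (!(xor (xor b3 t) b4))))
      (!(xor (xor (!(xor (xor (!b1) b2) (!(xor (xor b3 t) b4)))) (!b5)) (!b6))) (!b5) (!b6) &&
    F5ok b3 t (!(xor (xor t b5) b6)) (!(xor (xor b3 t) b4))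
      (!(xor (xor (!(xor (xor b3 t) b4)) b5) (!b6))) b5 b4 (!b4) b6 (!b6) &&
    F5ok (!b3) (!(xor (xor b1 b2) t)) (!(xor (xor b1 (!b2)) (!(xor (xor t b5) b6))))
      (!(xor (xor (!b1) b2) (!(xor (xor b3 t) b4))))
      (!(xor (xor (!(xor (xor (!b1) b2) (!(xor (xor b3 t) b4)))) (!b5)) (!b6))) (!b5)
      b4 (!b4) b6 (!b6)) = false := by decide

lemma boolF6 (abc abd abe abf acd ace acf ade adf aef bcd bce bcf bde bdf bef cde cdf cef dff : Bool)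
    (h1 : abc ≠ abd) (h2 : acd ≠ bcd) (h3 : abe ≠ abf) (h4 : aef ≠ bef) (h5 : cde ≠ cdf)
    (h6 : cef ≠ dff)
    (m1 : xor (xor abc abe) (xor ace bce) = true) (m2 : xor (xor acd ace) (xor ade cde) = true)
    (m3 : xor (xor ace acf) (xor aef cef) = true) (m4 : xor (xor abd abe) (xor ade bde) = true)
    (m5 : xor (xor abc abf) (xor acf bcf) = true) (m6 : xor (xor ade adf) (xor aef dff) = true)
    (m7 : xor (xor bde bdf) (xor bef dff) = true)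
    (f1 : F5ok abc abd abe acd ace ade bcd bce bde cde = true)
    (f2 : F5ok abc abd abf acd acf adf bcd bcf bdf cdf = true)
    (f3 : F5ok abc abe abf ace acf aef bce bcf bef cef = true)
    (f4' : F5ok abd abe abf ade adf aef bde bdf bef dff = true)
    (f5' : F5ok acd ace acf ade adf aef cde cdf cef dff = true)
    (f6 : F5ok bcd bce bcf bde bdf bef cde cdf cef dff = true) : False := by
  have k1 : ∀ {x y : Bool}, x ≠ y → y = !x := by decide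
  have k2 : ∀ {x y z w : Bool}, xor (xor x y) (xor z w) = true → w = !(xor (xor x y) z) := by decide
  have k3 : ∀ {x y z w : Bool}, xor (xor x y) (xor z w) = true → z = !(xor (xor x y) w) := by decide
  have k4 : ∀ {x y z w : Bool}, xor (xor x y) (xor z w) = true → y = !(xor (xor x z) w) := by decide
  have e1 := k1 h1
  have e2 := k1 h2
  have e3 := k1 h3
  have e4 := k1 h4
  have e5 := k1 h5
  have e6 := k1 h6
  subst e1 e2 e3 e4 e5 e6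
  have e7 := k2 m1
  have e8 := k3 m2
  have e9 := k4 m3
  subst e7 e8 e9
  have e10 := k2 m4
  have e11 := k2 m5
  have e12 := k4 m6
  subst e10 e11 e12
  have e13 := k4 m7
  subst e13
  have := boolF6core abc abe acd cde aef cef ace
  rw [f1, f2, f3, f4', f5', f6] at this
  exact absurd this (by decide)

end Pool.R339.Hull
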