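import Pool.Agent.R339.HullH

namespace Pool.R339.Hull

variable {V : Type*} {p P Q : V → ℝ × ℝ}

lemma three_segments (h : GP p) {a b c d e f : V} (ab : a ≠ b) (ac : a ≠ c) (ad : a ≠ d)
    (ae : a ≠ e) (af : a ≠ f) (bc : b ≠ c) (bd : b ≠ d) (be : b ≠ e) (bf : b ≠ f) (cd : c ≠ d)
    (ce : c ≠ e) (cf : c ≠ f) (de : d ≠ e) (df : d ≠ f) (ef : e ≠ f)
    (x1 : Cr p a b c d) (x2 : Cr p a b e f) (x3 : Cr p c d e f)
    (m1 : nc p a b c e = true) (m2 : nc p a c d e = true) (m3 : nc p a c e f = true)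
    (m4 : nc p a b d e = true) (m5 : nc p a b c f = true) (m6 : nc p a d e f = true)
    (m7 : nc p b d e f = true) : False :=
  boolF6 _ _ _ _ _ _ _ _ _ _ _ _ _ _ _ _ _ _ _ _ x1.1 x1.2 x2.1 x2.2 x3.1 x3.2
    m1 m2 m3 m4 m5 m6 m7
    (f5 h ab ac ad ae bc bd be cd ce de)
    (f5 h ab ac ad af bc bd bf cd cf df)
    (f5 h ab ac ae af bc be bf ce cf ef)
    (f5 h ab ad ae af bd be bf de df ef)
    (f5 h ac ad ae af cd ce cf de df ef)
    (f5 h bc bd be bf cd ce cf de df ef)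

lemma ne_of_ext {x w : V} (h : Ext Q x) (hw : ¬ Ext Q w) : x ≠ w := by
  rintro rfl; exact hw h

lemma tr_of_one {v₁ v₂ v₃ a : V} (h : Tr Q v₁ v₂ v₃) (ea : Ext Q a) : ∃ x y, Tr Q a x y := by
  rcases h.all a ea with r | r | r
  · subst r; exact ⟨_, _, h⟩
  · subst r; exact ⟨_, _, h.swap12⟩
  · subst r; exact ⟨_, _, h.swap23.swap12⟩

lemma tr_of_two {v₁ v₂ v₃ a b : V} (h : Tr Q v₁ v₂ v₃) (ea : Ext Q a) (eb : Ext Q b)
    (hab : a ≠ b) : ∃ y, Tr Q a b y := by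
  obtain ⟨x, y, h'⟩ := tr_of_one h ea
  rcases h'.all b eb with r | r | r
  · exact absurd r.symm hab
  · subst r; exact ⟨_, h'⟩
  · subst r; exact ⟨_, h'.swap23⟩

lemma tr_of_three {v₁ v₂ v₃ a b c : V} (h : Tr Q v₁ v₂ v₃) (ea : Ext Q a) (eb : Ext Q b)
    (ec : Ext Q c) (hab : a ≠ b) (hac : a ≠ c) (hbc : b ≠ c) : Tr Q a b c := by
  obtain ⟨y, h'⟩ := tr_of_two h ea eb hab
  rcases h'.all c ec with r | r | r
  · exact absurd r.symm hac
  · exact absurd r.symm hbc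
  · subst r; exact h'

lemma not_four {v₁ v₂ v₃ a b c d : V} (h : Tr Q v₁ v₂ v₃) (ea : Ext Q a) (eb : Ext Q b)
    (ec : Ext Q c) (ed : Ext Q d) (hab : a ≠ b) (hac : a ≠ c) (had : a ≠ d) (hbc : b ≠ c)
    (hbd : b ≠ d) (hcd : c ≠ d) : False := by
  have h' := tr_of_three h ea eb ec hab hac hbc
  rcases h'.all d ed with r | r | r
  · exact had r.symm
  · exact hbd r.symm
  · exact hcd r.symm

lemma boolQcr : ∀ {T : Bool}, (T = T ∧ T = T) := by decide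

/-- The contradiction for a triangle all of whose quadruples with extreme points change. -/
lemma tr_contra [Fintype V] (hP : GP P) (hQ : GP Q) (hcr : CrLe P Q)
    {c₁ c₂ c₃ w₁ w₂ w₃ : V} (h : Tr Q c₁ c₂ c₃) (ew1 : ¬ Ext Q w₁) (ew2 : ¬ Ext Q w₂)
    (ew3 : ¬ Ext Q w₃) (n12 : w₁ ≠ w₂) (n13 : w₁ ≠ w₃) (n23 : w₂ ≠ w₃) {T : Bool}
    (hT : sg Q w₁ w₂ w₃ = T)
    (a1 : sg Q c₁ w₂ w₃ = !T) (a2 : sg Q c₁ w₃ w₁ = T) (a3 : sg Q c₁ w₁ w₂ = T)
    (b1 : sg Q c₂ w₂ w₃ = T) (b2 : sg Q c₂ w₃ w₁ = !T) (b3 : sg Q c₂ w₁ w₂ = T)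
    (d1 : sg Q c₃ w₂ w₃ = T) (d2 : sg Q c₃ w₃ w₁ = T) (d3 : sg Q c₃ w₁ w₂ = !T)
    (hn : nc P c₃ w₁ w₂ w₃ = true) : False := by
  have m11 := ne_of_ext h.e1 ew1
  have m12 := ne_of_ext h.e1 ew2
  have m13 := ne_of_ext h.e1 ew3
  have m21 := ne_of_ext h.e2 ew1
  have m22 := ne_of_ext h.e2 ew2
  have m23 := ne_of_ext h.e2 ew3
  have m31 := ne_of_ext h.e3 ew1
  have m32 := ne_of_ext h.e3 ew2
  have m33 := ne_of_ext h.e3 ew3
  have hT2 : sg Q w₂ w₃ w₁ = T := by rw [sg_cyc Q w₁ w₂ w₃, hT]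
  have hT3 : sg Q w₃ w₁ w₂ = T := by rw [sg_cyc2 Q w₁ w₂ w₃, hT]
  have r12 := factQ5 hQ h.n12 m11 m12 m13 m21 m22 m23 n12 n13 n23 hT a1 a2 a3 b1 b2 b3
  have r23 := factQ5 hQ h.n23 m22 m23 m21 m32 m33 m31 n23 n12.symm n13.symm hT2 b2 b3 b1 d2 d3 d1
  have r31 := factQ5 hQ h.n13.symm m33 m31 m32 m13 m11 m12 n13.symm n23.symm n12 hT3 d3 d1 d2
    a3 a1 a2
  -- crossings in `Q`
  have Q12 : Cr Q c₁ w₁ c₂ w₂ := by
    rw [cr2_iff hQ h.n12 m11 m12 m21 m22 n12]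
    exact ⟨r12.1.trans a3.symm, r12.2.trans b3.symm⟩
  have Q23 : Cr Q c₂ w₂ c₃ w₃ := by
    rw [cr2_iff hQ h.n23 m22 m23 m32 m33 n23]
    exact ⟨r23.1.trans b1.symm, r23.2.trans d1.symm⟩
  have Q31 : Cr Q c₃ w₃ c₁ w₁ := by
    rw [cr2_iff hQ h.n13.symm m33 m31 m13 m11 n13.symm]
    exact ⟨r31.1.trans d2.symm, r31.2.trans a2.symm⟩
  -- they are convex in `Q`
  have cv : ∀ {x y z w : V}, x ≠ y → x ≠ z → x ≠ w → y ≠ z → y ≠ w → z ≠ w → Cr Q x z y w →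
      nc Q x y z w = false := by
    intro x y z w h1 h2 h3 h4 h5 h6 hx
    rw [cr2_iff hQ h1 h2 h3 h4 h5 h6] at hx
    unfold nc
    rw [hx.1, hx.2]
    generalize sg Q x z w = a; generalize sg Q y z w = b
    clear a1 a2 a3 b1 b2 b3 d1 d2 d3 hT hT2 hT3 r12 r23 r31
    revert a b; decide
  have N12 := cv h.n12 m11 m12 m21 m22 n12 Q12
  have N23 := cv h.n23 m22 m23 m32 m33 n23 Q23
  have N31 := cv h.n13.symm m33 m31 m13 m11 n13.symm Q31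
  -- hence in `P`, of the same type
  have P12 := tr_nc2_eq hP hQ hcr h m11 m21 m31 m12 m22 m32 n12
  have P23 := tr_nc2_eq hP hQ hcr h.swap12.swap23 m22 m32 m12 m23 m33 m13 n23
  have P31 := tr_nc2_eq hP hQ hcr h.swap23.swap12 m33 m13 m23 m31 m11 m21 n13.symm
  have back : ∀ {x y z w : V}, x ≠ y → x ≠ z → x ≠ w → y ≠ z → y ≠ w → z ≠ w →
      nc P x y z w = nc Q x y z w → Cr Q x z y w → Cr P x z y w := by
    intro a b c d hab hac had hbc hbd hcd hnn hc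
    have g1 := hcr a b c d hab hac had hbc hbd hcd
    have g3 := hcr a d b c had hab hac hbd.symm hcd.symm hbc
    rw [cr3_iff hP hab hac had hbc hbd hcd, cr3_iff hQ hab hac had hbc hbd hcd] at g3
    rw [cr2_iff hQ hab hac had hbc hbd hcd] at hc
    rw [cr2_iff hP hab hac had hbc hbd hcd]
    have hf := f4 hP hab hac had hbc hbd hcd
    have hf' := f4 hQ hab hac had hbc hbd hcd
    unfold Cr at g1
    unfold nc at hnn
    revert hc hf hf' g1 g3 hnn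
    generalize sg P a b c = x1; generalize sg P a b d = x2; generalize sg P a c d = x3
    generalize sg P b c d = x4
    generalize sg Q a b c = y1; generalize sg Q a b d = y2; generalize sg Q a c d = y3
    generalize sg Q b c d = y4
    cases x1 <;> cases x2 <;> cases x3 <;> cases x4 <;> cases y1 <;> cases y2 <;> cases y3 <;>
      cases y4 <;> simp [F4ok]
  have C12 := back h.n12 m11 m12 m21 m22 n12 P12 Q12
  have C23 := back h.n23 m22 m23 m32 m33 n23 P23 Q23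
  have C31 := back h.n13.symm m33 m31 m13 m11 n13.symm P31 Q31
  have C13 : Cr P c₁ w₁ c₃ w₃ := by
    have e1 : sg P c₁ w₁ c₃ = sg P c₃ c₁ w₁ := by rw [sg_cyc P c₃ c₁ w₁]
    have e2 : sg P c₁ w₁ w₃ = sg P w₃ c₁ w₁ := by rw [sg_cyc P w₃ c₁ w₁]
    have e3 : sg P c₁ c₃ w₃ = sg P c₃ w₃ c₁ := by rw [← sg_cyc P c₁ c₃ w₃]
    have e4 : sg P w₁ c₃ w₃ = sg P c₃ w₃ w₁ := by rw [← sg_cyc P w₁ c₃ w₃]
    unfold Cr at C31 ⊢
    rw [e1, e2, e3, e4]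
    exact ⟨C31.2, C31.1⟩
  -- statuses of the other quadruples
  have T12 := tr_nc2 hQ h m11 m21 m31 m12 m22 m32 n12
  have T23 := tr_nc2 hQ h m12 m22 m32 m13 m23 m33 n23
  have T13 := tr_nc2 hQ h m11 m21 m31 m13 m23 m33 n13
  have N13' : nc Q c₁ c₃ w₁ w₃ = false := by
    rw [← nc_swap12 hQ h.n13 m11 m13 m31 m33 n13, ← nc_swap34 hQ h.n13.symm m31 m33 m11 m13 n13]
    exact N31
  have le : ∀ {x y z w : V}, x ≠ y → x ≠ z → x ≠ w → y ≠ z → y ≠ w → z ≠ w →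
      nc Q x y z w = true → nc P x y z w = true := by
    intro x y z w h1 h2 h3 h4 h5 h6 hx
    by_contra hc
    have := nc_le hP hQ hcr h1 h2 h3 h4 h5 h6 (by simpa using hc)
    rw [hx] at this
    exact absurd this (by decide)
  have A1 : nc P c₁ c₂ c₃ w₁ = true := le h.n12 h.n13 m11 h.n23 m21 m31 (tr_nc3 hQ h m11 m21 m31)
  have A2 : nc P c₁ c₂ c₃ w₂ = true := le h.n12 h.n13 m12 h.n23 m22 m32 (tr_nc3 hQ h m12 m22 m32)
  have A3 : nc P c₁ c₂ c₃ w₃ = true := le h.n12 h.n13 m13 h.n23 m23 m33 (tr_nc3 hQ h m13 m23 m33)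
  have B4 : nc P c₁ c₃ w₁ w₂ = true := le h.n13 m11 m12 m31 m32 n12 (by
    rcases T12 with t | t | t
    · exact t.2.1
    · rw [N12] at t; exact absurd t.1 (by decide)
    · exact t.2.1)
  have B5 : nc P c₁ c₂ w₁ w₃ = true := le h.n12 m11 m13 m21 m23 n13 (by
    rcases T13 with t | t | t
    · rw [N13'] at t; exact absurd t.2.1 (by decide)
    · exact t.1
    · exact t.1)
  have B6 : nc P c₁ c₃ w₂ w₃ = true := le h.n13 m12 m13 m32 m33 n23 (by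
    rcases T23 with t | t | t
    · exact t.2.1
    · rw [N23] at t; exact absurd t.2.2 (by decide)
    · exact t.2.1)
  refine three_segments hP (a := c₁) (b := w₁) (c := c₂) (d := w₂) (e := c₃) (f := w₃)
    m11 h.n12 m12 h.n13 m13 m21.symm n12 m31.symm n13 m22 h.n23 m23 m32.symm n23 m33
    C12 C13 C23 ?_ ?_ ?_ ?_ ?_ ?_ ?_
  · rw [nc_swap23 hP h.n12 m11 h.n13 m21 h.n23 m31.symm,
      nc_swap34 hP h.n12 h.n13 m11 h.n23 m21 m31]
    exact A1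
  · rw [nc_swap34 hP h.n12 h.n13 m12 h.n23 m22 m32]
    exact A2
  · exact A3
  · rw [nc_swap34 hP m11 h.n13 m12 m31.symm n12 m32, nc_swap23 hP h.n13 m11 m12 m31 m32 n12]
    exact B4
  · rw [nc_swap23 hP h.n12 m11 m13 m21 m23 n13]
    exact B5
  · rw [nc_swap23 hP h.n13 m12 m13 m32 m33 n23]
    exact B6
  · rw [nc_swap23 hP m31.symm n12 n13 m32 m33 n23, nc_swap12 hP m31 m32 m33 n12 n13 n23]
    exact hn

end Pool.R339.Hull
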