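import Pool.Agent.R339.HullI

namespace Pool.R339.Hull

variable {V : Type*} {p P Q : V → ℝ × ℝ}

lemma boolOne : ∀ p q r t : Bool, xor (xor p q) (xor r t) = false → F4ok p q r t = true →
    (p = !t → r = t ∧ (!q) = t) ∧ (r = !t → p = t ∧ (!q) = t) ∧ ((!q) = !t → p = t ∧ r = t) := by
  decide

/-- One extreme point. -/
lemma tr_nc1_eq [Fintype V] (hP : GP P) (hQ : GP Q) (hcr : CrLe P Q) {v₁ v₂ v₃ : V}
    (h : Tr Q v₁ v₂ v₃) {c w₁ w₂ w₃ : V} (ec : Ext Q c) (ew1 : ¬ Ext Q w₁) (ew2 : ¬ Ext Q w₂)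
    (ew3 : ¬ Ext Q w₃) (n12 : w₁ ≠ w₂) (n13 : w₁ ≠ w₃) (n23 : w₂ ≠ w₃) :
    nc P c w₁ w₂ w₃ = nc Q c w₁ w₂ w₃ := by
  by_contra hne
  -- all extreme points change status
  have hall : ∀ u, Ext Q u → nc P u w₁ w₂ w₃ = true ∧ nc Q u w₁ w₂ w₃ = false := by
    have hx : ∀ u, Ext Q u → xor (nc P u w₁ w₂ w₃) (nc Q u w₁ w₂ w₃) = true := by
      intro u eu
      by_cases huc : u = c
      · subst huc
        revert hne
        generalize nc P u w₁ w₂ w₃ = x; generalize nc Q u w₁ w₂ w₃ = y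
        revert x y; decide
      · obtain ⟨y, hy⟩ := tr_of_two h eu ec huc
        rw [tr_nc1_const hP hQ hcr hy (ne_of_ext hy.e1 ew1) (ne_of_ext hy.e2 ew1)
          (ne_of_ext hy.e3 ew1) (ne_of_ext hy.e1 ew2) (ne_of_ext hy.e2 ew2) (ne_of_ext hy.e3 ew2)
          (ne_of_ext hy.e1 ew3) (ne_of_ext hy.e2 ew3) (ne_of_ext hy.e3 ew3) n12 n13 n23]
        revert hne
        generalize nc P c w₁ w₂ w₃ = x; generalize nc Q c w₁ w₂ w₃ = y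
        revert x y; decide
    intro u eu
    have k1 := hx u eu
    have k2 := nc_le hP hQ hcr (ne_of_ext eu ew1) (ne_of_ext eu ew2) (ne_of_ext eu ew3) n12 n13 n23
    revert k1 k2
    generalize nc P u w₁ w₂ w₃ = x; generalize nc Q u w₁ w₂ w₃ = y
    clear hx hne
    revert x y; decide
  -- types of the extreme points
  have types : ∀ u, Ext Q u →
      (sg Q u w₁ w₂ = !(sg Q w₁ w₂ w₃) → sg Q u w₂ w₃ = sg Q w₁ w₂ w₃ ∧
        sg Q u w₃ w₁ = sg Q w₁ w₂ w₃) ∧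
      (sg Q u w₂ w₃ = !(sg Q w₁ w₂ w₃) → sg Q u w₁ w₂ = sg Q w₁ w₂ w₃ ∧
        sg Q u w₃ w₁ = sg Q w₁ w₂ w₃) ∧
      (sg Q u w₃ w₁ = !(sg Q w₁ w₂ w₃) → sg Q u w₁ w₂ = sg Q w₁ w₂ w₃ ∧
        sg Q u w₂ w₃ = sg Q w₁ w₂ w₃) := by
    intro u eu
    have k1 := (hall u eu).2
    have m1 := ne_of_ext eu ew1
    have m2 := ne_of_ext eu ew2
    have m3 := ne_of_ext eu ew3
    have k2 := f4 hQ m1 m2 m3 n12 n13 n23
    have k3 := boolOne _ _ _ _ k1 k2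
    rw [sg_swap23 hQ m1 n13 m3]
    exact k3
  obtain ⟨c₃, E3, a3, b3, k3⟩ := exists_ext_through hQ ew1 n12 (!(sg Q w₁ w₂ w₃))
  obtain ⟨c₁, E1, a1, b1, k1⟩ := exists_ext_through hQ ew2 n23 (!(sg Q w₁ w₂ w₃))
  obtain ⟨c₂, E2, a2, b2, k2⟩ := exists_ext_through hQ ew3 n13.symm (!(sg Q w₁ w₂ w₃))
  rw [sg_cyc Q c₃ w₁ w₂] at k3
  rw [sg_cyc Q c₁ w₂ w₃] at k1
  rw [sg_cyc Q c₂ w₃ w₁] at k2
  have t1 := (types c₁ E1).2.1 k1
  have t2 := (types c₂ E2).2.2 k2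
  have t3 := (types c₃ E3).1 k3
  have bnot : ∀ {x : Bool}, ¬ (x = !x) := by intro x; cases x <;> simp
  have d12 : c₁ ≠ c₂ := by
    rintro rfl
    rw [t1.2] at k2; exact bnot k2
  have d13 : c₁ ≠ c₃ := by
    rintro rfl
    rw [t1.1] at k3; exact bnot k3
  have d23 : c₂ ≠ c₃ := by
    rintro rfl
    rw [t2.1] at k3; exact bnot k3
  have hTr := tr_of_three h E1 E2 E3 d12 d13 d23
  exact tr_contra hP hQ hcr hTr ew1 ew2 ew3 n12 n13 n23 rfl k1 t1.2 t1.1 t2.2 k2 t2.1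
    t3.1 t3.2 k3 (hall c₃ E3).1

/-- No extreme point. -/
lemma tr_nc0_eq [Fintype V] (hP : GP P) (hQ : GP Q) (hcr : CrLe P Q) {v₁ v₂ v₃ : V}
    (h : Tr Q v₁ v₂ v₃) {w₁ w₂ w₃ w₄ : V} (ew1 : ¬ Ext Q w₁) (ew2 : ¬ Ext Q w₂)
    (ew3 : ¬ Ext Q w₃) (ew4 : ¬ Ext Q w₄) (n12 : w₁ ≠ w₂) (n13 : w₁ ≠ w₃) (n14 : w₁ ≠ w₄)
    (n23 : w₂ ≠ w₃) (n24 : w₂ ≠ w₄) (n34 : w₃ ≠ w₄) :
    nc P w₁ w₂ w₃ w₄ = nc Q w₁ w₂ w₃ w₄ := by
  have e1 := tr_nc1_eq hP hQ hcr h h.e1 ew1 ew2 ew3 n12 n13 n23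
  have e2 := tr_nc1_eq hP hQ hcr h h.e1 ew1 ew2 ew4 n12 n14 n24
  have e3 := tr_nc1_eq hP hQ hcr h h.e1 ew1 ew3 ew4 n13 n14 n34
  have e4 := tr_nc1_eq hP hQ hcr h h.e1 ew2 ew3 ew4 n23 n24 n34
  have fP := nc_five P v₁ w₁ w₂ w₃ w₄
  have fQ := nc_five Q v₁ w₁ w₂ w₃ w₄
  rw [e1, e2, e3, e4] at fP
  revert fP fQ
  generalize nc Q v₁ w₁ w₂ w₃ = x1; generalize nc Q v₁ w₁ w₂ w₄ = x2
  generalize nc Q v₁ w₁ w₃ w₄ = x3; generalize nc Q v₁ w₂ w₃ w₄ = x4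
  generalize nc P w₁ w₂ w₃ w₄ = x; generalize nc Q w₁ w₂ w₃ w₄ = y
  clear e1 e2 e3 e4
  revert x1 x2 x3 x4 x y; decide

/-- Two extreme points. -/
lemma tr_nc2_eq' [Fintype V] (hP : GP P) (hQ : GP Q) (hcr : CrLe P Q) {v₁ v₂ v₃ : V}
    (h : Tr Q v₁ v₂ v₃) {a b w w' : V} (ea : Ext Q a) (eb : Ext Q b) (ew : ¬ Ext Q w)
    (ew' : ¬ Ext Q w') (hab : a ≠ b) (hww : w ≠ w') : nc P a b w w' = nc Q a b w w' := by
  obtain ⟨y, hy⟩ := tr_of_two h ea eb hab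
  exact tr_nc2_eq hP hQ hcr hy (ne_of_ext hy.e1 ew) (ne_of_ext hy.e2 ew) (ne_of_ext hy.e3 ew)
    (ne_of_ext hy.e1 ew') (ne_of_ext hy.e2 ew') (ne_of_ext hy.e3 ew') hww

/-- Three extreme points. -/
lemma tr_nc3_eq' [Fintype V] (hP : GP P) (hQ : GP Q) (hcr : CrLe P Q) {v₁ v₂ v₃ : V}
    (h : Tr Q v₁ v₂ v₃) {a b c w : V} (ea : Ext Q a) (eb : Ext Q b) (ec : Ext Q c)
    (ew : ¬ Ext Q w) (hab : a ≠ b) (hac : a ≠ c) (hbc : b ≠ c) : nc P a b c w = nc Q a b c w := by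
  have hy := tr_of_three h ea eb ec hab hac hbc
  have k := tr_nc3 hQ hy (ne_of_ext hy.e1 ew) (ne_of_ext hy.e2 ew) (ne_of_ext hy.e3 ew)
  have l := nc_le hP hQ hcr hab hac (ne_of_ext ea ew) hbc (ne_of_ext eb ew) (ne_of_ext ec ew)
  rw [k] at l ⊢
  by_contra hc
  exact absurd (l (by simpa using hc)) (by decide)

/-- If `Q` has exactly three extreme points then the crossings of `P` and `Q` agree. -/
lemma cr_of_tr [Fintype V] (hP : GP P) (hQ : GP Q) (hcr : CrLe P Q) {v₁ v₂ v₃ : V}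
    (h : Tr Q v₁ v₂ v₃) : CrLe Q P := by
  -- the status equality as a symmetric statement
  have s12 : ∀ {a b c d : V}, a ≠ b → a ≠ c → a ≠ d → b ≠ c → b ≠ d → c ≠ d →
      nc P a b c d = nc Q a b c d → nc P b a c d = nc Q b a c d := by
    intro a b c d h1 h2 h3 h4 h5 h6 he
    rw [nc_swap12 hP h1 h2 h3 h4 h5 h6, nc_swap12 hQ h1 h2 h3 h4 h5 h6, he]
  have s23 : ∀ {a b c d : V}, a ≠ b → a ≠ c → a ≠ d → b ≠ c → b ≠ d → c ≠ d →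
      nc P a b c d = nc Q a b c d → nc P a c b d = nc Q a c b d := by
    intro a b c d h1 h2 h3 h4 h5 h6 he
    rw [nc_swap23 hP h1 h2 h3 h4 h5 h6, nc_swap23 hQ h1 h2 h3 h4 h5 h6, he]
  have s34 : ∀ {a b c d : V}, a ≠ b → a ≠ c → a ≠ d → b ≠ c → b ≠ d → c ≠ d →
      nc P a b c d = nc Q a b c d → nc P a b d c = nc Q a b d c := by
    intro a b c d h1 h2 h3 h4 h5 h6 he
    rw [nc_swap34 hP h1 h2 h3 h4 h5 h6, nc_swap34 hQ h1 h2 h3 h4 h5 h6, he]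
  apply cr_of_nc hP hQ hcr
  intro a b c d ab ac ad bc bd cd
  have ba := ab.symm
  have ca := ac.symm
  have da := ad.symm
  have cb := bc.symm
  have db := bd.symm
  have dc := cd.symm
  by_cases ea : Ext Q a <;> by_cases eb : Ext Q b <;> by_cases ec : Ext Q c <;>
    by_cases ed : Ext Q d
  -- EEEE
  · exact (not_four h ea eb ec ed ab ac ad bc bd cd).elim
  -- EEEN
  · exact tr_nc3_eq' hP hQ hcr h ea eb ec ed ab ac bc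
  -- EENE
  · exact s34 ab ad ac bd bc dc (tr_nc3_eq' hP hQ hcr h ea eb ed ec ab ad bd)
  -- EENN
  · exact tr_nc2_eq' hP hQ hcr h ea eb ec ed ab cd
  -- ENEE
  · exact s23 ac ab ad cb cd bd (s34 ac ad ab cd cb db
      (tr_nc3_eq' hP hQ hcr h ea ec ed eb ac ad cd))
  -- ENEN
  · exact s23 ac ab ad cb cd bd (tr_nc2_eq' hP hQ hcr h ea ec eb ed ac bd)
  -- ENNE
  · exact s34 ab ad ac bd bc dc (s23 ad ab ac db dc bc
      (tr_nc2_eq' hP hQ hcr h ea ed eb ec ad bc))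
  -- ENNN
  · exact tr_nc1_eq hP hQ hcr h ea eb ec ed bc bd cd
  -- NEEE
  · exact s12 ba bc bd ac ad cd (s23 bc ba bd ca cd ad (s34 bc bd ba cd ca da
      (tr_nc3_eq' hP hQ hcr h eb ec ed ea bc bd cd)))
  -- NEEN
  · exact s12 ba bc bd ac ad cd (s23 bc ba bd ca cd ad
      (tr_nc2_eq' hP hQ hcr h eb ec ea ed bc ad))
  -- NENE
  · exact s12 ba bc bd ac ad cd (s34 ba bd bc ad ac dc (s23 bd ba bc da dc ac
      (tr_nc2_eq' hP hQ hcr h eb ed ea ec bd ac)))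
  -- NENN
  · exact s12 ba bc bd ac ad cd (tr_nc1_eq hP hQ hcr h eb ea ec ed ac ad cd)
  -- NNEE
  · exact s23 ac ab ad cb cd bd (s34 ac ad ab cd cb db (s12 ca cd cb ad ab db
      (s23 cd ca cb da db ab (tr_nc2_eq' hP hQ hcr h ec ed ea eb cd ab))))
  -- NNEN
  · exact s23 ac ab ad cb cd bd (s12 ca cb cd ab ad bd
      (tr_nc1_eq hP hQ hcr h ec ea eb ed ab ad bd))
  -- NNNE
  · exact s34 ab ad ac bd bc dc (s23 ad ab ac db dc bc (s12 da db dc ab ac bc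
      (tr_nc1_eq hP hQ hcr h ed ea eb ec ab ac bc)))
  -- NNNN
  · exact tr_nc0_eq hP hQ hcr h ea eb ec ed ab ac ad bc bd cd

end Pool.R339.Hull
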