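import Pool.Agent.R339.HullJ

namespace Pool.R339.Hull

variable {V : Type*} {p P Q : V → ℝ × ℝ}

lemma ext_avoid [Fintype V] (hp : GP p) {a b z : V} (hab : a ≠ b) (haz : a ≠ z) (hbz : b ≠ z) :
    ∃ c, Ext p c ∧ c ≠ a ∧ c ≠ b := by
  cases hs : sg p a b z with
  | true =>
    obtain ⟨c, h1, h2, h3, -⟩ := exists_ext_side hp hs
    exact ⟨c, h1, h2, h3⟩
  | false =>
    have hs' : sg p b a z = true := by rw [sg_swap hp hab hbz haz, hs]; rfl
    obtain ⟨c, h1, h2, h3, -⟩ := exists_ext_side hp hs'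
    exact ⟨c, h1, h3, h2⟩

lemma three_ext [Fintype V] (hp : GP p) {a b z : V} (hab : a ≠ b) (haz : a ≠ z) (hbz : b ≠ z) :
    ∃ c₁ c₂ c₃, Ext p c₁ ∧ Ext p c₂ ∧ Ext p c₃ ∧ c₁ ≠ c₂ ∧ c₁ ≠ c₃ ∧ c₂ ≠ c₃ := by
  obtain ⟨c₁, e1, n1, n2⟩ := ext_avoid hp hab haz hbz
  obtain ⟨c₂, e2, m1, m2⟩ := ext_avoid hp n1.symm hab n2
  obtain ⟨c₃, e3, l1, l2⟩ := ext_avoid hp m2.symm n1 m1
  exact ⟨c₁, c₂, c₃, e1, e2, e3, m2.symm, l1.symm, l2.symm⟩

/-- The combinatorial main theorem. -/
theorem main_comb [Fintype V] (hP : GP P) (hQ : GP Q) (hcr : CrLe P Q) (hnot : ¬ CrLe Q P) :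
    Nat.card {x // Ext P x} < Nat.card {x // Ext Q x} := by
  classical
  by_contra hle
  push Not at hle
  apply hnot
  have hK : Nat.card {x // Ext P x} = (Finset.univ.filter (fun x => Ext P x)).card := by
    rw [Nat.card_eq_fintype_card, Fintype.card_subtype]
  have hC : Nat.card {x // Ext Q x} = (Finset.univ.filter (fun x => Ext Q x)).card := by
    rw [Nat.card_eq_fintype_card, Fintype.card_subtype]
  rw [hK, hC] at hle
  -- there are at least four points
  have hex : ∃ a b c : V, a ≠ b ∧ a ≠ c ∧ b ≠ c := by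
    by_contra hcon
    push Not at hcon
    apply hnot
    intro a b c d hab hac _ hbc
    exact absurd (hcon a b c hab hac) hbc
  obtain ⟨a, b, z, hab, haz, hbz⟩ := hex
  by_cases h4 : 4 ≤ (Finset.univ.filter (fun x => Ext P x)).card
  · have hsub : (Finset.univ.filter (fun x => Ext P x)) ⊆ (Finset.univ.filter (fun x => Ext Q x)) := by
      intro x hx
      have hx' := (Finset.mem_filter.1 hx).2
      have h3 : 2 < ((Finset.univ.filter (fun x => Ext P x)).erase x).card := by
        rw [Finset.card_erase_of_mem hx]; omega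
      obtain ⟨y₁, m1, y₂, m2, y₃, m3, n12, n13, n23⟩ := Finset.two_lt_card.1 h3
      rw [Finset.mem_erase, Finset.mem_filter] at m1 m2 m3
      exact Finset.mem_filter.2 ⟨Finset.mem_univ _, ext_of_four hP hQ hcr m1.1.symm m2.1.symm
        m3.1.symm n12 n23 n13 hx' m1.2.2 m2.2.2 m3.2.2⟩
    have heq := Finset.eq_of_subset_of_card_le hsub hle
    have hE : ∀ x, Ext P x ↔ Ext Q x := by
      intro x
      have : x ∈ Finset.univ.filter (fun x => Ext P x) ↔ x ∈ Finset.univ.filter (fun x => Ext Q x) := by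
        rw [heq]
      simpa using this
    obtain ⟨c₁, c₂, c₃, e1, e2, e3, n12, n13, n23⟩ := three_ext hP hab haz hbz
    exact cr_of_ext_eq hP hQ hcr hE n12 n23 n13 e1 e2 e3
  · obtain ⟨c₁, c₂, c₃, e1, e2, e3, n12, n13, n23⟩ := three_ext hQ hab haz hbz
    have hsub : ({c₁, c₂, c₃} : Finset V) ⊆ Finset.univ.filter (fun x => Ext Q x) := by
      intro x hx
      simp only [Finset.mem_insert, Finset.mem_singleton] at hx
      rw [Finset.mem_filter]
      refine ⟨Finset.mem_univ _, ?_⟩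
      rcases hx with r | r | r
      · rw [r]; exact e1
      · rw [r]; exact e2
      · rw [r]; exact e3
    have hc3 : ({c₁, c₂, c₃} : Finset V).card = 3 := by
      rw [Finset.card_insert_of_notMem, Finset.card_insert_of_notMem, Finset.card_singleton]
      · simpa using n23
      · simp only [Finset.mem_insert, Finset.mem_singleton, not_or]
        exact ⟨n12, n13⟩
    have heq := Finset.eq_of_subset_of_card_le hsub (by rw [hc3]; omega)
    have hTr : Tr Q c₁ c₂ c₃ := ⟨n12, n13, n23, e1, e2, e3, by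
      intro x hx
      have : x ∈ ({c₁, c₂, c₃} : Finset V) := by
        rw [heq]; exact Finset.mem_filter.2 ⟨Finset.mem_univ _, hx⟩
      simpa using this⟩
    exact cr_of_tr hP hQ hcr hTr

end Pool.R339.Hull
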