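import Pool.Agent.R339.HullK

namespace Pool.R339.Hull

variable {V : Type*} {p P Q : V → ℝ × ℝ}

/-- Distinct vertices, no three of them collinear. -/
def GenPos (p : V → ℝ × ℝ) : Prop :=
  Function.Injective p ∧
    ∀ a b c, a ≠ b → b ≠ c → a ≠ c → ¬ Collinear ℝ ({p a, p b, p c} : Set (ℝ × ℝ))

/-- The edges `ab` and `cd` of the complete graph drawn with straight edges on `p` cross: they
are different edges whose segments meet at a point other than a shared endpoint. -/
def Crosses (p : V → ℝ × ℝ) (a b c d : V) : Prop :=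
  a ≠ b ∧ c ≠ d ∧ s(a, b) ≠ s(c, d) ∧
    ∃ x, x ∈ segment ℝ (p a) (p b) ∧ x ∈ segment ℝ (p c) (p d) ∧
      ∀ v, v ∈ s(a, b) → v ∈ s(c, d) → x ≠ p v

/-- The number of vertices of the drawing that are vertices (extreme points) of the convex
hull. -/
noncomputable def hullSize (p : V → ℝ × ℝ) : ℕ :=
  Nat.card {v : V // p v ∈ (convexHull ℝ (Set.range p)).extremePoints ℝ}

/-- A vertex-injective geometric homomorphism between two straight-line drawings of complete
graphs. -/
def IsGeomHom {W : Type*} (p : V → ℝ × ℝ) (q : W → ℝ × ℝ) (f : V → W) : Prop :=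
  (∀ u v, u ≠ v → f u ≠ f v) ∧
    ∀ x y u v, Crosses p x y u v → Crosses q (f x) (f y) (f u) (f v)

/-- A geometric isomorphism between two straight-line drawings of complete graphs. -/
def IsGeomIso {W : Type*} (p : V → ℝ × ℝ) (q : W → ℝ × ℝ) (f : V → W) : Prop :=
  Function.Bijective f ∧ (∀ u v, u ≠ v ↔ f u ≠ f v) ∧
    ∀ x y u v, Crosses p x y u v ↔ Crosses q (f x) (f y) (f u) (f v)

/-- `p ≺ q` in the geometric homomorphism order. -/
def Prec {W : Type*} (p : V → ℝ × ℝ) (q : W → ℝ × ℝ) : Prop :=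
  (∃ f : V → W, IsGeomHom p q f) ∧ ¬ ∃ f : V → W, IsGeomIso p q f

lemma GenPos.gp (h : GenPos p) : GP p := by
  intro a b c hab hbc hac h0
  apply h.2 a b c hab hbc hac
  rw [collinear_iff_of_mem (p₀ := p a) (by simp)]
  refine ⟨p b - p a, ?_⟩
  intro x hx
  simp only [Set.mem_insert_iff, Set.mem_singleton_iff] at hx
  rcases hx with rfl | rfl | rfl
  · exact ⟨0, by simp⟩
  · exact ⟨1, by simp⟩
  · have hne : p b ≠ p a := fun hh => hab (h.1 hh).symm
    by_cases h1 : (p b).1 - (p a).1 = 0
    · have h2 : (p b).2 - (p a).2 ≠ 0 := by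
        intro h2
        apply hne
        exact Prod.ext (by linarith) (by linarith)
      refine ⟨((p c).2 - (p a).2) / ((p b).2 - (p a).2), ?_⟩
      have e : (p c).1 - (p a).1 = 0 := by
        unfold det3 at h0
        rw [h1, zero_mul, zero_sub, neg_eq_zero] at h0
        exact (mul_eq_zero.1 h0).resolve_left h2
      ext
      · simp only [vadd_eq_add, Prod.fst_add, Prod.smul_fst, Prod.fst_sub, smul_eq_mul]
        rw [h1]; linarith
      · simp only [vadd_eq_add, Prod.snd_add, Prod.smul_snd, Prod.snd_sub, smul_eq_mul]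
        field_simp
        ring
    · refine ⟨((p c).1 - (p a).1) / ((p b).1 - (p a).1), ?_⟩
      ext
      · simp only [vadd_eq_add, Prod.fst_add, Prod.smul_fst, Prod.fst_sub, smul_eq_mul]
        field_simp
        ring
      · simp only [vadd_eq_add, Prod.snd_add, Prod.smul_snd, Prod.snd_sub, smul_eq_mul]
        unfold det3 at h0
        field_simp
        linarith

lemma det3_lin (a b c d : ℝ × ℝ) {α β : ℝ} (h : α + β = 1) :
    det3 a b (α • c + β • d) = α * det3 a b c + β * det3 a b d := by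
  have : α = 1 - β := by linarith
  subst this
  unfold det3
  simp only [Prod.fst_add, Prod.smul_fst, Prod.snd_add, Prod.smul_snd, smul_eq_mul]
  ring

lemma shared_point (hp : GP p) {a b d : V} (hab : a ≠ b) (hbd : b ≠ d) (had : a ≠ d)
    {x : ℝ × ℝ} (h1 : x ∈ segment ℝ (p a) (p b)) (h2 : x ∈ segment ℝ (p a) (p d)) : x = p a := by
  obtain ⟨α, β, _, _, hs, hx⟩ := h1
  obtain ⟨α', β', _, _, hs', hx'⟩ := h2
  have k1 : det3 (p a) (p b) x = 0 := by
    rw [← hx, det3_lin _ _ _ _ hs]
    unfold det3; ring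
  have k2 : det3 (p a) (p b) x = β' * det3 (p a) (p b) (p d) := by
    rw [← hx', det3_lin _ _ _ _ hs']
    unfold det3; ring
  have hb : β' = 0 := by
    rw [k1] at k2
    exact (mul_eq_zero.1 k2.symm).resolve_right (hp a b d hab hbd had)
  have ha : α' = 1 := by linarith
  rw [← hx', ha, hb]
  simp

lemma sg_ne_of_mul_neg {a b c d e f : V}
    (h : det3 (p a) (p b) (p c) * det3 (p d) (p e) (p f) < 0) : sg p a b c ≠ sg p d e f := by
  unfold sg
  rcases mul_neg_iff.1 h with ⟨h1, h2⟩ | ⟨h1, h2⟩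
  · rw [decide_eq_true h1, decide_eq_false (not_lt_of_gt h2)]; decide
  · rw [decide_eq_false (not_lt_of_gt h1), decide_eq_true h2]; decide

lemma mul_neg_of_sg_ne (hp : GP p) {a b c d e f : V} (hab : a ≠ b) (hbc : b ≠ c) (hac : a ≠ c)
    (hde : d ≠ e) (hef : e ≠ f) (hdf : d ≠ f) (h : sg p a b c ≠ sg p d e f) :
    det3 (p a) (p b) (p c) * det3 (p d) (p e) (p f) < 0 := by
  cases h1 : sg p a b c <;> cases h2 : sg p d e f
  · rw [h1, h2] at h; exact absurd rfl h
  · exact mul_neg_of_neg_of_pos (sg_false hp hab hbc hac h1) (sg_true h2)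
  · exact mul_neg_of_pos_of_neg (sg_true h1) (sg_false hp hde hef hdf h2)
  · rw [h1, h2] at h; exact absurd rfl h

lemma opp_of_meet {x a b c d : ℝ × ℝ} (h1 : x ∈ segment ℝ a b) (h2 : x ∈ segment ℝ c d)
    (n1 : det3 a b c ≠ 0) (n2 : det3 a b d ≠ 0) : det3 a b c * det3 a b d < 0 := by
  obtain ⟨α, β, _, _, hs, hx⟩ := h1
  obtain ⟨α', β', ha', hb', hs', hx'⟩ := h2
  have k1 : det3 a b x = 0 := by
    rw [← hx, det3_lin _ _ _ _ hs]
    unfold det3; ring
  have k2 : det3 a b x = α' * det3 a b c + β' * det3 a b d := by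
    rw [← hx', det3_lin _ _ _ _ hs']
  rw [k1] at k2
  rcases lt_or_gt_of_ne n1 with g1 | g1 <;> rcases lt_or_gt_of_ne n2 with g2 | g2
  · exfalso
    rcases eq_or_lt_of_le ha' with h | h
    · have : β' = 1 := by linarith
      rw [← h, this] at k2; linarith
    · nlinarith [mul_nonneg hb' (neg_nonneg.2 g2.le), mul_pos h (neg_pos.2 g1)]
  · exact mul_neg_of_neg_of_pos g1 g2
  · exact mul_neg_of_pos_of_neg g1 g2
  · exfalso
    rcases eq_or_lt_of_le ha' with h | h
    · have : β' = 1 := by linarith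
      rw [← h, this] at k2; linarith
    · nlinarith [mul_nonneg hb' g2.le, mul_pos h g1]

lemma meet_of_opp {a b c d : ℝ × ℝ} (h1 : det3 a b c * det3 a b d < 0)
    (h2 : det3 c d a * det3 c d b < 0) : ∃ x, x ∈ segment ℝ a b ∧ x ∈ segment ℝ c d := by
  have hΔ : det3 a b c - det3 a b d ≠ 0 := by
    intro h
    have : det3 a b c = det3 a b d := by linarith
    rw [this] at h1
    nlinarith [mul_self_nonneg (det3 a b d)]
  have hE : det3 c d a - det3 c d b = -(det3 a b c - det3 a b d) := by unfold det3; ring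
  have hΔ' : det3 c d a - det3 c d b ≠ 0 := by
    rw [hE]; exact neg_ne_zero.2 hΔ
  -- weights on `cd`
  have w1 : 0 < det3 a b c / (det3 a b c - det3 a b d) ∧
      0 < -det3 a b d / (det3 a b c - det3 a b d) := by
    rcases mul_neg_iff.1 h1 with ⟨x, y⟩ | ⟨x, y⟩
    · exact ⟨div_pos x (by linarith), div_pos (by linarith) (by linarith)⟩
    · exact ⟨div_pos_of_neg_of_neg x (by linarith),
        div_pos_of_neg_of_neg (by linarith) (by linarith)⟩
  have w2 : 0 < det3 c d a / (det3 c d a - det3 c d b) ∧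
      0 < -det3 c d b / (det3 c d a - det3 c d b) := by
    rcases mul_neg_iff.1 h2 with ⟨x, y⟩ | ⟨x, y⟩
    · exact ⟨div_pos x (by linarith), div_pos (by linarith) (by linarith)⟩
    · exact ⟨div_pos_of_neg_of_neg x (by linarith),
        div_pos_of_neg_of_neg (by linarith) (by linarith)⟩
  refine ⟨(-det3 c d b / (det3 c d a - det3 c d b)) • a +
    (det3 c d a / (det3 c d a - det3 c d b)) • b, ⟨_, _, w2.2.le, w2.1.le, ?_, rfl⟩,
    ⟨-det3 a b d / (det3 a b c - det3 a b d), det3 a b c / (det3 a b c - det3 a b d),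
      w1.2.le, w1.1.le, ?_, ?_⟩⟩
  · field_simp; ring
  · field_simp; ring
  · rw [hE]
    ext
    · simp only [Prod.fst_add, Prod.smul_fst, smul_eq_mul]
      rw [div_neg, div_neg]
      field_simp
      unfold det3
      ring
    · simp only [Prod.snd_add, Prod.smul_snd, smul_eq_mul]
      rw [div_neg, div_neg]
      field_simp
      unfold det3
      ring

lemma crosses_iff (hp : GP p) (a b c d : V) : Crosses p a b c d ↔
    (a ≠ b ∧ a ≠ c ∧ a ≠ d ∧ b ≠ c ∧ b ≠ d ∧ c ≠ d) ∧ Cr p a b c d := by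
  constructor
  · rintro ⟨hab, hcd, hs, x, hx1, hx2, hx3⟩
    have hac : a ≠ c := by
      rintro rfl
      have hbd : b ≠ d := by rintro rfl; exact hs rfl
      exact hx3 a (by simp) (by simp) (shared_point hp hab hbd hcd hx1 hx2)
    have had : a ≠ d := by
      rintro rfl
      have hbc : b ≠ c := by
        rintro rfl; exact hs Sym2.eq_swap
      rw [segment_symm] at hx2
      exact hx3 a (by simp) (by simp) (shared_point hp hab hbc hcd.symm hx1 hx2)
    have hbc : b ≠ c := by
      rintro rfl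
      rw [segment_symm] at hx1
      exact hx3 b (by simp) (by simp) (shared_point hp hab.symm had hcd hx1 hx2)
    have hbd : b ≠ d := by
      rintro rfl
      rw [segment_symm] at hx1 hx2
      exact hx3 b (by simp) (by simp) (shared_point hp hab.symm hac hcd.symm hx1 hx2)
    refine ⟨⟨hab, hac, had, hbc, hbd, hcd⟩, ?_, ?_⟩
    · exact sg_ne_of_mul_neg (opp_of_meet hx1 hx2 (hp a b c hab hbc hac) (hp a b d hab hbd had))
    · have := opp_of_meet hx2 hx1 (hp c d a hcd had.symm hac.symm) (hp c d b hcd hbd.symm hbc.symm)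
      have k := sg_ne_of_mul_neg this
      rwa [sg_cyc p a c d, sg_cyc p b c d] at k
  · rintro ⟨⟨hab, hac, had, hbc, hbd, hcd⟩, h1, h2⟩
    have k1 := mul_neg_of_sg_ne hp hab hbc hac hab hbd had h1
    have h2' : sg p c d a ≠ sg p c d b := by
      rw [sg_cyc p a c d, sg_cyc p b c d]; exact h2
    have k2 := mul_neg_of_sg_ne hp hcd had.symm hac.symm hcd hbd.symm hbc.symm h2'
    obtain ⟨x, hx1, hx2⟩ := meet_of_opp k1 k2
    refine ⟨hab, hcd, ?_, x, hx1, hx2, ?_⟩
    · intro h
      rw [Sym2.eq_iff] at h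
      rcases h with ⟨h, _⟩ | ⟨h, _⟩
      · exact hac h
      · exact had h
    · intro v hv1 hv2
      rw [Sym2.mem_iff] at hv1 hv2
      exfalso
      rcases hv1 with rfl | rfl <;> rcases hv2 with r | r
      · exact hac r
      · exact had r
      · exact hbc r
      · exact hbd r

end Pool.R339.Hull
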