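import Pool.Agent.R339.HullL

namespace Pool.R339.Hull

variable {V : Type*} {p P Q : V → ℝ × ℝ}

lemma sg_eq_of_mul {a b c d e f : V} {t : ℝ} (ht : 0 < t)
    (h : det3 (p a) (p b) (p c) = t * det3 (p d) (p e) (p f)) : sg p a b c = sg p d e f := by
  unfold sg
  rw [h]
  have : (0 < t * det3 (p d) (p e) (p f)) ↔ (0 < det3 (p d) (p e) (p f)) := by
    constructor
    · intro h'
      exact (mul_pos_iff_of_pos_left ht).1 h'
    · intro h'
      exact mul_pos ht h'
  simp only [this]

lemma tri_of_real {x a b c : V} {α β γ : ℝ} (h1 : 0 < α) (h2 : 0 < β) (h3 : 0 < γ)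
    (hs : α + β + γ = 1) (e1 : (p x).1 = α * (p a).1 + β * (p b).1 + γ * (p c).1)
    (e2 : (p x).2 = α * (p a).2 + β * (p b).2 + γ * (p c).2) : Tri p x a b c := by
  have hα : α = 1 - β - γ := by linarith
  subst hα
  refine ⟨sg_eq_of_mul h3 ?_, sg_eq_of_mul h1 ?_, sg_eq_of_mul h2 ?_⟩
  · unfold det3; rw [e1, e2]; ring
  · unfold det3; rw [e1, e2]; ring
  · unfold det3; rw [e1, e2]; ring

/-- A point that is in no open triangle of other points is not in the convex hull of the other
points. -/
lemma not_mem_hull (hp : GP p) (hinj : Function.Injective p) {v : V} (hv : Ext p v) :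
    p v ∉ convexHull ℝ (p '' {v}ᶜ) := by
  intro hmem
  obtain ⟨ι, hfin, z, w, hz, hai, hw, hsum, hx⟩ := eq_pos_convex_span_of_mem_convexHull hmem
  have hcard : Fintype.card ι ≤ 3 := by
    have h1 := hai.card_le_finrank_succ
    have h2 : Module.finrank ℝ (vectorSpan ℝ (Set.range z)) ≤ Module.finrank ℝ (ℝ × ℝ) :=
      Submodule.finrank_le _
    have h3 : Module.finrank ℝ (ℝ × ℝ) = 2 := by simp
    omega
  have hzi : ∀ i, ∃ u, u ≠ v ∧ p u = z i := by
    intro i
    have := hz ⟨i, rfl⟩
    obtain ⟨u, hu, he⟩ := this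
    exact ⟨u, hu, he⟩
  choose u hu huz using hzi
  have huinj : Function.Injective u := by
    intro i j hij
    apply hai.injective
    rw [← huz i, ← huz j, hij]
  obtain ⟨m, hm⟩ : ∃ m, Fintype.card ι = m := ⟨_, rfl⟩
  have e : ι ≃ Fin m := Fintype.equivFinOfCardEq hm
  rw [hm] at hcard
  have hsum' : ∑ i : Fin m, w (e.symm i) = 1 := by
    rw [Equiv.sum_comp e.symm w]; exact hsum
  have hx' : ∑ i : Fin m, w (e.symm i) • p (u (e.symm i)) = p v := by
    rw [Equiv.sum_comp e.symm (fun i => w i • p (u i))]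
    rw [← hx]
    exact Finset.sum_congr rfl (fun i _ => by rw [huz i])
  have hw' : ∀ i : Fin m, 0 < w (e.symm i) := fun i => hw _
  have hu' : ∀ i : Fin m, u (e.symm i) ≠ v := fun i => hu _
  have hui' : ∀ i j : Fin m, i ≠ j → u (e.symm i) ≠ u (e.symm j) := by
    intro i j hij h
    exact hij (e.symm.injective (huinj h))
  interval_cases m
  · simp at hsum'
  · simp only [Fin.sum_univ_one] at hsum' hx'
    rw [hsum', one_smul] at hx'
    exact hu' 0 (hinj hx')
  · simp only [Fin.sum_univ_two] at hsum' hx'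
    have h01 : u (e.symm 0) ≠ u (e.symm 1) := hui' 0 1 (by decide)
    apply hp _ _ v h01 (hu' 1) (hu' 0)
    rw [← hx', det3_lin _ _ _ _ hsum']
    unfold det3; ring
  · simp only [Fin.sum_univ_three] at hsum' hx'
    have h01 : u (e.symm 0) ≠ u (e.symm 1) := hui' 0 1 (by decide)
    have h02 : u (e.symm 0) ≠ u (e.symm 2) := hui' 0 2 (by decide)
    have h12 : u (e.symm 1) ≠ u (e.symm 2) := hui' 1 2 (by decide)
    refine hv _ _ _ (hu' 0).symm (hu' 1).symm (hu' 2).symm h01 h12 h02
      (tri_of_real (hw' 0) (hw' 1) (hw' 2) hsum' ?_ ?_)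
    · rw [← hx']; simp
    · rw [← hx']; simp

lemma ext_iff (hp : GP p) (hinj : Function.Injective p) {v : V} (hex : ∃ w, w ≠ v) :
    p v ∈ (convexHull ℝ (Set.range p)).extremePoints ℝ ↔ Ext p v := by
  constructor
  · intro hmem a b c hva hvb hvc hab hbc hac ht
    rw [mem_extremePoints_iff_left] at hmem
    obtain ⟨α, β, γ, h1, h2, h3, hs, e1, e2⟩ := tri_real hp hva hvb hvc hab hbc hac ht
    have hbc' : 0 < β + γ := by linarith
    have hy : (β / (β + γ)) • p b + (γ / (β + γ)) • p c ∈ convexHull ℝ (Set.range p) := by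
      apply (convex_convexHull ℝ (Set.range p)) (subset_convexHull ℝ _ ⟨b, rfl⟩)
        (subset_convexHull ℝ _ ⟨c, rfl⟩)
      · positivity
      · positivity
      · field_simp
    have ha : p a ∈ convexHull ℝ (Set.range p) := subset_convexHull ℝ _ ⟨a, rfl⟩
    have hseg : p v ∈ openSegment ℝ (p a) ((β / (β + γ)) • p b + (γ / (β + γ)) • p c) := by
      refine ⟨α, β + γ, h1, hbc', by linarith, ?_⟩
      rw [smul_add, smul_smul, smul_smul]
      have k1 : (β + γ) * (β / (β + γ)) = β := by field_simp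
      have k2 : (β + γ) * (γ / (β + γ)) = γ := by field_simp
      rw [k1, k2]
      ext
      · simp only [Prod.fst_add, Prod.smul_fst, smul_eq_mul]; rw [e1]; ring
      · simp only [Prod.snd_add, Prod.smul_snd, smul_eq_mul]; rw [e2]; ring
    have := hmem.2 _ ha _ hy hseg
    exact hva (hinj this).symm
  · intro hv
    have hnot := not_mem_hull hp hinj hv
    rw [mem_extremePoints_iff_left]
    refine ⟨subset_convexHull ℝ _ ⟨v, rfl⟩, ?_⟩
    intro x₁ hx₁ x₂ hx₂ hseg
    have hne : (p '' ({v}ᶜ : Set V)).Nonempty := by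
      obtain ⟨w, hw⟩ := hex
      exact ⟨p w, w, hw, rfl⟩
    have hrange : Set.range p = insert (p v) (p '' ({v}ᶜ : Set V)) := by
      ext y
      constructor
      · rintro ⟨w, rfl⟩
        by_cases hw : w = v
        · left; rw [hw]
        · right; exact ⟨w, hw, rfl⟩
      · rintro (rfl | ⟨w, _, rfl⟩)
        · exact ⟨v, rfl⟩
        · exact ⟨w, rfl⟩
    rw [hrange, convexHull_insert hne, mem_convexJoin] at hx₁ hx₂
    obtain ⟨a₁, ha₁, y₁, hy₁, hs₁⟩ := hx₁
    obtain ⟨a₂, ha₂, y₂, hy₂, hs₂⟩ := hx₂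
    rw [Set.mem_singleton_iff] at ha₁ ha₂
    subst ha₁ ha₂
    obtain ⟨s₁, t₁, hs1, ht1, hst1, rfl⟩ := hs₁
    obtain ⟨s₂, t₂, hs2, ht2, hst2, rfl⟩ := hs₂
    obtain ⟨l, m, hl, hm, hlm, hsum⟩ := hseg
    by_contra hne'
    have ht1' : 0 < t₁ := by
      rcases eq_or_lt_of_le ht1 with h | h
      · exfalso
        apply hne'
        have : s₁ = 1 := by linarith
        rw [← h, this]; simp
      · exact h
    have hpos : 0 < l * t₁ + m * t₂ := by
      have := mul_pos hl ht1'
      have := mul_nonneg hm.le ht2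
      linarith
    apply hnot
    have hv' : p v = ((l * t₁) / (l * t₁ + m * t₂)) • y₁ + ((m * t₂) / (l * t₁ + m * t₂)) • y₂ := by
      have e1 : s₁ = 1 - t₁ := by linarith
      have e2 : s₂ = 1 - t₂ := by linarith
      have e3 : l = 1 - m := by linarith
      have k : (l * t₁ + m * t₂) • p v = (l * t₁) • y₁ + (m * t₂) • y₂ := by
        have h' : (l * t₁ + m * t₂) • p v - ((l * t₁) • y₁ + (m * t₂) • y₂)
            = p v - (l • (s₁ • p v + t₁ • y₁) + m • (s₂ • p v + t₂ • y₂)) := by
          rw [e1, e2, e3]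
          ext
          · simp only [Prod.fst_add, Prod.smul_fst, Prod.fst_sub, smul_eq_mul]; ring
          · simp only [Prod.snd_add, Prod.smul_snd, Prod.snd_sub, smul_eq_mul]; ring
        rw [hsum, sub_self] at h'
        exact sub_eq_zero.1 h'
      have : p v = (l * t₁ + m * t₂)⁻¹ • ((l * t₁ + m * t₂) • p v) := by
        rw [smul_smul, inv_mul_cancel₀ hpos.ne', one_smul]
      rw [this, k, smul_add, smul_smul, smul_smul, div_eq_inv_mul, div_eq_inv_mul]
    rw [hv']
    apply (convex_convexHull ℝ _) hy₁ hy₂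
    · have := mul_pos hl ht1'; positivity
    · have := mul_nonneg hm.le ht2; positivity
    · field_simp

/-- **Main theorem**: along the geometric homomorphism order of `K_n` the number of vertices on
the convex hull strictly increases. -/
theorem hullSize_lt {n : ℕ} {p q : Fin n → ℝ × ℝ} (hp : GenPos p) (hq : GenPos q)
    (h : Prec p q) : hullSize p < hullSize q := by
  obtain ⟨⟨f, hf1, hf2⟩, hiso⟩ := h
  have finj : Function.Injective f := by
    intro a b hab
    by_contra hne
    exact hf1 a b hne hab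
  have fbij : Function.Bijective f := Finite.injective_iff_bijective.1 finj
  have hpg := hp.gp
  have hqg := hq.gp
  have hqf : GP (q ∘ f) := by
    intro a b c hab hbc hac
    exact hqg _ _ _ (finj.ne hab) (finj.ne hbc) (finj.ne hac)
  have hqinj : Function.Injective (q ∘ f) := hq.1.comp finj
  -- crossings
  have cq : ∀ a b c d, Crosses q (f a) (f b) (f c) (f d) ↔
      (a ≠ b ∧ a ≠ c ∧ a ≠ d ∧ b ≠ c ∧ b ≠ d ∧ c ≠ d) ∧ Cr (q ∘ f) a b c d := by
    intro a b c d
    rw [crosses_iff hqg]
    simp only [ne_eq, finj.eq_iff]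
    rfl
  have hcr : CrLe p (q ∘ f) := by
    intro a b c d h1 h2 h3 h4 h5 h6 hc
    have := hf2 a b c d ((crosses_iff hpg a b c d).2 ⟨⟨h1, h2, h3, h4, h5, h6⟩, hc⟩)
    exact ((cq a b c d).1 this).2
  have hnot : ¬ CrLe (q ∘ f) p := by
    intro hle
    apply hiso
    refine ⟨f, fbij, ?_, ?_⟩
    · intro u v
      exact (finj.ne_iff).symm
    · intro x y u v
      constructor
      · exact hf2 x y u v
      · intro hc
        obtain ⟨⟨h1, h2, h3, h4, h5, h6⟩, hc'⟩ := (cq x y u v).1 hc
        exact (crosses_iff hpg x y u v).2 ⟨⟨h1, h2, h3, h4, h5, h6⟩,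
          hle x y u v h1 h2 h3 h4 h5 h6 hc'⟩
  have main := main_comb hpg hqf hcr hnot
  -- there are at least two points
  have hex : ∀ v : Fin n, ∃ w, w ≠ v := by
    intro v
    by_contra hcon
    push Not at hcon
    apply hnot
    intro a b c d hab
    exact absurd ((hcon a).trans (hcon b).symm) hab
  have e1 : hullSize p = Nat.card {x // Ext p x} := by
    unfold hullSize
    exact Nat.card_congr (Equiv.subtypeEquivRight fun v => ext_iff hpg hp.1 (hex v))
  have e2 : hullSize q = Nat.card {x // Ext (q ∘ f) x} := by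
    have hr : Set.range (q ∘ f) = Set.range q := fbij.surjective.range_comp q
    have : hullSize (q ∘ f) = Nat.card {x // Ext (q ∘ f) x} := by
      unfold hullSize
      exact Nat.card_congr (Equiv.subtypeEquivRight fun v => ext_iff hqf hqinj (hex v))
    rw [← this]
    unfold hullSize
    rw [hr]
    exact (Nat.card_congr ((Equiv.ofBijective f fbij).subtypeEquiv (fun v => Iff.rfl))).symm
  rw [e1, e2]
  exact main

end Pool.R339.Hull
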