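import Pool.Agent.R755.KF.Defs
import Pool.Agent.H888R2.KT.N0
import Pool.Agent.H888R2.KT.N6a
import Pool.Agent.H888R2.KT.N7

/-!
# Elementary properties of Gaussian averages (helpers for KF, G5 and P3)
-/

set_option autoImplicit false

namespace Pool.Agent.R339.KFaux

open MeasureTheory Set Filter Topology
open scoped ENNReal InnerProductSpace
open Pool.Agent.H888R2.KT (gs gc gc_pos gs_deriv)
open Pool.Agent.R754.KG (E)
open Pool.Agent.R755.KF (BL pd)

variable {k : ℕ}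

/-- bounded continuous functions -/
structure BC (B : ℝ) (f : E k → ℝ) : Prop where
  c : Continuous f
  b : ∀ y, |f y| ≤ B

theorem BC.nonneg {B : ℝ} {f : E k → ℝ} (hf : BC B f) : 0 ≤ B := (abs_nonneg _).trans (hf.b 0)

theorem BC.add {B B' : ℝ} {f f' : E k → ℝ} (hf : BC B f) (hf' : BC B' f') :
    BC (B + B') (fun y => f y + f' y) :=
  ⟨hf.c.add hf'.c, fun y => (abs_add_le _ _).trans (add_le_add (hf.b y) (hf'.b y))⟩

theorem BC.const_mul {B : ℝ} {f : E k → ℝ} (hf : BC B f) (c : ℝ) :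
    BC (|c| * B) (fun y => c * f y) :=
  ⟨continuous_const.mul hf.c, fun y => by
    rw [abs_mul]
    exact mul_le_mul_of_nonneg_left (hf.b y) (abs_nonneg c)⟩

theorem BC.sq {B : ℝ} {f : E k → ℝ} (hf : BC B f) : BC (B ^ 2) (fun y => f y ^ 2) :=
  ⟨hf.c.pow 2, fun y => by
    rw [abs_pow]
    exact pow_le_pow_left₀ (abs_nonneg _) (hf.b y) 2⟩

theorem BC.sum {ι : Type} (s : Finset ι) {B : ι → ℝ} {f : ι → E k → ℝ}
    (hf : ∀ i ∈ s, BC (B i) (f i)) : BC (∑ i ∈ s, B i) (fun y => ∑ i ∈ s, f i y) :=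
  ⟨continuous_finset_sum _ fun i hi => (hf i hi).c, fun y =>
    (Finset.abs_sum_le_sum_abs _ _).trans (Finset.sum_le_sum fun i hi => (hf i hi).b y)⟩

theorem BC.int {B : ℝ} {f : E k → ℝ} (hf : BC B f) {h : ℝ} (hh : 0 < h) (x : E k) :
    Integrable (fun y => f y * Real.exp (-(‖x - y‖ ^ 2 / (2 * h)))) := by
  obtain ⟨-, -, hg2, -⟩ := gc_pos (κ := Fin k) h hh
  have hc := hf.c
  have hcc : Continuous (fun y : E k => f y * Real.exp (-(‖x - y‖ ^ 2 / (2 * h)))) := by fun_prop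
  refine ((hg2 x).const_mul B).mono' hcc.aestronglyMeasurable
    (Filter.Eventually.of_forall fun y => ?_)
  rw [norm_mul, Real.norm_eq_abs, Real.norm_eq_abs, abs_of_pos (Real.exp_pos _)]
  exact mul_le_mul_of_nonneg_right (hf.b _) (Real.exp_pos _).le

theorem gs_add {B B' : ℝ} {f f' : E k → ℝ} (hf : BC B f) (hf' : BC B' f') {h : ℝ} (hh : 0 < h)
    (x : E k) : gs h (fun y => f y + f' y) x = gs h f x + gs h f' x := by
  unfold gs
  rw [← add_div, ← integral_add (hf.int hh x) (hf'.int hh x)]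
  congr 1
  refine integral_congr_ae (Filter.Eventually.of_forall fun y => ?_)
  simp only
  ring

theorem gs_const_mul (f : E k → ℝ) (c h : ℝ) (x : E k) :
    gs h (fun y => c * f y) x = c * gs h f x := by
  unfold gs
  rw [← mul_div_assoc, ← integral_const_mul]
  congr 1
  refine integral_congr_ae (Filter.Eventually.of_forall fun y => ?_)
  simp only
  ring

theorem gs_sum {ι : Type} (s : Finset ι) {B : ι → ℝ} {f : ι → E k → ℝ}
    (hf : ∀ i ∈ s, BC (B i) (f i)) {h : ℝ} (hh : 0 < h) (x : E k) :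
    gs h (fun y => ∑ i ∈ s, f i y) x = ∑ i ∈ s, gs h (f i) x := by
  unfold gs
  rw [← Finset.sum_div, ← integral_finset_sum _ fun i hi => (hf i hi).int hh x]
  congr 1
  refine integral_congr_ae (Filter.Eventually.of_forall fun y => ?_)
  simp only
  rw [Finset.sum_mul]

theorem gs_mono {B B' : ℝ} {f f' : E k → ℝ} (hf : BC B f) (hf' : BC B' f')
    (hle : ∀ y, f y ≤ f' y) {h : ℝ} (hh : 0 < h) (x : E k) : gs h f x ≤ gs h f' x := by
  obtain ⟨hg0, -, -, -⟩ := gc_pos (κ := Fin k) h hh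
  unfold gs
  refine div_le_div_of_nonneg_right ?_ hg0.le
  exact integral_mono (hf.int hh x) (hf'.int hh x) fun y =>
    mul_le_mul_of_nonneg_right (hle y) (Real.exp_pos _).le

theorem gs_one {h : ℝ} (hh : 0 < h) (c : ℝ) (x : E k) : gs h (fun _ => c) x = c := by
  obtain ⟨hg0, hg1, -, -⟩ := gc_pos (κ := Fin k) h hh
  unfold gs
  rw [integral_const_mul, hg1, mul_div_cancel_right₀ _ hg0.ne']

theorem bc_const (c : ℝ) : BC (k := k) |c| (fun _ => c) := ⟨continuous_const, fun _ => le_rfl⟩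

theorem gs_bc {B : ℝ} {f : E k → ℝ} (hf : BC B f) {h : ℝ} (hh : 0 < h) : BC B (gs h f) := by
  refine ⟨Pool.Agent.H888R2.KT.N7x.cont_gs h hh f hf.c B hf.b, fun x => ?_⟩
  rw [abs_le]
  constructor
  · have h1 := gs_mono (bc_const (-B)) hf (fun y => (abs_le.1 (hf.b y)).1) hh x
    rwa [gs_one hh] at h1
  · have h1 := gs_mono hf (bc_const B) (fun y => (abs_le.1 (hf.b y)).2) hh x
    rwa [gs_one hh] at h1

/-- the norm of a functional in coordinates -/
theorem norm_sq_functional (L : E k →L[ℝ] ℝ) :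
    ‖L‖ ^ 2 = ∑ j, L (EuclideanSpace.single j 1) ^ 2 := by
  set v := (InnerProductSpace.toDual ℝ (E k)).symm L with hv
  have h1 : ‖L‖ = ‖v‖ := by rw [hv, LinearIsometryEquiv.norm_map]
  rw [h1, EuclideanSpace.norm_sq_eq]
  refine Finset.sum_congr rfl fun j _ => ?_
  have h2 : L (EuclideanSpace.single j 1) = v j := by
    rw [← InnerProductSpace.toDual_symm_apply (𝕜 := ℝ) (x := EuclideanSpace.single j 1) (y := L)]
    rw [← hv, EuclideanSpace.inner_single_right]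
    simp
  rw [h2, Real.norm_eq_abs, sq_abs]

theorem norm_sq_pd (f : E k → ℝ) (y : E k) : ‖fderiv ℝ f y‖ ^ 2 = ∑ j, pd f j y ^ 2 :=
  norm_sq_functional _

theorem pd_bc {B : ℝ} {f : E k → ℝ} (hf : BL B f) (j : Fin k) : BC B (pd f j) := by
  refine ⟨(hf.c1.continuous_fderiv (by norm_num)).clm_apply continuous_const, fun y => ?_⟩
  have h1 := (fderiv ℝ f y).le_opNorm (EuclideanSpace.single j 1)
  rw [EuclideanSpace.norm_single, norm_one, mul_one, Real.norm_eq_abs] at h1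
  exact h1.trans (hf.gd y)

theorem bl_bc {B : ℝ} {f : E k → ℝ} (hf : BL B f) : BC B f := ⟨hf.c1.continuous, hf.bd⟩

theorem gd_bc {B : ℝ} {f : E k → ℝ} (hf : BL B f) : BC (B ^ 2) (fun y => ‖fderiv ℝ f y‖ ^ 2) := by
  refine ⟨(hf.c1.continuous_fderiv (by norm_num)).norm.pow 2, fun y => ?_⟩
  rw [abs_of_nonneg (by positivity)]
  exact pow_le_pow_left₀ (norm_nonneg _) (hf.gd y) 2

theorem pd_gs {B : ℝ} {f : E k → ℝ} (hf : BL B f) {h : ℝ} (hh : 0 < h) (j : Fin k) (x : E k) :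
    pd (gs h f) j x = gs h (pd f j) x :=
  (gs_deriv h hh f hf.c1 B hf.bd hf.gd).2 x _

theorem gs_fderiv {B : ℝ} {f : E k → ℝ} (hf : BL B f) {h : ℝ} (hh : 0 < h) (x w : E k) :
    fderiv ℝ (gs h f) x w = gs h (fun y => fderiv ℝ f y w) x :=
  (gs_deriv h hh f hf.c1 B hf.bd hf.gd).2 x w

theorem gs_bl {B : ℝ} {f : E k → ℝ} (hf : BL B f) {h : ℝ} (hh : 0 < h) : BL B (gs h f) := by
  refine ⟨(gs_deriv h hh f hf.c1 B hf.bd hf.gd).1, (gs_bc (bl_bc hf) hh).b, fun x => ?_⟩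
  refine ContinuousLinearMap.opNorm_le_bound _ (bl_bc hf).nonneg fun w => ?_
  rw [gs_fderiv hf hh, Real.norm_eq_abs]
  have h1 : BC (B * ‖w‖) (fun y => fderiv ℝ f y w) := by
    refine ⟨(hf.c1.continuous_fderiv (by norm_num)).clm_apply continuous_const, fun y => ?_⟩
    have h2 := (fderiv ℝ f y).le_opNorm w
    rw [Real.norm_eq_abs] at h2
    exact h2.trans (mul_le_mul_of_nonneg_right (hf.gd y) (norm_nonneg _))
  exact (gs_bc h1 hh).b x

end Pool.Agent.R339.KFaux
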