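import Mathlib

namespace Pool.R339.RC

/-- `Δ_d = {0, e_1, …, e_d} ⊆ ℤ^d`. -/
def simplexVertices (d : ℕ) : Set (Fin d → ℤ) :=
  {x | x = 0 ∨ ∃ j : Fin d, x = Pi.single j 1}

/-- `X ⊆ ℤ^d` has an `F`-relaxation `{x ∈ ℝ^d : A x ≤ b}` given by `n` linear inequalities
with all coefficients in `F`. -/
def HasRelaxation (F : Subfield ℝ) {d : ℕ} (X : Set (Fin d → ℤ)) (n : ℕ) : Prop :=
  ∃ (A : Matrix (Fin n) (Fin d) ℝ) (b : Fin n → ℝ),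
    (∀ i j, A i j ∈ F) ∧ (∀ i, b i ∈ F) ∧
    ∀ x : Fin d → ℤ, (∀ i, (A.mulVec (fun j => (x j : ℝ))) i ≤ b i) ↔ x ∈ X

/-- If `t` is irrational and `a t + b/10 = 0` with `a, b` integers then `a = b = 0`. -/
lemma irr_rel {t : ℝ} (ht : Irrational t) (a b : ℤ)
    (h : t * (a : ℝ) + (1/10 : ℝ) * (b : ℝ) = 0) : a = 0 ∧ b = 0 := by
  have ha : a = 0 := by
    by_contra hne
    apply ht
    refine ⟨-(b : ℚ) / (10 * (a : ℚ)), ?_⟩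
    have haR : (a : ℝ) ≠ 0 := by exact_mod_cast hne
    push_cast
    field_simp
    linarith
  subst ha
  refine ⟨rfl, ?_⟩
  have : (b : ℝ) = 0 := by
    push_cast at h
    linarith
  exact_mod_cast this

lemma y3_lo {t y1 y2 l : ℝ} (y3 : ℤ) (h0 : 0 < t) (h1 : t < 1/10)
    (c0 : 0 ≤ l)
    (c2 : l ≤ 2 - y1 - 2*y2 + (3+1/10+t)*(y3:ℝ))
    (c3 : l ≤ 2*y1 + y2 + (1+t)*(y3:ℝ))
    (c4 : l ≤ 1 - y1 + y2 + (2+1/10)*(y3:ℝ)) : 0 ≤ y3 := by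
  by_contra hlt
  have : y3 ≤ -1 := by omega
  have hR : (y3 : ℝ) ≤ -1 := by exact_mod_cast this
  have m : t * (y3:ℝ) ≤ 0 := by nlinarith
  linarith

lemma y3_hi {t y1 y2 l : ℝ} (y3 : ℤ) (h0 : 0 < t) (h1 : t < 1/10)
    (c1 : 4*(y3:ℝ) - 2 + (1/10)*y1 + t*y2 ≤ l)
    (c2 : l ≤ 2 - y1 - 2*y2 + (3+1/10+t)*(y3:ℝ))
    (c3 : l ≤ 2*y1 + y2 + (1+t)*(y3:ℝ))
    (c4 : l ≤ 1 - y1 + y2 + (2+1/10)*(y3:ℝ)) : y3 ≤ 1 := by
  by_contra hlt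
  have : 2 ≤ y3 := by omega
  have hR : (2 : ℝ) ≤ (y3 : ℝ) := by exact_mod_cast this
  have m1 := mul_nonneg (show (0:ℝ) ≤ 1 - t by linarith) (sub_nonneg.2 c2)
  have m2 := mul_nonneg (show (0:ℝ) ≤ 1 - 1/10 + t by linarith) (sub_nonneg.2 c4)
  have m3 : (0:ℝ) ≤ 9 - t - 1/10 + (y3:ℝ) * (-6 + 1/10 + t + 1/10 * t - t^2 - 1/100) := by
    linear_combination m1 + m2 + (1+1/10) * c3 + 3 * c1
  have m4 : -6 + 1/10 + t + 1/10 * t - t^2 - 1/100 ≤ (-5 : ℝ) := by nlinarith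
  nlinarith

lemma layer0 {t l : ℝ} (y1 y2 : ℤ)
    (c0 : 0 ≤ l)
    (c2 : l ≤ 2 - (y1:ℝ) - 2*(y2:ℝ) + (3+1/10+t)*0)
    (c3 : l ≤ 2*(y1:ℝ) + (y2:ℝ) + (1+t)*0)
    (c4 : l ≤ 1 - (y1:ℝ) + (y2:ℝ) + (2+1/10)*0) :
    l = 0 ∧ ((y1 = 0 ∧ y2 = 0) ∨ (y1 = 1 ∧ y2 = 0) ∨ (y1 = 0 ∧ y2 = 1)) := by
  have i1 : y1 + 2 * y2 ≤ 2 := by
    have : (y1:ℝ) + 2 * y2 ≤ 2 := by linarith
    exact_mod_cast this
  have i2 : 0 ≤ 2 * y1 + y2 := by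
    have : (0:ℝ) ≤ 2 * y1 + y2 := by linarith
    exact_mod_cast this
  have i3 : y1 - y2 ≤ 1 := by
    have : (y1:ℝ) - y2 ≤ 1 := by linarith
    exact_mod_cast this
  have hpts : (y1 = 0 ∧ y2 = 0) ∨ (y1 = 1 ∧ y2 = 0) ∨ (y1 = 0 ∧ y2 = 1) := by omega
  refine ⟨?_, hpts⟩
  rcases hpts with ⟨a, b⟩ | ⟨a, b⟩ | ⟨a, b⟩ <;> subst a <;> subst b <;>
    norm_num at c2 c3 c4 <;> linarith

lemma layer1 {t l : ℝ} (y1 y2 : ℤ) (h0 : 0 < t) (h1 : t < 1/10)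
    (c1 : 4*1 - 2 + (1/10)*(y1:ℝ) + t*(y2:ℝ) ≤ l)
    (c2 : l ≤ 2 - (y1:ℝ) - 2*(y2:ℝ) + (3+1/10+t)*1)
    (c3 : l ≤ 2*(y1:ℝ) + (y2:ℝ) + (1+t)*1)
    (c4 : l ≤ 1 - (y1:ℝ) + (y2:ℝ) + (2+1/10)*1) :
    (y1 = 1 ∧ y2 = 0 ∧ l = 2 + 1/10) ∨ (y1 = 0 ∧ y2 = 1 ∧ l = 2 + t) ∨
      (y1 = 1 ∧ y2 = 1 ∧ l = 2 + 1/10 + t) := by
  have hy2lo : 0 ≤ y2 := by
    by_contra hlt
    have h : y2 ≤ -1 := by omega
    have hR : (y2 : ℝ) ≤ -1 := by exact_mod_cast h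
    have hz : (1/10) * (y2 : ℝ) ≤ t * y2 := by nlinarith
    have g1 : (0:ℝ) < y1 := by linarith
    have g2 : (y1:ℝ) < 1 := by linarith
    have g1' : 0 < y1 := by exact_mod_cast g1
    have g2' : y1 < 1 := by exact_mod_cast g2
    omega
  have hR0 : (0:ℝ) ≤ y2 := by exact_mod_cast hy2lo
  have hz : 0 ≤ t * (y2:ℝ) := by positivity
  have hy2hi : y2 ≤ 1 := by
    by_contra hlt
    have h : 2 ≤ y2 := by omega
    have hR : (2:ℝ) ≤ y2 := by exact_mod_cast h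
    linarith
  have hR1 : (y2:ℝ) ≤ 1 := by exact_mod_cast hy2hi
  have hy1lo : 0 ≤ y1 := by
    have : (-1:ℝ) < y1 := by linarith
    have : -1 < y1 := by exact_mod_cast this
    omega
  have hy1hi : y1 ≤ 1 := by
    have : (y1:ℝ) < 2 := by linarith
    have : y1 < 2 := by exact_mod_cast this
    omega
  have hpts : (y1 = 0 ∧ y2 = 0) ∨ (y1 = 1 ∧ y2 = 0) ∨ (y1 = 0 ∧ y2 = 1) ∨ (y1 = 1 ∧ y2 = 1) := by
    omega
  rcases hpts with ⟨a, b⟩ | ⟨a, b⟩ | ⟨a, b⟩ | ⟨a, b⟩ <;> subst a <;> subst b <;>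
      norm_num at c1 c2 c3 c4
  · exfalso; linarith
  · left; exact ⟨rfl, rfl, by linarith⟩
  · right; left; exact ⟨rfl, rfl, by linarith⟩
  · right; right; exact ⟨rfl, rfl, by linarith⟩

/-- The key lemma, in coordinates. -/
lemma key {t : ℝ} (ht : Irrational t) (h0 : 0 < t) (h1 : t < 1/10)
    (x0 x1 x2 x3 x4 : ℤ)
    (r0 : -(2+t)*(x2:ℝ) + -(2+1/10)*(x3:ℝ) + -(2+1/10+t)*(x4:ℝ) ≤ 0)
    (r1 : (1/10)*(x0:ℝ) + t*(x1:ℝ) + 2*(x2:ℝ) + 2*(x3:ℝ) + 2*(x4:ℝ) ≤ 2)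
    (r2 : (x0:ℝ) + 2*(x1:ℝ) + (1-1/10)*(x2:ℝ) + (-t)*(x3:ℝ) + 2*(x4:ℝ) ≤ 2)
    (r3 : (-2)*(x0:ℝ) + (-1)*(x1:ℝ) + (1/10-1-t)*(x3:ℝ) + (1/10-2)*(x4:ℝ) ≤ 0)
    (r4 : (x0:ℝ) + (-1)*(x1:ℝ) + (t-1-1/10)*(x2:ℝ) + (x3:ℝ) + t*(x4:ℝ) ≤ 1) :
    (x0 = 0 ∧ x1 = 0 ∧ x2 = 0 ∧ x3 = 0 ∧ x4 = 0) ∨
    (x0 = 1 ∧ x1 = 0 ∧ x2 = 0 ∧ x3 = 0 ∧ x4 = 0) ∨
    (x0 = 0 ∧ x1 = 1 ∧ x2 = 0 ∧ x3 = 0 ∧ x4 = 0) ∨
    (x0 = 0 ∧ x1 = 0 ∧ x2 = 1 ∧ x3 = 0 ∧ x4 = 0) ∨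
    (x0 = 0 ∧ x1 = 0 ∧ x2 = 0 ∧ x3 = 1 ∧ x4 = 0) ∨
    (x0 = 0 ∧ x1 = 0 ∧ x2 = 0 ∧ x3 = 0 ∧ x4 = 1) := by
  have hl : (2+t)*(x2:ℝ) + (2+1/10)*(x3:ℝ) + (2+1/10+t)*(x4:ℝ)
      = 2 * ((x2 + x3 + x4 : ℤ) : ℝ) + t * ((x2 + x4 : ℤ) : ℝ) + (1/10) * ((x3 + x4 : ℤ) : ℝ) := by
    push_cast; ring
  have c0 : 0 ≤ (2+t)*(x2:ℝ) + (2+1/10)*(x3:ℝ) + (2+1/10+t)*(x4:ℝ) := by linarith
  have c1 : 4*((x2 + x3 + x4 : ℤ):ℝ) - 2 + (1/10)*((x0 + x3 + x4 : ℤ):ℝ) + t*((x1 + x2 + x4 : ℤ):ℝ)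
      ≤ (2+t)*(x2:ℝ) + (2+1/10)*(x3:ℝ) + (2+1/10+t)*(x4:ℝ) := by
    push_cast; linarith
  have c2 : (2+t)*(x2:ℝ) + (2+1/10)*(x3:ℝ) + (2+1/10+t)*(x4:ℝ) ≤
      2 - ((x0 + x3 + x4 : ℤ):ℝ) - 2*((x1 + x2 + x4 : ℤ):ℝ)
        + (3+1/10+t)*((x2 + x3 + x4 : ℤ):ℝ) := by
    push_cast; linarith
  have c3 : (2+t)*(x2:ℝ) + (2+1/10)*(x3:ℝ) + (2+1/10+t)*(x4:ℝ) ≤
      2*((x0 + x3 + x4 : ℤ):ℝ) + ((x1 + x2 + x4 : ℤ):ℝ) + (1+t)*((x2 + x3 + x4 : ℤ):ℝ) := by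
    push_cast; linarith
  have c4 : (2+t)*(x2:ℝ) + (2+1/10)*(x3:ℝ) + (2+1/10+t)*(x4:ℝ) ≤
      1 - ((x0 + x3 + x4 : ℤ):ℝ) + ((x1 + x2 + x4 : ℤ):ℝ) + (2+1/10)*((x2 + x3 + x4 : ℤ):ℝ) := by
    push_cast; linarith
  rw [hl] at c0 c1 c2 c3 c4
  clear hl r0 r1 r2 r3 r4
  obtain ⟨y1, hy1⟩ : ∃ y1 : ℤ, y1 = x0 + x3 + x4 := ⟨_, rfl⟩
  obtain ⟨y2, hy2⟩ : ∃ y2 : ℤ, y2 = x1 + x2 + x4 := ⟨_, rfl⟩
  obtain ⟨y3, hy3⟩ : ∃ y3 : ℤ, y3 = x2 + x3 + x4 := ⟨_, rfl⟩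
  obtain ⟨p, hp⟩ : ∃ p : ℤ, p = x2 + x4 := ⟨_, rfl⟩
  obtain ⟨q, hq⟩ : ∃ q : ℤ, q = x3 + x4 := ⟨_, rfl⟩
  rw [← hy3, ← hp, ← hq] at c0 c1 c2 c3 c4
  rw [← hy1, ← hy2] at c1 c2 c3
  rw [← hy1, ← hy2] at c4
  have b1 := y3_lo y3 h0 h1 c0 c2 c3 c4
  have b2 := y3_hi y3 h0 h1 c1 c2 c3 c4
  rcases (by omega : y3 = 0 ∨ y3 = 1) with h3 | h3
  · have h3R : (y3:ℝ) = 0 := by rw [h3]; norm_num
    rw [h3R] at c0 c1 c2 c3 c4
    obtain ⟨hl, hpts⟩ := layer0 y1 y2 c0 c2 c3 c4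
    obtain ⟨u, v⟩ := irr_rel ht p q (by linarith)
    clear c0 c1 c2 c3 c4 hl h3R ht h0 h1 b1 b2
    rcases hpts with ⟨a, b⟩ | ⟨a, b⟩ | ⟨a, b⟩
    · left; refine ⟨?_, ?_, ?_, ?_, ?_⟩ <;> omega
    · right; left; refine ⟨?_, ?_, ?_, ?_, ?_⟩ <;> omega
    · right; right; left; refine ⟨?_, ?_, ?_, ?_, ?_⟩ <;> omega
  · have h3R : (y3:ℝ) = 1 := by rw [h3]; norm_num
    rw [h3R] at c0 c1 c2 c3 c4
    rcases layer1 y1 y2 h0 h1 c1 c2 c3 c4 with ⟨a, b, hl⟩ | ⟨a, b, hl⟩ | ⟨a, b, hl⟩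
    · obtain ⟨u, v⟩ := irr_rel ht p (q - 1) (by push_cast; linarith)
      right; right; right; right; left; refine ⟨?_, ?_, ?_, ?_, ?_⟩ <;> omega
    · obtain ⟨u, v⟩ := irr_rel ht (p - 1) q (by push_cast; linarith)
      right; right; right; left; refine ⟨?_, ?_, ?_, ?_, ?_⟩ <;> omega
    · obtain ⟨u, v⟩ := irr_rel ht (p - 1) (q - 1) (by push_cast; linarith)
      right; right; right; right; right; refine ⟨?_, ?_, ?_, ?_, ?_⟩ <;> omega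

/-- The matrix of the relaxation. -/
noncomputable def relA (t : ℝ) : Matrix (Fin 5) (Fin 5) ℝ :=
  !![0, 0, -(2+t), -(2+1/10), -(2+1/10+t);
     1/10, t, 2, 2, 2;
     1, 2, 1-1/10, -t, 2;
     -2, -1, 0, 1/10-1-t, 1/10-2;
     1, -1, t-1-1/10, 1, t]

/-- The right-hand side of the relaxation. -/
noncomputable def relb : Fin 5 → ℝ := ![0, 2, 2, 0, 1]

lemma relA_spec {t : ℝ} (ht : Irrational t) (h0 : 0 < t) (h1 : t < 1/10) (x : Fin 5 → ℤ) :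
    (∀ i, ((relA t).mulVec (fun j => (x j : ℝ))) i ≤ relb i) ↔ x ∈ simplexVertices 5 := by
  constructor
  · intro h
    have r0 := h 0
    have r1 := h 1
    have r2 := h 2
    have r3 := h 3
    have r4 := h 4
    simp only [relA, relb, Matrix.mulVec, dotProduct, Fin.sum_univ_five, Matrix.of_apply,
      Matrix.cons_val', Matrix.cons_val_zero, Matrix.cons_val_one, Matrix.cons_val] at r0 r1 r2 r3 r4
    have k := key ht h0 h1 (x 0) (x 1) (x 2) (x 3) (x 4) (by linarith) (by linarith) (by linarith)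
      (by linarith) (by linarith)
    rcases k with ⟨a,b,c,d,e⟩ | ⟨a,b,c,d,e⟩ | ⟨a,b,c,d,e⟩ | ⟨a,b,c,d,e⟩ | ⟨a,b,c,d,e⟩ | ⟨a,b,c,d,e⟩
    · left; funext j; fin_cases j <;> simp_all
    · right; refine ⟨0, ?_⟩; funext j; fin_cases j <;> simp_all
    · right; refine ⟨1, ?_⟩; funext j; fin_cases j <;> simp_all
    · right; refine ⟨2, ?_⟩; funext j; fin_cases j <;> simp_all
    · right; refine ⟨3, ?_⟩; funext j; fin_cases j <;> simp_all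
    · right; refine ⟨4, ?_⟩; funext j; fin_cases j <;> simp_all
  · rintro (rfl | ⟨k, rfl⟩)
    · intro i
      fin_cases i <;> simp [relA, relb, Matrix.mulVec, dotProduct, Fin.sum_univ_five]
    · intro i
      fin_cases k <;> fin_cases i <;>
        simp [relA, relb, Matrix.mulVec, dotProduct, Fin.sum_univ_five] <;> linarith

lemma mem_F_lt {F : Subfield ℝ} {t₀ : ℝ} (hF : t₀ ∈ F) (ht : Irrational t₀) :
    ∃ t ∈ F, Irrational t ∧ 0 < t ∧ t < 1/10 := by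
  refine ⟨Int.fract t₀ / 10, ?_, ?_, ?_, ?_⟩
  · have h10 : (10 : ℝ) ∈ F := by
      have := natCast_mem F 10
      simpa using this
    refine F.div_mem ?_ h10
    rw [Int.fract]
    exact F.sub_mem hF (intCast_mem F _)
  · have h1 : Irrational (Int.fract t₀) := by
      rw [Int.fract]
      exact ht.sub_intCast _
    have := h1.div_natCast (m := 10) (by norm_num)
    simpa using this
  · have h1 : Irrational (Int.fract t₀) := by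
      rw [Int.fract]
      exact ht.sub_intCast _
    have h2 : 0 < Int.fract t₀ := lt_of_le_of_ne (Int.fract_nonneg _) (fun h => h1.ne_zero h.symm)
    positivity
  · have := Int.fract_lt_one t₀
    linarith

/-- Over every subfield of `ℝ` with an irrational element, `Δ_5` has a relaxation given by
five inequalities. -/
theorem hasRelaxation_five (F : Subfield ℝ) {t₀ : ℝ} (hF : t₀ ∈ F) (ht : Irrational t₀) :
    HasRelaxation F (simplexVertices 5) 5 := by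
  obtain ⟨t, htF, hti, h0, h1⟩ := mem_F_lt hF ht
  refine ⟨relA t, relb, ?_, ?_, fun x => relA_spec hti h0 h1 x⟩
  · have n1 : (1 : ℝ) ∈ F := F.one_mem
    have n0 : (0 : ℝ) ∈ F := F.zero_mem
    have n2 : (2 : ℝ) ∈ F := by
      have := natCast_mem F 2
      simpa using this
    have n10 : (10 : ℝ) ∈ F := by
      have := natCast_mem F 10
      simpa using this
    have nd : (1/10 : ℝ) ∈ F := F.div_mem n1 n10
    intro i j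
    fin_cases i <;> fin_cases j <;> simp only [relA, Matrix.of_apply, Matrix.cons_val', Matrix.cons_val_zero, Matrix.cons_val_one, Matrix.cons_val, Fin.zero_eta, Fin.mk_one, Fin.reduceFinMk, Matrix.cons_val_fin_one]
    all_goals first
      | exact n0
      | exact n1
      | exact n2
      | exact nd
      | exact htF
      | exact F.neg_mem htF
      | exact F.neg_mem n1
      | exact F.neg_mem n2
      | exact F.neg_mem (F.add_mem n2 htF)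
      | exact F.neg_mem (F.add_mem n2 nd)
      | exact F.neg_mem (F.add_mem (F.add_mem n2 nd) htF)
      | exact F.sub_mem n1 nd
      | exact F.sub_mem nd n2
      | exact F.sub_mem (F.sub_mem nd n1) htF
      | exact F.sub_mem (F.sub_mem htF n1) nd
  · have n1 : (1 : ℝ) ∈ F := F.one_mem
    have n0 : (0 : ℝ) ∈ F := F.zero_mem
    have n2 : (2 : ℝ) ∈ F := by
      have := natCast_mem F 2
      simpa using this
    intro i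
    fin_cases i <;> simp [relb, n0, n1, n2]

/-- A subfield of `ℝ` of degree at least two over `ℚ` has an irrational element. -/
lemma exists_irrational_of_ne_bot {F : Subfield ℝ} (hF : F ≠ ⊥) : ∃ t ∈ F, Irrational t := by
  by_contra h
  push Not at h
  apply hF
  rw [eq_bot_iff]
  intro x hx
  have hx' := h x hx
  rw [Subfield.bot_eq_of_charZero]
  unfold Irrational at hx'
  push Not at hx'
  obtain ⟨q, hq⟩ := hx'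
  exact ⟨q, by simpa using hq⟩

lemma ne_bot_of_finrank {F : Subfield ℝ} (hF : Module.finrank ℚ F = 2) : F ≠ ⊥ := by
  intro h
  have hle : Module.finrank ℚ F ≤ 1 := by
    refine finrank_le_one (1 : F) ?_
    rintro ⟨w, hw⟩
    have hw' := hw
    rw [h, Subfield.bot_eq_of_charZero] at hw'
    obtain ⟨q, hq⟩ := hw'
    refine ⟨q, ?_⟩
    apply Subtype.ext
    simp only [Algebra.smul_def, mul_one]
    rw [← hq]
    simp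
  omega

end Pool.R339.RC
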