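import Mathlib

open Finset

/-!
Minimum `D`-joins on odd toroidal grids: directions, configurations, edge indicators.
-/

namespace R339.Tor

/-- vertices of the torus -/
abbrev P (L : ℕ) := ZMod L × ZMod L

variable {L : ℕ}

/-- the four unit directions -/
def d (k : ZMod 4) : P L :=
  if k = 0 then (1, 0) else if k = 1 then (0, 1) else if k = 2 then (-1, 0) else (0, -1)

theorem four (k : ZMod 4) : k = 0 ∨ k = 1 ∨ k = 2 ∨ k = 3 := by
  revert k; decide

@[simp] theorem d0 : (d 0 : P L) = (1, 0) := by simp [d]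
@[simp] theorem d1 : (d 1 : P L) = (0, 1) := by
  have h : ¬ (1 : ZMod 4) = 0 := by decide
  simp [d, h]
@[simp] theorem d2 : (d 2 : P L) = (-1, 0) := by
  have h : ¬ (2 : ZMod 4) = 0 := by decide
  have h' : ¬ (2 : ZMod 4) = 1 := by decide
  simp [d, h, h']
@[simp] theorem d3 : (d 3 : P L) = (0, -1) := by
  have h : ¬ (3 : ZMod 4) = 0 := by decide
  have h' : ¬ (3 : ZMod 4) = 1 := by decide
  have h'' : ¬ (3 : ZMod 4) = 2 := by decide
  simp [d, h, h', h'']

theorem n02 : (0 : ZMod 4) + 2 = 2 := by decide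
theorem n12 : (1 : ZMod 4) + 2 = 3 := by decide
theorem n22 : (2 : ZMod 4) + 2 = 0 := by decide
theorem n32 : (3 : ZMod 4) + 2 = 1 := by decide
theorem n01 : (0 : ZMod 4) + 1 = 1 := by decide
theorem n11 : (1 : ZMod 4) + 1 = 2 := by decide
theorem n21 : (2 : ZMod 4) + 1 = 3 := by decide
theorem n31 : (3 : ZMod 4) + 1 = 0 := by decide
theorem n03 : (0 : ZMod 4) + 3 = 3 := by decide
theorem n13 : (1 : ZMod 4) + 3 = 0 := by decide
theorem n23 : (2 : ZMod 4) + 3 = 1 := by decide
theorem n33 : (3 : ZMod 4) + 3 = 2 := by decide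

theorem add_two_two (k : ZMod 4) : k + 2 + 2 = k := by
  revert k; decide

theorem ne_add_two (k : ZMod 4) : k ≠ k + 2 := by
  revert k; decide

theorem d_add_two (k : ZMod 4) : (d (k + 2) : P L) = - d k := by
  rcases four k with rfl | rfl | rfl | rfl
  · simp [n02]
  · simp [n12]
  · simp [n22]
  · simp [n32]

/-- the standing assumption on the side length -/
class OddL (L : ℕ) : Prop where
  ge : 3 ≤ L
  odd : Odd L

instance [h : OddL L] : NeZero L := ⟨by have := h.ge; omega⟩

theorem two_ne [h : OddL L] : (2 : ZMod L) ≠ 0 := by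
  intro h0
  have : ((2 : ℕ) : ZMod L) = 0 := by exact_mod_cast h0
  rw [ZMod.natCast_eq_zero_iff] at this
  have h1 := Nat.le_of_dvd (by norm_num) this
  have := h.ge
  omega

theorem one_ne [h : OddL L] : (1 : ZMod L) ≠ 0 := by
  intro h0
  apply two_ne (L := L)
  have : (2 : ZMod L) = 1 + 1 := by norm_num
  rw [this, h0]; simp

theorem one_ne_neg [h : OddL L] : (1 : ZMod L) ≠ -1 := by
  intro h0
  apply two_ne (L := L)
  have : (2 : ZMod L) = 1 + 1 := by norm_num
  rw [this]
  nth_rewrite 1 [h0]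
  ring

theorem d_ne [OddL L] (k : ZMod 4) : (d k : P L) ≠ 0 := by
  have h1 := one_ne (L := L)
  rcases four k with rfl | rfl | rfl | rfl <;> simp [Prod.ext_iff, h1]

theorem dd_ne [OddL L] (k : ZMod 4) : (d k : P L) + d k ≠ 0 := by
  have h1 : (1 : ZMod L) + 1 ≠ 0 := by
    have := two_ne (L := L)
    intro h; apply this; rw [← h]; norm_num
  have h2 : (-1 : ZMod L) + -1 ≠ 0 := by
    intro h; apply h1
    have : (1 : ZMod L) + 1 = -(-1 + -1) := by ring
    rw [this, h]; simp
  rcases four k with rfl | rfl | rfl | rfl <;> simp [Prod.ext_iff, h1, h2]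

theorem d_inj [OddL L] {k j : ZMod 4} (h : (d k : P L) = d j) : k = j := by
  have h1 := one_ne (L := L)
  have h2 := one_ne_neg (L := L)
  have h3 : (-1 : ZMod L) ≠ 1 := fun h => h2 h.symm
  rcases four k with rfl | rfl | rfl | rfl <;> rcases four j with rfl | rfl | rfl | rfl <;>
    simp_all [Prod.ext_iff, eq_comm]

/-- two directions are perpendicular -/
def Perp (l n : ZMod 4) : Prop := n = l + 1 ∨ n = l + 3

instance (l n : ZMod 4) : Decidable (Perp l n) := by unfold Perp; infer_instance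

theorem Perp.ne {l n : ZMod 4} (h : Perp l n) : l ≠ n := by
  revert l n; decide

theorem Perp.ne2 {l n : ZMod 4} (h : Perp l n) : l ≠ n + 2 := by
  revert l n; decide

theorem Perp.ne3 {l n : ZMod 4} (h : Perp l n) : l + 2 ≠ n := by
  revert l n; decide

theorem Perp.symm {l n : ZMod 4} (h : Perp l n) : Perp n l := by
  revert l n; decide

theorem Perp.add_right {l n : ZMod 4} (h : Perp l n) : Perp l (n + 2) := by
  revert l n; decide

theorem Perp.add_left {l n : ZMod 4} (h : Perp l n) : Perp (l + 2) n := by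
  revert l n; decide

/-- every direction is one of the four determined by a perpendicular pair -/
theorem Perp.cases {l n : ZMod 4} (h : Perp l n) (k : ZMod 4) :
    k = l ∨ k = l + 2 ∨ k = n ∨ k = n + 2 := by
  revert l n k; decide

theorem Perp.sum_ne [OddL L] {l n : ZMod 4} (h : Perp l n) : (d l : P L) + d n ≠ 0 := by
  intro h0
  have h1 : (d l : P L) = d (n + 2) := by rw [d_add_two]; exact eq_neg_of_add_eq_zero_left h0
  exact h.ne2 (d_inj h1)

theorem Perp.d_ne [OddL L] {l n : ZMod 4} (h : Perp l n) : (d l : P L) ≠ d n :=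
  fun h0 => h.ne (d_inj h0)

/-- configurations: an edge set of the torus, seen as a `ZMod 2`-valued function of darts -/
abbrev Cfg (L : ℕ) := P L → ZMod 4 → ZMod 2

def Sym (M : Cfg L) : Prop := ∀ x k, M (x + d k) (k + 2) = M x k

theorem Sym.add {M N : Cfg L} (hM : Sym M) (hN : Sym N) : Sym (M + N) := by
  intro x k
  simp only [Pi.add_apply, hM x k, hN x k]

/-- the degree of `x` -/
def dg (M : Cfg L) (x : P L) : ℕ := ∑ k, (M x k).val

theorem dg_cast (M : Cfg L) (x : P L) : ((dg M x : ℕ) : ZMod 2) = ∑ k, M x k := by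
  unfold dg
  rw [Nat.cast_sum]
  exact Finset.sum_congr rfl (fun k _ => ZMod.natCast_zmod_val _)

def IsJ (g : P L → ZMod 2) (M : Cfg L) : Prop := Sym M ∧ ∀ x, ∑ k, M x k = g x

def tot [NeZero L] (M : Cfg L) : ℕ := ∑ x, dg M x

/-- the indicator of the edge leaving `x0` in direction `k0` -/
def Ed (x0 : P L) (k0 : ZMod 4) : Cfg L := fun x k =>
  (if x = x0 ∧ k = k0 then 1 else 0) + (if x = x0 + d k0 ∧ k = k0 + 2 then 1 else 0)

theorem Ed_sym (x0 : P L) (k0 : ZMod 4) : Sym (Ed x0 k0) := by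
  intro x k
  unfold Ed
  have h1 : (x + d k = x0 ∧ k + 2 = k0) ↔ (x = x0 + d k0 ∧ k = k0 + 2) := by
    constructor
    · rintro ⟨h, rfl⟩
      refine ⟨?_, (add_two_two k).symm⟩
      rw [d_add_two, ← h]; abel
    · rintro ⟨rfl, rfl⟩
      refine ⟨?_, add_two_two k0⟩
      rw [d_add_two]; abel
  have h2 : (x + d k = x0 + d k0 ∧ k + 2 = k0 + 2) ↔ (x = x0 ∧ k = k0) := by
    constructor
    · rintro ⟨h, h'⟩
      have hk : k = k0 := add_right_cancel h'
      subst hk
      exact ⟨add_right_cancel h, rfl⟩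
    · rintro ⟨rfl, rfl⟩; exact ⟨rfl, rfl⟩
  simp only [h1, h2]
  rw [add_comm]

theorem Ed_sum (x0 : P L) (k0 : ZMod 4) (x : P L) :
    ∑ k, Ed x0 k0 x k = (if x = x0 then 1 else 0) + (if x = x0 + d k0 then 1 else 0) := by
  unfold Ed
  rw [Finset.sum_add_distrib]
  congr 1
  · by_cases h : x = x0
    · simp [h]
    · simp [h]
  · by_cases h : x = x0 + d k0
    · simp [h]
    · simp [h]

end R339.Tor
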