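import Pool.Agent.R339.TorA

open Finset

/-!
The exchange lemma: two minimum joins whose degree sequences differ by `2` at two adjacent
vertices `a`, `b` do not both contain the edge `ab`.
-/

namespace R339.Tor

variable {L : ℕ}

theorem z2 (a : ZMod 2) : a = 0 ∨ a = 1 := by
  revert a; decide

theorem zadd_self (a : ZMod 2) : a + a = 0 := by
  revert a; decide

theorem Ed_self (x : P L) (k : ZMod 4) : Ed x k x k = 1 := by
  unfold Ed
  rw [if_pos ⟨rfl, rfl⟩, if_neg (fun h => ne_add_two k h.2), add_zero]

theorem Ed_tgt (x : P L) (k : ZMod 4) : Ed x k (x + d k) (k + 2) = 1 := by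
  unfold Ed
  rw [if_neg (fun h => ne_add_two k h.2.symm), if_pos ⟨rfl, rfl⟩, zero_add]

theorem Ed_zero {x0 x : P L} {k0 k : ZMod 4} (h1 : ¬ (x = x0 ∧ k = k0))
    (h2 : ¬ (x = x0 + d k0 ∧ k = k0 + 2)) : Ed x0 k0 x k = 0 := by
  unfold Ed
  rw [if_neg h1, if_neg h2, add_zero]

theorem path_exists (K : Cfg L) (hK : Sym K) (a : P L) (y : P L)
    (h : Relation.ReflTransGen (fun x y => ∃ k, y = x + d k ∧ K x k = 1) a y) :
    ∃ T : Cfg L, Sym T ∧ (∀ x k, T x k = 1 → K x k = 1) ∧
      ∀ x, ∑ k, T x k = (if x = a then 1 else 0) + (if x = y then 1 else 0) := by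
  induction h with
  | refl =>
    refine ⟨0, fun _ _ => rfl, fun x k h => by simp at h, fun x => ?_⟩
    rw [zadd_self]; simp
  | tail _ hyz ih =>
    rename_i y _ hay
    obtain ⟨k, rfl, hk⟩ := hyz
    obtain ⟨T, hT, hTK, hs⟩ := ih
    refine ⟨T + Ed y k, hT.add (Ed_sym y k), ?_, ?_⟩
    · intro x j hj
      by_cases h1 : x = y ∧ j = k
      · rw [h1.1, h1.2]; exact hk
      · by_cases h2 : x = y + d k ∧ j = k + 2
        · rw [h2.1, h2.2, hK]; exact hk
        · have : Ed y k x j = 0 := Ed_zero h1 h2
          apply hTK
          simpa [this] using hj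
    · intro x
      have : ∑ j, (T + Ed y k) x j = ∑ j, T x j + ∑ j, Ed y k x j := by
        simp only [Pi.add_apply]
        rw [Finset.sum_add_distrib]
      rw [this, hs, Ed_sum]
      have h2 := zadd_self (if x = y then (1 : ZMod 2) else 0)
      calc _ = (if x = a then (1 : ZMod 2) else 0) + (if x = y + d k then 1 else 0)
            + ((if x = y then (1 : ZMod 2) else 0) + (if x = y then (1 : ZMod 2) else 0)) := by ring
        _ = _ := by rw [h2, add_zero]

theorem val_id (m m' t : ZMod 2) (h : t = 1 → m + m' = 1) :
    (m + t).val + (m' + t).val ≤ m.val + m'.val := by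
  revert m m' t; decide

theorem exchange [OddL L] {g : P L → ZMod 2} {M M' : Cfg L} {t : ℕ}
    (hmin : ∀ N, IsJ g N → t ≤ tot N) (hM : IsJ g M) (hM' : IsJ g M') {f : P L → ℕ}
    {a b : P L} (hd : ∀ x, dg M x = f x + if x = a then 2 else 0)
    (hd' : ∀ x, dg M' x = f x + if x = b then 2 else 0) (ht : tot M = t)
    {κ : ZMod 4} (hb : b = a + d κ) (he : M a κ = 1) (he' : M' a κ = 1) : False := by
  classical
  have hK : Sym (M + M') := hM.1.add hM'.1
  have htM : tot M = ∑ x, f x + 2 := by
    unfold tot
    rw [Finset.sum_congr rfl (fun x _ => hd x), Finset.sum_add_distrib]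
    simp
  have htM' : tot M' = ∑ x, f x + 2 := by
    unfold tot
    rw [Finset.sum_congr rfl (fun x _ => hd' x), Finset.sum_add_distrib]
    simp
  have hab : a ≠ b := by
    intro h; rw [h] at hb
    exact d_ne κ (left_eq_add.mp hb)
  by_cases hS : Relation.ReflTransGen (fun x y => ∃ k, y = x + d k ∧ (M + M') x k = 1) a b
  · obtain ⟨T, hT, hTK, hs⟩ := path_exists (M + M') hK a b hS
    have hN1 : IsJ g (M + T + Ed a κ) := by
      refine ⟨(hM.1.add hT).add (Ed_sym a κ), fun x => ?_⟩
      have : ∑ k, (M + T + Ed a κ) x k = ∑ k, M x k + ∑ k, T x k + ∑ k, Ed a κ x k := by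
        simp only [Pi.add_apply]
        rw [Finset.sum_add_distrib, Finset.sum_add_distrib]
      rw [this, hM.2, hs, Ed_sum, ← hb, add_assoc, zadd_self, add_zero]
    have hN2 : IsJ g (M' + T + Ed a κ) := by
      refine ⟨(hM'.1.add hT).add (Ed_sym a κ), fun x => ?_⟩
      have : ∑ k, (M' + T + Ed a κ) x k = ∑ k, M' x k + ∑ k, T x k + ∑ k, Ed a κ x k := by
        simp only [Pi.add_apply]
        rw [Finset.sum_add_distrib, Finset.sum_add_distrib]
      rw [this, hM'.2, hs, Ed_sum, ← hb, add_assoc, zadd_self, add_zero]
    have key : ∀ x k, ((M + T + Ed a κ) x k).val + ((M' + T + Ed a κ) x k).val ≤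
        (M x k).val + (M' x k).val := by
      intro x k
      have hT' : T x k = 1 → M x k + M' x k = 1 := fun h => hTK x k h
      by_cases h1 : x = a ∧ k = κ
      · obtain ⟨rfl, rfl⟩ := h1
        have hT0 : T x k = 0 := by
          rcases z2 (T x k) with h | h
          · exact h
          · have := hT' h
            rw [he, he'] at this
            exact absurd this (by decide)
        have hE : Ed x k x k = 1 := Ed_self x k
        simp only [Pi.add_apply, hT0, hE, he, he']
        decide
      · by_cases h2 : x = a + d κ ∧ k = κ + 2
        · have hmx : M x k = 1 := by rw [h2.1, h2.2, hM.1]; exact he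
          have hmx' : M' x k = 1 := by rw [h2.1, h2.2, hM'.1]; exact he'
          have hT0 : T x k = 0 := by
            rcases z2 (T x k) with h | h
            · exact h
            · have := hT' h
              rw [hmx, hmx'] at this
              exact absurd this (by decide)
          have hE : Ed a κ x k = 1 := by rw [h2.1, h2.2]; exact Ed_tgt a κ
          simp only [Pi.add_apply, hT0, hE, hmx, hmx']
          decide
        · have hE : Ed a κ x k = 0 := Ed_zero h1 h2
          simp only [Pi.add_apply, hE, add_zero]
          exact val_id _ _ _ hT'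
    have key2 : ((M + T + Ed a κ) a κ).val + ((M' + T + Ed a κ) a κ).val <
        (M a κ).val + (M' a κ).val := by
      have hT0 : T a κ = 0 := by
        rcases z2 (T a κ) with h | h
        · exact h
        · have : M a κ + M' a κ = 1 := hTK a κ h
          rw [he, he'] at this
          exact absurd this (by decide)
      have hE : Ed a κ a κ = 1 := Ed_self a κ
      simp only [Pi.add_apply, hT0, hE, he, he']
      decide
    have hlt : tot (M + T + Ed a κ) + tot (M' + T + Ed a κ) < tot M + tot M' := by
      unfold tot
      rw [← Finset.sum_add_distrib, ← Finset.sum_add_distrib]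
      apply Finset.sum_lt_sum
      · intro x _
        unfold dg
        rw [← Finset.sum_add_distrib, ← Finset.sum_add_distrib]
        exact Finset.sum_le_sum (fun k _ => key x k)
      · refine ⟨a, Finset.mem_univ _, ?_⟩
        unfold dg
        rw [← Finset.sum_add_distrib, ← Finset.sum_add_distrib]
        exact Finset.sum_lt_sum (fun k _ => key a k) ⟨κ, Finset.mem_univ _, key2⟩
    have h1 := hmin _ hN1
    have h2 := hmin _ hN2
    omega
  · -- the component of `a` in the difference does not contain `b`
    let S : Set (P L) :=
      {x | Relation.ReflTransGen (fun x y => ∃ k, y = x + d k ∧ (M + M') x k = 1) a x}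
    let N : Cfg L := fun x k => if x ∈ S then M' x k else M x k
    have haS : a ∈ S := Relation.ReflTransGen.refl
    have hbS : b ∉ S := hS
    have hstep : ∀ x k, (M + M') x k = 1 → x ∈ S → x + d k ∈ S := by
      intro x k h hx
      exact Relation.ReflTransGen.tail hx ⟨k, rfl, h⟩
    have hN : IsJ g N := by
      constructor
      · intro x k
        have e1 : M (x + d k) (k + 2) = M x k := hM.1 x k
        have e2 : M' (x + d k) (k + 2) = M' x k := hM'.1 x k
        change (if x + d k ∈ S then M' (x + d k) (k + 2) else M (x + d k) (k + 2)) =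
          (if x ∈ S then M' x k else M x k)
        rw [e1, e2]
        rcases z2 ((M + M') x k) with h | h
        · have : M x k = M' x k := by
            have h' : M x k + M' x k = 0 := h
            revert h'
            generalize M x k = p
            generalize M' x k = q
            revert p q; decide
          rw [this]; simp
        · have hiff : x + d k ∈ S ↔ x ∈ S := by
            constructor
            · intro hx
              have h' : (M + M') (x + d k) (k + 2) = 1 := by rw [hK]; exact h
              have := hstep _ _ h' hx
              rwa [d_add_two, add_neg_cancel_right] at this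
            · exact hstep x k h
          simp only [hiff]
      · intro x
        by_cases hx : x ∈ S
        · simp only [N, hx, if_true]; exact hM'.2 x
        · simp only [N, hx, if_false]; exact hM.2 x
    have hdN : ∀ x, dg N x = f x := by
      intro x
      by_cases hx : x ∈ S
      · have : dg N x = dg M' x := by unfold dg; simp only [N, hx, if_true]
        rw [this, hd']
        have : x ≠ b := fun h => hbS (h ▸ hx)
        simp [this]
      · have : dg N x = dg M x := by unfold dg; simp only [N, hx, if_false]
        rw [this, hd]
        have : x ≠ a := fun h => hx (h ▸ haS)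
        simp [this]
    have h1 := hmin _ hN
    have h2 : tot N = ∑ x, f x := by
      unfold tot
      exact Finset.sum_congr rfl (fun x _ => hdN x)
    omega

end R339.Tor
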