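import Pool.Agent.R339.TorB

open Finset

/-!
Flipping a plaquette.
-/

namespace R339.Tor

variable {L : ℕ}

theorem Perp.sum {A : Type*} [AddCommMonoid A] {l n : ZMod 4} (h : Perp l n) (F : ZMod 4 → A) :
    ∑ k, F k = F l + F (l + 2) + F n + F (n + 2) := by
  have hu : (Finset.univ : Finset (ZMod 4)) = {l, l + 2, n, n + 2} := by
    revert l n; decide
  have h1 : l ∉ ({l + 2, n, n + 2} : Finset (ZMod 4)) := by revert l n; decide
  have h2 : l + 2 ∉ ({n, n + 2} : Finset (ZMod 4)) := by revert l n; decide
  have h3 : n ∉ ({n + 2} : Finset (ZMod 4)) := by revert l n; decide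
  rw [hu, Finset.sum_insert h1, Finset.sum_insert h2, Finset.sum_insert h3,
    Finset.sum_singleton]
  simp only [add_assoc]

/-- the boundary of the plaquette with corner `w` and sides `l`, `n` -/
def Pq (w : P L) (l n : ZMod 4) : Cfg L :=
  Ed w l + Ed w n + Ed (w + d l) n + Ed (w + d n) l

theorem Pq_sym (w : P L) (l n : ZMod 4) : Sym (Pq w l n) :=
  (((Ed_sym w l).add (Ed_sym w n)).add (Ed_sym _ _)).add (Ed_sym _ _)

theorem Pq_sum (w : P L) (l n : ZMod 4) (x : P L) : ∑ k, Pq w l n x k = 0 := by
  have : ∑ k, Pq w l n x k = ∑ k, Ed w l x k + ∑ k, Ed w n x k + ∑ k, Ed (w + d l) n x k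
      + ∑ k, Ed (w + d n) l x k := by
    simp only [Pq, Pi.add_apply]
    rw [Finset.sum_add_distrib, Finset.sum_add_distrib, Finset.sum_add_distrib]
  rw [this, Ed_sum, Ed_sum, Ed_sum, Ed_sum]
  have e : w + d n + d l = w + d l + (d n : P L) := by abel
  rw [e]
  generalize (if x = w then (1 : ZMod 2) else 0) = p
  generalize (if x = w + d l then (1 : ZMod 2) else 0) = q
  generalize (if x = w + d n then (1 : ZMod 2) else 0) = r
  generalize (if x = w + d l + d n then (1 : ZMod 2) else 0) = s
  revert p q r s; decide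

theorem flip_isJ {g : P L → ZMod 2} {M : Cfg L} (h : IsJ g M) (w : P L) (l n : ZMod 4) :
    IsJ g (M + Pq w l n) := by
  refine ⟨h.1.add (Pq_sym w l n), fun x => ?_⟩
  have : ∑ k, (M + Pq w l n) x k = ∑ k, M x k + ∑ k, Pq w l n x k := by
    simp only [Pi.add_apply]
    rw [Finset.sum_add_distrib]
  rw [this, h.2, Pq_sum, add_zero]

section
variable [OddL L]

/-- distinctness of the four corners -/
theorem c1 {l n : ZMod 4} (_h : Perp l n) (w : P L) : w ≠ w + d l := fun h =>
  d_ne l (left_eq_add.mp h)
theorem c2 {l n : ZMod 4} (_h : Perp l n) (w : P L) : w ≠ w + d n := fun h =>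
  d_ne n (left_eq_add.mp h)
theorem c3 {l n : ZMod 4} (h : Perp l n) (w : P L) : w ≠ w + d l + d n := fun h0 => by
  rw [add_assoc] at h0
  exact h.sum_ne (left_eq_add.mp h0)
theorem c4 {l n : ZMod 4} (h : Perp l n) (w : P L) : w + d l ≠ w + d n := fun h0 =>
  h.d_ne (add_left_cancel h0)
theorem c5 {l n : ZMod 4} (_h : Perp l n) (w : P L) : w + d l ≠ w + d l + d n := fun h =>
  d_ne n (left_eq_add.mp h)
theorem c6 {l n : ZMod 4} (_h : Perp l n) (w : P L) : w + d n ≠ w + d l + d n := fun h => by
  have e : w + d l + (d n : P L) = w + d n + d l := by abel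
  rw [e] at h
  exact d_ne l (left_eq_add.mp h)

theorem Pq_w {l n : ZMod 4} (h : Perp l n) (w : P L) (k : ZMod 4) :
    Pq w l n w k = (if k = l then 1 else 0) + (if k = n then 1 else 0) := by
  have e : w + d n + d l = w + d l + (d n : P L) := by abel
  simp only [Pq, Ed, Pi.add_apply, e]
  simp [c1 h w, c2 h w, c3 h w]

theorem Pq_l {l n : ZMod 4} (h : Perp l n) (w : P L) (k : ZMod 4) :
    Pq w l n (w + d l) k = (if k = l + 2 then 1 else 0) + (if k = n then 1 else 0) := by
  have e : w + d n + d l = w + d l + (d n : P L) := by abel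
  simp only [Pq, Ed, Pi.add_apply, e]
  simp only [(c1 h w).symm, c4 h w, c5 h w, false_and, true_and, if_false, add_zero, zero_add]

theorem Pq_n {l n : ZMod 4} (h : Perp l n) (w : P L) (k : ZMod 4) :
    Pq w l n (w + d n) k = (if k = n + 2 then 1 else 0) + (if k = l then 1 else 0) := by
  have e : w + d n + d l = w + d l + (d n : P L) := by abel
  simp only [Pq, Ed, Pi.add_apply, e]
  simp only [(c2 h w).symm, (c4 h w).symm, c6 h w, false_and, true_and, if_false, add_zero,
    zero_add]

theorem Pq_c {l n : ZMod 4} (h : Perp l n) (w : P L) (k : ZMod 4) :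
    Pq w l n (w + d l + d n) k = (if k = n + 2 then 1 else 0) + (if k = l + 2 then 1 else 0) := by
  have e : w + d n + d l = w + d l + (d n : P L) := by abel
  simp only [Pq, Ed, Pi.add_apply, e]
  simp only [(c3 h w).symm, (c5 h w).symm, (c6 h w).symm, false_and, true_and, if_false,
    add_zero, zero_add]

theorem Pq_o {l n : ZMod 4} (w : P L) {x : P L} (h1 : x ≠ w) (h2 : x ≠ w + d l)
    (h3 : x ≠ w + d n) (h4 : x ≠ w + d l + d n) (k : ZMod 4) : Pq w l n x k = 0 := by
  have e : w + d n + d l = w + d l + (d n : P L) := by abel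
  simp only [Pq, Ed, Pi.add_apply, e]
  simp only [h1, h2, h3, h4, false_and, if_false, add_zero]

end

theorem tog4 (p q r s : ZMod 2) : (p + 1).val + (q + 1).val + r.val + s.val + 2 * p.val +
    2 * q.val = p.val + q.val + r.val + s.val + 2 := by
  revert p q r s; decide

/-- toggling two perpendicular directions -/
theorem tog {i j : ZMod 4} (h : Perp i j) (b : ZMod 4 → ZMod 2) :
    (∑ k, (b k + ((if k = i then 1 else 0) + (if k = j then 1 else 0))).val) + 2 * (b i).val
      + 2 * (b j).val = (∑ k, (b k).val) + 2 := by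
  rw [h.sum (fun k => (b k + ((if k = i then 1 else 0) + (if k = j then 1 else 0))).val),
    h.sum (fun k => (b k).val)]
  have h1 : ¬ i + 2 = i := fun e => ne_add_two i e.symm
  have h2 : ¬ j + 2 = j := fun e => ne_add_two j e.symm
  have h3 : ¬ i = j := h.ne
  have h4 : ¬ j = i := fun e => h.ne e.symm
  have h5 : ¬ i + 2 = j := h.ne3
  have h6 : ¬ j + 2 = i := fun e => h.ne2 e.symm
  simp only [h1, h2, h3, h4, h5, h6, if_true, if_false, add_zero, zero_add]
  have := tog4 (b i) (b j) (b (i + 2)) (b (j + 2))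
  omega

theorem dg_flip [OddL L] {M : Cfg L} (hM : Sym M) (w : P L) {l n : ZMod 4} (h : Perp l n)
    (h1 : M w l = 1) (h2 : M w n = 1) (x : P L) :
    dg (M + Pq w l n) x + (if x = w then 2 else 0)
      + (if x = w + d l then 2 * (M (w + d l) n).val else 0)
      + (if x = w + d n then 2 * (M (w + d n) l).val else 0)
      + (if x = w + d l + d n then 2 * (M (w + d l) n).val + 2 * (M (w + d n) l).val else 0)
      = dg M x + (if x = w + d l + d n then 2 else 0) := by
  have v1 : (1 : ZMod 2).val = 1 := rfl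
  by_cases hw : x = w
  · subst hw
    have := tog h (M x)
    simp only [c1 h x, c2 h x, c3 h x, if_true, if_false]
    unfold dg
    simp only [Pi.add_apply, Pq_w h]
    rw [h1, h2, v1] at this
    omega
  by_cases hl : x = w + d l
  · subst hl
    have := tog h.add_left (M (w + d l))
    have e : M (w + d l) (l + 2) = 1 := by rw [hM]; exact h1
    simp only [(c1 h w).symm, c4 h w, c5 h w, if_true, if_false]
    unfold dg
    simp only [Pi.add_apply, Pq_l h]
    rw [e, v1] at this
    omega
  by_cases hn : x = w + d n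
  · subst hn
    have := tog h.symm.add_left (M (w + d n))
    have e : M (w + d n) (n + 2) = 1 := by rw [hM]; exact h2
    simp only [(c2 h w).symm, (c4 h w).symm, c6 h w, if_true, if_false]
    unfold dg
    simp only [Pi.add_apply, Pq_n h]
    rw [e, v1] at this
    omega
  by_cases hc : x = w + d l + d n
  · subst hc
    have := tog h.symm.add_left.add_right (M (w + d l + d n))
    have e1 : M (w + d l + d n) (n + 2) = M (w + d l) n := hM _ _
    have e2 : M (w + d l + d n) (l + 2) = M (w + d n) l := by
      have e : w + d l + (d n : P L) = w + d n + d l := by abel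
      rw [e]; exact hM _ _
    simp only [(c3 h w).symm, (c5 h w).symm, (c6 h w).symm, if_true, if_false]
    unfold dg
    simp only [Pi.add_apply, Pq_c h]
    rw [e1, e2] at this
    omega
  · simp only [hw, hl, hn, hc, if_false]
    unfold dg
    simp only [Pi.add_apply, Pq_o w hw hl hn hc, add_zero]

/-- in a minimum join, the two other edges of a plaquette are absent -/
theorem corner_zero [OddL L] {g : P L → ZMod 2} {M : Cfg L} {t : ℕ}
    (hmin : ∀ N, IsJ g N → t ≤ tot N) (hM : IsJ g M) (ht : tot M = t) (w : P L)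
    {l n : ZMod 4} (h : Perp l n) (h1 : M w l = 1) (h2 : M w n = 1) :
    M (w + d l) n = 0 ∧ M (w + d n) l = 0 := by
  have hx := dg_flip hM.1 w h h1 h2
  have hs : ∑ x, (dg (M + Pq w l n) x + (if x = w then 2 else 0)
      + (if x = w + d l then 2 * (M (w + d l) n).val else 0)
      + (if x = w + d n then 2 * (M (w + d n) l).val else 0)
      + (if x = w + d l + d n then 2 * (M (w + d l) n).val + 2 * (M (w + d n) l).val else 0))
      = ∑ x, (dg M x + (if x = w + d l + d n then 2 else 0)) :=
    Finset.sum_congr rfl (fun x _ => hx x)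
  simp only [Finset.sum_add_distrib, Finset.sum_ite_eq', Finset.sum_ite_eq, Finset.mem_univ,
    if_true] at hs
  have hmin' := hmin _ (flip_isJ hM w l n)
  unfold tot at hmin' ht
  have hα : (M (w + d l) n).val = 0 := by omega
  have hβ : (M (w + d n) l).val = 0 := by omega
  exact ⟨(ZMod.val_eq_zero _).mp hα, (ZMod.val_eq_zero _).mp hβ⟩

theorem dg_flip' [OddL L] {M : Cfg L} (hM : Sym M) (w : P L) {l n : ZMod 4} (h : Perp l n)
    (h1 : M w l = 1) (h2 : M w n = 1) (h3 : M (w + d l) n = 0) (h4 : M (w + d n) l = 0)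
    (x : P L) :
    dg (M + Pq w l n) x + (if x = w then 2 else 0)
      = dg M x + (if x = w + d l + d n then 2 else 0) := by
  have := dg_flip hM w h h1 h2 x
  rw [h3, h4] at this
  have v0 : (0 : ZMod 2).val = 0 := rfl
  simp only [v0, mul_zero, add_zero, ite_self] at this
  exact this

end R339.Tor
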