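import Pool.Agent.R339.TorC

open Finset

/-!
The walk of a vertex of degree three (the token) through minimum joins, and the proof that it
cannot go on forever when the side length is odd.
-/

namespace R339.Tor

variable {L : ℕ}

structure St (L : ℕ) where
  M : Cfg L
  w : P L
  l : ZMod 4
  n : ZMod 4

instance [NeZero L] : Finite (St L) :=
  Finite.of_injective (fun s : St L => (s.M, s.w, s.l, s.n)) (by
    rintro ⟨a, b, c, e⟩ ⟨a', b', c', e'⟩ h
    simp only [Prod.mk.injEq] at h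
    obtain ⟨rfl, rfl, rfl, rfl⟩ := h
    rfl)

/-- flip the next plaquette -/
def nxt (s : St L) : St L :=
  ⟨s.M + Pq s.w s.l s.n, s.w + d s.l + d s.n,
    if s.M (s.w + d s.l + d s.n) s.l = 1 then s.l else s.n,
    if s.M (s.w + d s.l + d s.n) s.l = 1 then s.n + 2 else s.l + 2⟩

/-- the total degree of the defects -/
def Sg [NeZero L] (g : P L → ZMod 2) (M : Cfg L) : ℕ := ∑ x, if g x = 1 then dg M x else 0

structure Ctx [NeZero L] (g : P L → ZMod 2) (f : P L → ℕ) (t σ : ℕ) : Prop where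
  hmin : ∀ N, IsJ g N → t ≤ tot N
  hS : ∀ N, IsJ g N → tot N = t → σ ≤ Sg g N
  ht : ∑ x, f x + 2 = t
  hσ : (∑ x, if g x = 1 then f x else 0) + 2 = σ

structure Inv (g : P L → ZMod 2) (f : P L → ℕ) (s : St L) : Prop where
  J : IsJ g s.M
  D : ∀ x, dg s.M x = f x + if x = s.w then 2 else 0
  hl : s.M s.w s.l = 1
  hl2 : s.M s.w (s.l + 2) = 1
  hn : s.M s.w s.n = 1
  hn2 : s.M s.w (s.n + 2) = 0
  hp : Perp s.l s.n
  hg : g s.w = 1

variable [OddL L] {g : P L → ZMod 2} {f : P L → ℕ} {t σ : ℕ}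

theorem tot_of {M : Cfg L} {w : P L} (h : ∀ x, dg M x = f x + if x = w then 2 else 0)
    (C : Ctx g f t σ) : tot M = t := by
  rw [← C.ht]
  unfold tot
  rw [Finset.sum_congr rfl (fun x _ => h x), Finset.sum_add_distrib]
  simp

theorem Sg_of {M : Cfg L} {w : P L} (h : ∀ x, dg M x = f x + if x = w then 2 else 0) :
    Sg g M = (∑ x, if g x = 1 then f x else 0) + if g w = 1 then 2 else 0 := by
  unfold Sg
  have : ∀ x, (if g x = 1 then dg M x else 0) = (if g x = 1 then f x else 0) +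
      (if x = w then (if g w = 1 then 2 else 0) else 0) := by
    intro x
    rw [h]
    by_cases hx : x = w
    · subst hx
      by_cases hg : g x = 1 <;> simp [hg]
    · by_cases hg : g x = 1 <;> simp [hg, hx]
  rw [Finset.sum_congr rfl (fun x _ => this x), Finset.sum_add_distrib]
  simp

/-- what the target corner looks like -/
theorem Inv.corner (C : Ctx g f t σ) {s : St L} (h : Inv g f s) :
    s.M (s.w + d s.l) s.n = 0 ∧ s.M (s.w + d s.n) s.l = 0 :=
  corner_zero C.hmin h.J (tot_of h.D C) s.w h.hp h.hl h.hn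

theorem Inv.nD (C : Ctx g f t σ) {s : St L} (h : Inv g f s) (x : P L) :
    dg (nxt s).M x = f x + if x = (nxt s).w then 2 else 0 := by
  have hc := h.corner C
  have := dg_flip' h.J.1 s.w h.hp h.hl h.hn hc.1 hc.2 x
  rw [h.D x] at this
  change dg (s.M + Pq s.w s.l s.n) x = f x + if x = s.w + d s.l + d s.n then 2 else 0
  omega

theorem Inv.gc (C : Ctx g f t σ) {s : St L} (h : Inv g f s) : g (nxt s).w = 1 := by
  by_contra hne
  have h1 := C.hS (nxt s).M (flip_isJ h.J _ _ _) (tot_of (h.nD C) C)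
  rw [Sg_of (h.nD C), ← C.hσ] at h1
  simp [hne] at h1

theorem val_le (a : ZMod 2) : a.val = 0 ∨ a.val = 1 := by
  revert a; decide

theorem sum_one (p q : ZMod 2) (h : p + q = 1) : (p = 1 ∧ q = 0) ∨ (p = 0 ∧ q = 1) := by
  revert p q; decide

theorem Inv.opp (C : Ctx g f t σ) {s : St L} (h : Inv g f s) :
    s.M (nxt s).w (s.l + 2) = 0 ∧ s.M (nxt s).w (s.n + 2) = 0 := by
  have hc := h.corner C
  constructor
  · have e : (nxt s).w = s.w + d s.n + d s.l := by change s.w + d s.l + d s.n = _; abel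
    rw [e, h.J.1]; exact hc.2
  · change s.M (s.w + d s.l + d s.n) (s.n + 2) = 0
    rw [h.J.1]; exact hc.1

theorem Inv.third (C : Ctx g f t σ) {s : St L} (h : Inv g f s) :
    (s.M (nxt s).w s.l = 1 ∧ s.M (nxt s).w s.n = 0) ∨
      (s.M (nxt s).w s.l = 0 ∧ s.M (nxt s).w s.n = 1) := by
  have ho := h.opp C
  have hs := h.J.2 (nxt s).w
  rw [h.gc C, h.hp.sum, ho.1, ho.2] at hs
  apply sum_one
  simpa using hs

/-- the target corner had exactly one edge, in direction `(nxt s).l` -/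
theorem Inv.uniq (C : Ctx g f t σ) {s : St L} (h : Inv g f s) (k : ZMod 4) :
    s.M (nxt s).w k = if k = (nxt s).l then 1 else 0 := by
  have ho := h.opp C
  have hp := h.hp
  have a1 : ¬ s.l + 2 = s.l := fun e => ne_add_two _ e.symm
  have a2 : ¬ s.n + 2 = s.n := fun e => ne_add_two _ e.symm
  have a3 : ¬ s.l = s.n := hp.ne
  have a4 : ¬ s.n = s.l := fun e => hp.ne e.symm
  have a5 : ¬ s.l + 2 = s.n := hp.ne3
  have a6 : ¬ s.n + 2 = s.l := fun e => hp.ne2 e.symm
  rcases h.third C with ⟨h1, h2⟩ | ⟨h1, h2⟩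
  · have e : (nxt s).l = s.l := by
      change (if s.M (s.w + d s.l + d s.n) s.l = 1 then s.l else s.n) = s.l
      exact if_pos h1
    rw [e]
    rcases hp.cases k with rfl | rfl | rfl | rfl
    · rw [if_pos rfl]; exact h1
    · rw [if_neg a1]; exact ho.1
    · rw [if_neg a4]; exact h2
    · rw [if_neg a6]; exact ho.2
  · have e : (nxt s).l = s.n := by
      change (if s.M (s.w + d s.l + d s.n) s.l = 1 then s.l else s.n) = s.n
      apply if_neg
      intro h3
      have : s.M (s.w + d s.l + d s.n) s.l = 0 := h1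
      rw [this] at h3
      exact absurd h3 (by decide)
    rw [e]
    rcases hp.cases k with rfl | rfl | rfl | rfl
    · rw [if_neg a3]; exact h1
    · rw [if_neg a5]; exact ho.1
    · rw [if_pos rfl]; exact h2
    · rw [if_neg a2]; exact ho.2

theorem Inv.nln (C : Ctx g f t σ) {s : St L} (h : Inv g f s) :
    (s.M (nxt s).w s.l = 1 ∧ s.M (nxt s).w s.n = 0 ∧ (nxt s).l = s.l ∧ (nxt s).n = s.n + 2) ∨
    (s.M (nxt s).w s.l = 0 ∧ s.M (nxt s).w s.n = 1 ∧ (nxt s).l = s.n ∧ (nxt s).n = s.l + 2) := by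
  rcases h.third C with ⟨h1, h2⟩ | ⟨h1, h2⟩
  · left
    exact ⟨h1, h2, if_pos h1, if_pos h1⟩
  · right
    have h3 : ¬ s.M (s.w + d s.l + d s.n) s.l = 1 := by
      intro h3
      have : s.M (s.w + d s.l + d s.n) s.l = 0 := h1
      rw [this] at h3
      exact absurd h3 (by decide)
    exact ⟨h1, h2, if_neg h3, if_neg h3⟩

theorem Inv.next (C : Ctx g f t σ) {s : St L} (h : Inv g f s) : Inv g f (nxt s) := by
  have ho := h.opp C
  have hp := h.hp
  have hM : ∀ k, (nxt s).M (nxt s).w k = s.M (nxt s).w k +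
      ((if k = s.n + 2 then 1 else 0) + (if k = s.l + 2 then 1 else 0)) := by
    intro k
    change s.M (s.w + d s.l + d s.n) k + Pq s.w s.l s.n (s.w + d s.l + d s.n) k = _
    rw [Pq_c hp]; rfl
  have a1 : ¬ s.l = s.l + 2 := ne_add_two _
  have a2 : ¬ s.n = s.n + 2 := ne_add_two _
  have a3 : ¬ s.l = s.n + 2 := hp.ne2
  have a4 : ¬ s.n = s.l + 2 := fun e => hp.ne3 e.symm
  have a5 : ¬ s.l + 2 = s.n + 2 := fun e => hp.ne (add_right_cancel e)
  have a6 : ¬ s.n + 2 = s.l + 2 := fun e => hp.ne (add_right_cancel e).symm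
  rcases h.nln C with ⟨h1, h2, el, en⟩ | ⟨h1, h2, el, en⟩
  · refine ⟨flip_isJ h.J _ _ _, h.nD C, ?_, ?_, ?_, ?_, ?_, h.gc C⟩
    · rw [hM, el, h1]; simp [a1, a3]
    · rw [hM, el, ho.1]; simp [a5]
    · rw [hM, en, ho.2]; simp [a6]
    · rw [hM, en, add_two_two, h2]; simp [a2, a4]
    · rw [el, en]; exact hp.add_right
  · refine ⟨flip_isJ h.J _ _ _, h.nD C, ?_, ?_, ?_, ?_, ?_, h.gc C⟩
    · rw [hM, el, h2]; simp [a2, a4]
    · rw [hM, el, ho.2]; simp [a6]
    · rw [hM, en, ho.1]; simp [a5]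
    · rw [hM, en, add_two_two, h1]; simp [a1, a3]
    · rw [el, en]; exact hp.symm.add_right

/-- where the token came from -/
theorem Inv.back (C : Ctx g f t σ) {s : St L} (h : Inv g f s) :
    s.w = (nxt s).w - d (nxt s).l + d (nxt s).n := by
  have e : (nxt s).w = s.w + d s.l + d s.n := rfl
  rcases h.nln C with ⟨_, _, el, en⟩ | ⟨_, _, el, en⟩
  · rw [el, en, e, d_add_two]; abel
  · rw [el, en, e, d_add_two]; abel

/-- side corners are never token positions -/
theorem disj (C : Ctx g f t σ) {s s' : St L} (h : Inv g f s) (h' : Inv g f s') :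
    s'.w ≠ s.w + d s.l ∧ s'.w ≠ s.w + d s.n := by
  have hn := h.next C
  have e : (nxt s).w = s.w + d s.l + d s.n := rfl
  have hMl : (nxt s).M (nxt s).w (s.n + 2) = 1 ∧ (nxt s).M (nxt s).w (s.l + 2) = 1 := by
    rcases h.nln C with ⟨h1, h2, el, en⟩ | ⟨h1, h2, el, en⟩
    · refine ⟨?_, ?_⟩
      · rw [← en]; exact hn.hn
      · rw [← el]; exact hn.hl2
    · refine ⟨?_, ?_⟩
      · rw [← el]; exact hn.hl2
      · rw [← en]; exact hn.hn
  have key : ∀ (k : ZMod 4), k ≠ s'.n + 2 → s'.M s'.w k = 1 := by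
    intro k hk
    rcases h'.hp.cases k with rfl | rfl | rfl | rfl
    · exact h'.hl
    · exact h'.hl2
    · exact h'.hn
    · exact absurd rfl hk
  constructor
  · intro hv
    -- direction `l + 2` and `n` at `v` are both missing
    have m1 : ¬ s'.M s'.w (s.l + 2) = 1 := by
      intro hc
      rw [hv, h'.J.1] at hc
      exact exchange C.hmin h.J h'.J h.D h'.D (tot_of h.D C) hv h.hl hc
    have m2 : ¬ s'.M s'.w s.n = 1 := by
      intro hc
      have ev : s'.w = (nxt s).w + d (s.n + 2) := by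
        rw [hv, e, d_add_two]; abel
      have hc' : s'.M (nxt s).w (s.n + 2) = 1 := by
        have : (nxt s).w = s'.w + d s.n := by rw [hv, e]
        rw [this, h'.J.1]; exact hc
      exact exchange C.hmin hn.J h'.J hn.D h'.D (tot_of hn.D C) ev hMl.1 hc'
    have k1 : s.l + 2 = s'.n + 2 := by
      by_contra hk; exact m1 (key _ hk)
    have k2 : s.n = s'.n + 2 := by
      by_contra hk; exact m2 (key _ hk)
    exact h.hp.ne3 (k1.trans k2.symm)
  · intro hv
    have m1 : ¬ s'.M s'.w (s.n + 2) = 1 := by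
      intro hc
      rw [hv, h'.J.1] at hc
      exact exchange C.hmin h.J h'.J h.D h'.D (tot_of h.D C) hv h.hn hc
    have m2 : ¬ s'.M s'.w s.l = 1 := by
      intro hc
      have ev : s'.w = (nxt s).w + d (s.l + 2) := by
        rw [hv, e, d_add_two]; abel
      have hc' : s'.M (nxt s).w (s.l + 2) = 1 := by
        have : (nxt s).w = s'.w + d s.l := by rw [hv, e]; abel
        rw [this, h'.J.1]; exact hc
      exact exchange C.hmin hn.J h'.J hn.D h'.D (tot_of hn.D C) ev hMl.2 hc'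
    have k1 : s.n + 2 = s'.n + 2 := by
      by_contra hk; exact m1 (key _ hk)
    have k2 : s.l = s'.n + 2 := by
      by_contra hk; exact m2 (key _ hk)
    exact h.hp.symm.ne3 (k1.trans k2.symm)

/-- edges at a token position do not change while the token is elsewhere -/
theorem persist (C : Ctx g f t σ) {s s' : St L} (h : Inv g f s) (h' : Inv g f s')
    (h1 : s'.w ≠ s.w) (h2 : s'.w ≠ (nxt s).w) (k : ZMod 4) :
    (nxt s).M s'.w k = s.M s'.w k := by
  have hd := disj C h h'
  change s.M s'.w k + Pq s.w s.l s.n s'.w k = _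
  rw [Pq_o s.w h1 hd.1 hd.2 h2, add_zero]

theorem leave {s : St L} (h : Inv g f s) (k : ZMod 4) :
    (nxt s).M s.w k = if k = s.l + 2 then 1 else 0 := by
  have hp := h.hp
  change s.M s.w k + Pq s.w s.l s.n s.w k = _
  rw [Pq_w hp]
  have a1 : ¬ s.l = s.l + 2 := ne_add_two _
  have a1' : ¬ s.l + 2 = s.l := fun e => ne_add_two _ e.symm
  have a2 : ¬ s.n + 2 = s.n := fun e => ne_add_two _ e.symm
  have a3 : ¬ s.l = s.n := hp.ne
  have a3' : ¬ s.n = s.l := fun e => hp.ne e.symm
  have a4 : ¬ s.n = s.l + 2 := fun e => hp.ne3 e.symm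
  have a4' : ¬ s.l + 2 = s.n := hp.ne3
  have a5 : ¬ s.n + 2 = s.l := fun e => hp.ne2 e.symm
  have a6 : ¬ s.n + 2 = s.l + 2 := fun e => hp.ne (add_right_cancel e).symm
  rcases hp.cases k with rfl | rfl | rfl | rfl
  · rw [h.hl]; simp only [a1, a3, if_true, if_false]; decide
  · rw [h.hl2]; simp only [a1', a4', if_true, if_false]; decide
  · rw [h.hn]; simp only [a3', a4, if_true, if_false]; decide
  · rw [h.hn2]; simp only [a2, a5, a6, if_false]; decide

end R339.Tor
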