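import Pool.Agent.R339.TorD

open Finset

/-!
The orbit of the token closes up only if it visits every vertex, which is impossible.
-/

namespace R339.Tor

variable {L : ℕ} [OddL L] {g : P L → ZMod 2} {f : P L → ℕ} {t σ : ℕ}

/-- the orbit -/
def orb (s0 : St L) (i : ℕ) : St L := nxt^[i] s0

theorem orb_succ (s0 : St L) (i : ℕ) : orb s0 (i + 1) = nxt (orb s0 i) :=
  Function.iterate_succ_apply' nxt i s0

theorem orb_inv (C : Ctx g f t σ) {s0 : St L} (h0 : Inv g f s0) (i : ℕ) :
    Inv g f (orb s0 i) := by
  induction i with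
  | zero => exact h0
  | succ i ih => rw [orb_succ]; exact ih.next C

theorem orb_w_succ (s0 : St L) (i : ℕ) :
    (orb s0 (i + 1)).w = (orb s0 i).w + d (orb s0 i).l + d (orb s0 i).n := by
  rw [orb_succ]; rfl

theorem orb_back (C : Ctx g f t σ) {s0 : St L} (h0 : Inv g f s0) (i : ℕ) :
    (orb s0 i).w = (orb s0 (i + 1)).w - d (orb s0 (i + 1)).l + d (orb s0 (i + 1)).n := by
  rw [orb_succ]; exact (orb_inv C h0 i).back C

theorem orb_ne (C : Ctx g f t σ) {s0 : St L} (h0 : Inv g f s0) (i : ℕ) :
    (orb s0 (i + 1)).w ≠ (orb s0 i).w := by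
  rw [orb_w_succ]
  exact (c3 (orb_inv C h0 i).hp _).symm

def Dir (s : St L) (x : P L) (κ : ZMod 4) : Prop := ∀ k, s.M x k = if k = κ then 1 else 0

omit [OddL L] in
theorem Dir.unique {s : St L} {x : P L} {κ κ' : ZMod 4} (h : Dir s x κ) (h' : Dir s x κ') :
    κ = κ' := by
  have h1 := h κ
  rw [h' κ, if_pos rfl] at h1
  by_contra hne
  rw [if_neg hne] at h1
  exact absurd h1 (by decide)

theorem dir_arr (C : Ctx g f t σ) {s0 : St L} (h0 : Inv g f s0) (i : ℕ) :
    Dir (orb s0 i) (orb s0 (i + 1)).w (orb s0 (i + 1)).l := by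
  intro k
  rw [orb_succ]
  exact (orb_inv C h0 i).uniq C k

theorem dir_leave (C : Ctx g f t σ) {s0 : St L} (h0 : Inv g f s0) (i : ℕ) :
    Dir (orb s0 (i + 1)) (orb s0 i).w ((orb s0 i).l + 2) := by
  intro k
  rw [orb_succ]
  exact leave (orb_inv C h0 i) k

/-- at the next visit of the same vertex, the axis direction is reversed -/
theorem next_visit (C : Ctx g f t σ) {s0 : St L} (h0 : Inv g f s0) {i j : ℕ} (hij : i < j)
    (hw : (orb s0 j).w = (orb s0 i).w)
    (hf : ∀ k, i < k → k < j → (orb s0 k).w ≠ (orb s0 i).w) :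
    (orb s0 j).l = (orb s0 i).l + 2 := by
  have hj : i + 2 ≤ j := by
    rcases Nat.lt_or_ge j (i + 2) with h | h
    · have : j = i + 1 := by omega
      subst this
      exact absurd hw (orb_ne C h0 i)
    · exact h
  have claim : ∀ m, i + 1 + m < j → Dir (orb s0 (i + 1 + m)) (orb s0 i).w ((orb s0 i).l + 2) := by
    intro m
    induction m with
    | zero => intro _; exact dir_leave C h0 i
    | succ m ih =>
      intro hm k
      have h1 := ih (by omega)
      have e : i + 1 + (m + 1) = (i + 1 + m) + 1 := by omega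
      rw [e, orb_succ, persist C (orb_inv C h0 _) (orb_inv C h0 i)
        (hf (i + 1 + m) (by omega) (by omega)).symm]
      · exact h1 k
      · rw [← orb_succ]
        exact (hf (i + 1 + m + 1) (by omega) (by omega)).symm
  obtain ⟨m, rfl⟩ : ∃ m, j = (i + 1 + m) + 1 := ⟨j - i - 2, by omega⟩
  have h1 := claim m (by omega)
  have h2 := dir_arr C h0 (i + 1 + m)
  rw [hw] at h2
  exact (h2.unique h1)

/-- existence of a first later visit -/
theorem first_visit (s0 : St L) {i j : ℕ} (hij : i < j)
    (hw : (orb s0 j).w = (orb s0 i).w) :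
    ∃ k, i < k ∧ k ≤ j ∧ (orb s0 k).w = (orb s0 i).w ∧
      ∀ m, i < m → m < k → (orb s0 m).w ≠ (orb s0 i).w := by
  classical
  have hex : ∃ k, i < k ∧ (orb s0 k).w = (orb s0 i).w := ⟨j, hij, hw⟩
  refine ⟨Nat.find hex, (Nat.find_spec hex).1, Nat.find_min' hex ⟨hij, hw⟩,
    (Nat.find_spec hex).2, ?_⟩
  intro m h1 h2 h3
  exact Nat.find_min hex h2 ⟨h1, h3⟩

theorem axis (C : Ctx g f t σ) {s0 : St L} (h0 : Inv g f s0) :
    ∀ N i j : ℕ, j - i = N → i < j → (orb s0 j).w = (orb s0 i).w →
      (orb s0 j).l = (orb s0 i).l ∨ (orb s0 j).l = (orb s0 i).l + 2 := by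
  intro N
  induction N using Nat.strong_induction_on with
  | _ N ih =>
    intro i j hN hij hw
    obtain ⟨k, h1, h2, h3, h4⟩ := first_visit s0 hij hw
    have hl := next_visit C h0 h1 h3 h4
    rcases Nat.lt_or_ge k j with h5 | h5
    · have := ih (j - k) (by omega) k j rfl h5 (hw.trans h3.symm)
      rw [hl, add_two_two] at this
      exact this.symm
    · have : k = j := by omega
      subst this
      right; exact hl

omit [OddL L] in
theorem perp_two {l n n' : ZMod 4} (h : Perp l n) (h' : Perp l n') : n' = n ∨ n' = n + 2 := by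
  revert l n n'; decide

omit [OddL L] in
theorem double_zero [OddL L] {v : P L} (h : v + v = 0) : v = 0 := by
  have key : ∀ a : ZMod L, a + a = 0 → a = 0 := by
    intro a ha
    obtain ⟨q, hq⟩ := (OddL.odd : Odd L)
    have hc : ((L : ℕ) : ZMod L) = ((2 * q + 1 : ℕ) : ZMod L) :=
      congrArg (fun n : ℕ => (n : ZMod L)) hq
    have h1 : ((L : ℕ) : ZMod L) * a = 0 := by simp
    rw [hc] at h1
    push_cast at h1
    have h2 : (2 * (q : ZMod L) + 1) * a = q * (a + a) + a := by ring
    rw [h2, ha, mul_zero, zero_add] at h1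
    exact h1
  have h1 := congrArg Prod.fst h
  have h2 := congrArg Prod.snd h
  exact Prod.ext (key _ h1) (key _ h2)

/-- the walk never traverses a step backwards -/
theorem no_rev (C : Ctx g f t σ) {s0 : St L} (h0 : Inv g f s0) :
    ∀ m i : ℕ, ¬ ((orb s0 (i + m)).w = (orb s0 (i + 1)).w ∧
      (orb s0 (i + m + 1)).w = (orb s0 i).w) := by
  intro m
  induction m using Nat.strong_induction_on with
  | _ m ih =>
    rintro i ⟨h1, h2⟩
    rcases m with _ | _ | m
    · exact orb_ne C h0 i h1.symm
    · -- immediate reversal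
      have hp := (orb_inv C h0 i).hp
      have e1 := orb_w_succ s0 i
      have e2 := orb_w_succ s0 (i + 1)
      change (orb s0 (i + 1 + 1)).w = (orb s0 i).w at h2
      rw [h2, e1] at e2
      rcases (orb_inv C h0 i).nln C with ⟨_, _, el, en⟩ | ⟨_, _, el, en⟩
      · rw [← orb_succ] at el en
        rw [el, en, d_add_two] at e2
        have : d (orb s0 i).l + d (orb s0 i).l = (0 : P L) := by
          have h5 : (orb s0 i).w = (orb s0 i).w + (d (orb s0 i).l + d (orb s0 i).l) := by
            conv_lhs => rw [e2]
            abel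
          exact left_eq_add.mp h5
        exact dd_ne _ this
      · rw [← orb_succ] at el en
        rw [el, en, d_add_two] at e2
        have : d (orb s0 i).n + d (orb s0 i).n = (0 : P L) := by
          have h5 : (orb s0 i).w = (orb s0 i).w + (d (orb s0 i).n + d (orb s0 i).n) := by
            conv_lhs => rw [e2]
            abel
          exact left_eq_add.mp h5
        exact dd_ne _ this
    · -- shorten
      have hax := axis C h0 _ (i + 1) (i + (m + 1 + 1)) rfl (by omega) h1
      have b1 := orb_back C h0 i
      have f1 := orb_w_succ s0 (i + 1)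
      have b2 := orb_back C h0 (i + m + 1)
      have f2 := orb_w_succ s0 (i + m + 1 + 1)
      have ex : i + (m + 1 + 1) = i + m + 1 + 1 := by omega
      rw [ex] at h1 h2 hax
      have hpp := (orb_inv C h0 (i + 1)).hp
      have hpq := (orb_inv C h0 (i + m + 1 + 1)).hp
      have hn : (orb s0 (i + m + 1 + 1)).l = (orb s0 (i + 1)).l + 2 ∧
          (orb s0 (i + m + 1 + 1)).n = (orb s0 (i + 1)).n := by
        rw [h2, h1] at f2
        -- w_i = x + d l_q + d n_q and w_i = x - d l_p + d n_p
        rw [b1] at f2
        generalize (orb s0 (i + 1)).w = x at f2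
        generalize (orb s0 (i + 1)).l = lp at f2 hax hpp ⊢
        generalize (orb s0 (i + 1)).n = np at f2 hax hpp ⊢
        generalize (orb s0 (i + m + 1 + 1)).l = lq at f2 hax hpq ⊢
        generalize (orb s0 (i + m + 1 + 1)).n = nq at f2 hax hpq ⊢
        have f3 : -(d lp : P L) + d np = d lq + d nq := by
          have : x + (-(d lp : P L) + d np) = x + (d lq + d nq) := by
            calc x + (-(d lp : P L) + d np) = x - d lp + d np := by abel
              _ = _ := by rw [f2]; abel
          exact add_left_cancel this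
        rcases hax with hax | hax
        · exfalso
          rw [hax] at f3 hpq
          have hnq : nq = np ∨ nq = np + 2 := perp_two hpp hpq
          rcases hnq with hnq | hnq
          · rw [hnq] at f3
            have : d lp + d lp = (0 : P L) := by
              have h5 := add_right_cancel f3
              nth_rewrite 1 [← h5]
              abel
            exact dd_ne _ this
          · rw [hnq, d_add_two] at f3
            have : (d np - d lp) + (d np - d lp) = (0 : P L) := by
              have h5 : (-(d lp : P L) + d np) - (d lp + -d np) = 0 := by rw [f3]; abel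
              rw [← h5]; abel
            have := double_zero this
            exact hpp.d_ne (sub_eq_zero.mp this).symm
        · refine ⟨hax, ?_⟩
          rw [hax, d_add_two] at f3
          exact (d_inj (add_left_cancel f3)).symm
      have h3 : (orb s0 (i + m + 1)).w = (orb s0 (i + 1 + 1)).w := by
        rw [b2, hn.1, hn.2, h1, f1, d_add_two]; abel
      refine ih m (by omega) (i + 1) ⟨?_, ?_⟩
      · have : i + 1 + m = i + m + 1 := by omega
        rw [this]; exact h3
      · have : i + 1 + m + 1 = i + m + 1 + 1 := by omega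
        rw [this]; exact h1

end R339.Tor
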