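import Pool.Agent.R339.TorE

open Finset

/-!
Closing the argument: the core theorem for configurations.
-/

namespace R339.Tor

variable {L : ℕ} [OddL L] {g : P L → ZMod 2} {f : P L → ℕ} {t σ : ℕ}

omit [OddL L] in
theorem perp_two' {l n k : ZMod 4} (h : Perp l n) (h' : Perp n k) : k = l ∨ k = l + 2 := by
  revert l n k; decide

theorem orb_add (s0 : St L) {p : ℕ} (hper : orb s0 p = s0) (i : ℕ) :
    orb s0 (i + p) = orb s0 i := by
  unfold orb at *
  rw [Function.iterate_add_apply, hper]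

/-- the set of visited vertices is closed under all four diagonal moves -/
theorem closure (C : Ctx g f t σ) {s0 : St L} (h0 : Inv g f s0) {p : ℕ} (hp : 0 < p)
    (hper : orb s0 p = s0) (i : ℕ) {k y : ZMod 4} (hky : Perp k y) :
    ∃ j, (orb s0 j).w = (orb s0 i).w + d k + d y := by
  obtain ⟨a, ha⟩ : ∃ a, i + p = a + 1 := ⟨i + p - 1, by omega⟩
  have ex : orb s0 i = orb s0 (a + 1) := by rw [← ha, orb_add s0 hper]
  rw [ex]
  have hpp := (orb_inv C h0 (a + 1)).hp
  have hper2 : orb s0 (a + 1 + p) = orb s0 (a + 1) := orb_add s0 hper _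
  obtain ⟨j, j1, _, j3, j4⟩ := first_visit s0 (i := a + 1) (j := a + 1 + p) (by omega)
    (by rw [hper2])
  have hl := next_visit C h0 j1 j3 j4
  obtain ⟨m, rfl⟩ : ∃ m, j = a + 1 + m + 1 := ⟨j - a - 2, by omega⟩
  have hpj := (orb_inv C h0 (a + 1 + m + 1)).hp
  have b2 := orb_back C h0 (a + 1 + m)
  have f2 := orb_w_succ s0 (a + 1 + m + 1)
  have b1 := orb_back C h0 a
  have f1 := orb_w_succ s0 (a + 1)
  rw [hl] at b2 f2 hpj
  rw [j3] at b2 f2
  have hn : (orb s0 (a + 1 + m + 1)).n = (orb s0 (a + 1)).n ∨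
      (orb s0 (a + 1 + m + 1)).n = (orb s0 (a + 1)).n + 2 := by
    have := hpj.add_left
    rw [add_two_two] at this
    exact perp_two hpp this
  have hn2 : (orb s0 (a + 1 + m + 1)).n = (orb s0 (a + 1)).n + 2 := by
    rcases hn with hn | hn
    · exfalso
      apply no_rev C h0 m (a + 1)
      refine ⟨?_, j3⟩
      rw [b2, f1, hn, d_add_two]; abel
    · exact hn
  rw [hn2] at b2 f2
  have q1 : ∃ j, (orb s0 j).w = (orb s0 (a + 1)).w + d (orb s0 (a + 1)).l
      + d (orb s0 (a + 1)).n := ⟨_, f1⟩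
  have q2 : ∃ j, (orb s0 j).w = (orb s0 (a + 1)).w + d ((orb s0 (a + 1)).l + 2)
      + d (orb s0 (a + 1)).n := ⟨a, by rw [b1, d_add_two]; abel⟩
  have q3 : ∃ j, (orb s0 j).w = (orb s0 (a + 1)).w + d (orb s0 (a + 1)).l
      + d ((orb s0 (a + 1)).n + 2) := ⟨a + 1 + m, by rw [b2, d_add_two]; abel⟩
  have q4 : ∃ j, (orb s0 j).w = (orb s0 (a + 1)).w + d ((orb s0 (a + 1)).l + 2)
      + d ((orb s0 (a + 1)).n + 2) := ⟨_, f2⟩
  have sw : ∀ (x u v : P L), x + u + v = x + v + u := fun x u v => by abel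
  rcases hpp.cases k with hk | hk | hk | hk
  · rw [hk] at hky ⊢
    rcases perp_two hpp hky with hy | hy
    · rw [hy]; exact q1
    · rw [hy]; exact q3
  · rw [hk] at hky ⊢
    have hky' := hky.add_left
    rw [add_two_two] at hky'
    rcases perp_two hpp hky' with hy | hy
    · rw [hy]; exact q2
    · rw [hy]; exact q4
  · rw [hk] at hky ⊢
    rcases perp_two' hpp hky with hy | hy
    · rw [hy, sw]; exact q1
    · rw [hy, sw]; exact q2
  · rw [hk] at hky ⊢
    have hky' := hky.add_left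
    rw [add_two_two] at hky'
    rcases perp_two' hpp hky' with hy | hy
    · rw [hy, sw]; exact q3
    · rw [hy, sw]; exact q4

theorem closure2 (C : Ctx g f t σ) {s0 : St L} (h0 : Inv g f s0) {p : ℕ} (hp : 0 < p)
    (hper : orb s0 p = s0) (k : ZMod 4) (q : ℕ) (i : ℕ) :
    ∃ j, (orb s0 j).w = (orb s0 i).w + (2 * q) • d k := by
  induction q with
  | zero => exact ⟨i, by simp⟩
  | succ q ih =>
    obtain ⟨j, hj⟩ := ih
    have hky : Perp k (k + 1) := Or.inl rfl
    obtain ⟨j1, e1⟩ := closure C h0 hp hper j hky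
    obtain ⟨j2, e2⟩ := closure C h0 hp hper j1 hky.add_right
    refine ⟨j2, ?_⟩
    rw [e2, e1, hj, d_add_two]
    have : 2 * (q + 1) = 2 * q + 1 + 1 := by ring
    rw [this, add_smul, add_smul, one_smul]
    abel

theorem no_inv (C : Ctx g f t σ) {s : St L} (h : Inv g f s) : False := by
  obtain ⟨i, j, hne, hij⟩ := Finite.exists_ne_map_eq_of_infinite (fun i => orb s i)
  wlog hlt : i < j generalizing i j
  · exact this j i hne.symm hij.symm (by omega)
  -- restart at time `i`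
  have h0 : Inv g f (orb s i) := orb_inv C h i
  have hper : orb (orb s i) (j - i) = orb s i := by
    unfold orb at *
    rw [← Function.iterate_add_apply]
    have : j - i + i = j := by omega
    rw [this, ← hij]
  obtain ⟨r, hr⟩ := (OddL.odd : Odd L)
  obtain ⟨m, hm⟩ := closure2 C h0 (by omega : 0 < j - i) hper (orb s i).l (r + 1) 0
  have e : (2 * (r + 1)) • (d (orb s i).l : P L) = d (orb s i).l := by
    have e1 : 2 * (r + 1) = L + 1 := by omega
    rw [e1, add_smul, one_smul]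
    have : (L : ℕ) • (d (orb s i).l : P L) = 0 := by
      apply Prod.ext <;> simp
    rw [this, zero_add]
  rw [e] at hm
  exact (disj C h0 (orb_inv C h0 m)).1 hm

theorem three (b : ZMod 4 → ZMod 2) (h : ∑ k, b k = 1) (h' : ∑ k, (b k).val ≠ 1) :
    ∃ l n, Perp l n ∧ b l = 1 ∧ b (l + 2) = 1 ∧ b n = 1 ∧ b (n + 2) = 0 := by
  have hp : Perp 0 1 := Or.inl (by decide)
  rw [hp.sum] at h h'
  simp only [n02, n12] at h h'
  have a1 : (1 : ZMod 2) = 1 := rfl
  have p12 : Perp 1 2 := by decide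
  have p10 : Perp 1 0 := by decide
  have p03 : Perp 0 3 := by decide
  rcases z2 (b 0) with e0 | e0 <;> rcases z2 (b 1) with e1 | e1 <;>
    rcases z2 (b 2) with e2 | e2 <;> rcases z2 (b 3) with e3 | e3 <;>
    rw [e0, e1, e2, e3] at h h'
  all_goals first
    | exact absurd h (by decide)
    | exact absurd rfl h'
    | exact ⟨1, 2, p12, e1, by rw [n12]; exact e3, e2, by rw [n22]; exact e0⟩
    | exact ⟨1, 0, p10, e1, by rw [n12]; exact e3, e0, by rw [n02]; exact e2⟩
    | exact ⟨0, 3, p03, e0, by rw [n02]; exact e2, e3, by rw [n32]; exact e1⟩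
    | exact ⟨0, 1, hp, e0, by rw [n02]; exact e2, e1, by rw [n12]; exact e3⟩

theorem core (g : P L → ZMod 2) (hex : ∃ M : Cfg L, IsJ g M) :
    ∃ M : Cfg L, IsJ g M ∧ (∀ N, IsJ g N → tot M ≤ tot N) ∧ ∀ x, g x = 1 → dg M x = 1 := by
  classical
  -- minimum size
  have ex1 : ∃ t, ∃ M : Cfg L, IsJ g M ∧ tot M = t := by
    obtain ⟨M, hM⟩ := hex
    exact ⟨_, M, hM, rfl⟩
  have hmin : ∀ N, IsJ g N → Nat.find ex1 ≤ tot N := fun N hN =>
    Nat.find_min' ex1 ⟨N, hN, rfl⟩
  have ex2 : ∃ s, ∃ M : Cfg L, IsJ g M ∧ tot M = Nat.find ex1 ∧ Sg g M = s := by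
    obtain ⟨M, hM, hM'⟩ := Nat.find_spec ex1
    exact ⟨_, M, hM, hM', rfl⟩
  have hS : ∀ N, IsJ g N → tot N = Nat.find ex1 → Nat.find ex2 ≤ Sg g N := fun N hN hN' =>
    Nat.find_min' ex2 ⟨N, hN, hN', rfl⟩
  obtain ⟨M, hM, hMt, hMs⟩ := Nat.find_spec ex2
  refine ⟨M, hM, fun N hN => hMt ▸ hmin N hN, ?_⟩
  by_contra hcon
  push Not at hcon
  obtain ⟨w, hg, hw⟩ := hcon
  have hs : ∑ k, M w k = 1 := by rw [hM.2, hg]
  obtain ⟨l, n, hp, h1, h2, h3, h4⟩ := three (M w) hs hw
  have hdw : dg M w = 3 := by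
    unfold dg
    rw [hp.sum, h1, h2, h3, h4]; rfl
  let f : P L → ℕ := fun x => dg M x - if x = w then 2 else 0
  have hD : ∀ x, dg M x = f x + if x = w then 2 else 0 := by
    intro x
    by_cases hx : x = w
    · subst hx; simp [f, hdw]
    · simp [f, hx]
  have C : Ctx g f (Nat.find ex1) (Nat.find ex2) := by
    refine ⟨hmin, hS, ?_, ?_⟩
    · rw [← hMt]
      unfold tot
      rw [Finset.sum_congr rfl (fun x _ => hD x), Finset.sum_add_distrib]
      simp
    · have := Sg_of (g := g) hD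
      rw [hMs] at this
      rw [this]; simp [hg]
  exact no_inv C (s := ⟨M, w, l, n⟩) ⟨hM, hD, h1, h2, h3, h4, hp, hg⟩

end R339.Tor
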