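import Pool.Agent.R339.TorF

open Finset

/-!
Toroidal grid graphs, `D`-joins as edge sets, and the main theorem in these terms.
-/

namespace R339.Tor

/-- The `L × L` toroidal grid: `(i, j)` is adjacent to `(i ± 1, j)` and `(i, j ± 1)`. -/
def torus (L : ℕ) : SimpleGraph (ZMod L × ZMod L) where
  Adj u v := u ≠ v ∧ (v = (u.1 + 1, u.2) ∨ v = (u.1 - 1, u.2) ∨ v = (u.1, u.2 + 1) ∨
    v = (u.1, u.2 - 1))
  symm := ⟨by
    rintro u v ⟨hne, h⟩
    refine ⟨hne.symm, ?_⟩
    rcases h with rfl | rfl | rfl | rfl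
    · right; left; simp
    · left; simp
    · right; right; right; simp
    · right; right; left; simp⟩
  loopless := ⟨fun u h => h.1 rfl⟩

open Classical in
/-- The `J`-degree of a vertex: the number of edges of `J` incident to it. -/
noncomputable def jDegree {L : ℕ} (J : Finset (Sym2 (ZMod L × ZMod L))) (v : ZMod L × ZMod L) :
    ℕ := (J.filter (fun e => v ∈ e)).card

/-- `J` is a `D`-join of the `L × L` toroidal grid. -/
def IsJoin (L : ℕ) (D : Finset (ZMod L × ZMod L)) (J : Finset (Sym2 (ZMod L × ZMod L))) : Prop :=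
  (∀ e ∈ J, e ∈ (torus L).edgeSet) ∧ ∀ v, Odd (jDegree J v) ↔ v ∈ D

/-- `J` is a `D`-join with the fewest edges among all `D`-joins. -/
def IsMinJoin (L : ℕ) (D : Finset (ZMod L × ZMod L)) (J : Finset (Sym2 (ZMod L × ZMod L))) :
    Prop := IsJoin L D J ∧ ∀ J', IsJoin L D J' → J.card ≤ J'.card

variable {L : ℕ}

section bridge
variable [OddL L]

theorem adj_d (x : P L) (k : ZMod 4) : (torus L).Adj x (x + d k) := by
  refine ⟨fun h => d_ne k (left_eq_add.mp h), ?_⟩
  rcases four k with rfl | rfl | rfl | rfl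
  · left; simp [Prod.ext_iff]
  · right; right; left; simp [Prod.ext_iff]
  · right; left; simp [Prod.ext_iff, sub_eq_add_neg]
  · right; right; right; simp [Prod.ext_iff, sub_eq_add_neg]

omit [OddL L] in
theorem adj_iff {x y : P L} (h : (torus L).Adj x y) : ∃ k, y = x + d k := by
  rcases h.2 with h | h | h | h
  · exact ⟨0, by simp [h, Prod.ext_iff]⟩
  · exact ⟨2, by simp [h, Prod.ext_iff, sub_eq_add_neg]⟩
  · exact ⟨1, by simp [h, Prod.ext_iff]⟩
  · exact ⟨3, by simp [h, Prod.ext_iff, sub_eq_add_neg]⟩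

open Classical in
/-- the configuration of an edge set -/
noncomputable def toM (J : Finset (Sym2 (P L))) : Cfg L := fun x k =>
  if s(x, x + d k) ∈ J then 1 else 0

omit [OddL L] in
theorem toM_sym (J : Finset (Sym2 (P L))) : Sym (toM J) := by
  intro x k
  unfold toM
  have : s(x + d k, x + d k + d (k + 2)) = s(x, x + d k) := by
    rw [d_add_two, add_neg_cancel_right, Sym2.eq_swap]
  rw [this]

theorem dg_toM {J : Finset (Sym2 (P L))} (hJ : ∀ e ∈ J, e ∈ (torus L).edgeSet) (x : P L) :
    dg (toM J) x = jDegree J x := by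
  classical
  have h1 : dg (toM J) x = (Finset.univ.filter (fun k : ZMod 4 => s(x, x + d k) ∈ J)).card := by
    rw [Finset.card_filter]
    unfold dg toM
    refine Finset.sum_congr rfl (fun k _ => ?_)
    by_cases h : s(x, x + d k) ∈ J
    · simp only [h, if_true]; rfl
    · simp only [h, if_false]; rfl
  rw [h1]
  unfold jDegree
  apply Finset.card_bij (fun k _ => s(x, x + d k))
  · intro k hk
    rw [Finset.mem_filter] at hk ⊢
    exact ⟨hk.2, Sym2.mem_mk_left _ _⟩
  · intro k _ j _ h
    have := Sym2.congr_right.mp h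
    exact d_inj (add_left_cancel this)
  · intro e he
    rw [Finset.mem_filter] at he
    obtain ⟨y, rfl⟩ := Sym2.mem_iff_exists.mp he.2
    obtain ⟨k, hk⟩ := adj_iff ((SimpleGraph.mem_edgeSet _).mp (hJ _ he.1))
    refine ⟨k, ?_, by rw [hk]⟩
    rw [Finset.mem_filter]
    exact ⟨Finset.mem_univ _, by rw [← hk]; exact he.1⟩

theorem tot_toM {J : Finset (Sym2 (P L))} (hJ : ∀ e ∈ J, e ∈ (torus L).edgeSet) :
    tot (toM J) = 2 * J.card := by
  classical
  unfold tot
  rw [Finset.sum_congr rfl (fun x _ => dg_toM hJ x)]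
  unfold jDegree
  simp only [Finset.card_filter]
  rw [Finset.sum_comm]
  have : ∀ e ∈ J, (∑ x : P L, if x ∈ e then 1 else 0) = 2 := by
    intro e he
    have hadj := hJ e he
    revert hadj
    refine Sym2.ind (fun a b => ?_) e
    intro hab
    have hne : a ≠ b := ((SimpleGraph.mem_edgeSet _).mp hab).1
    rw [← Finset.card_filter]
    have : (Finset.univ.filter (fun x : P L => x ∈ s(a, b))) = {a, b} := by
      ext x; simp
    rw [this, Finset.card_pair hne]
  rw [Finset.sum_congr rfl this, Finset.sum_const, smul_eq_mul, mul_comm]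

open Classical in
/-- the edge set of a configuration -/
noncomputable def fromM (M : Cfg L) : Finset (Sym2 (P L)) :=
  Finset.univ.filter (fun e => ∃ x k, e = s(x, x + d k) ∧ M x k = 1)

theorem fromM_edge (M : Cfg L) : ∀ e ∈ fromM M, e ∈ (torus L).edgeSet := by
  classical
  intro e he
  unfold fromM at he
  rw [Finset.mem_filter] at he
  obtain ⟨_, x, k, rfl, _⟩ := he
  exact (SimpleGraph.mem_edgeSet _).mpr (adj_d x k)

theorem toM_fromM {M : Cfg L} (hM : Sym M) : toM (fromM M) = M := by
  classical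
  funext x k
  unfold toM
  have : s(x, x + d k) ∈ fromM M ↔ M x k = 1 := by
    unfold fromM
    rw [Finset.mem_filter]
    constructor
    · rintro ⟨_, y, j, h, hj⟩
      rcases Sym2.eq_iff.mp h with ⟨h1, h2⟩ | ⟨h1, h2⟩
      · subst h1
        have := d_inj (add_left_cancel h2)
        rw [this]; exact hj
      · have h3 : (d k : P L) = d (j + 2) := by
          rw [h1] at h2
          rw [d_add_two]
          have : d j + d k = (0 : P L) := by
            rw [add_assoc] at h2
            exact add_eq_left.mp h2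
          exact eq_neg_of_add_eq_zero_right this
        rw [d_inj h3, h1, hM]; exact hj
    · intro h
      exact ⟨Finset.mem_univ _, x, k, rfl, h⟩
  rcases z2 (M x k) with h | h
  · have h' : ¬ s(x, x + d k) ∈ fromM M := by
      rw [this, h]; decide
    rw [if_neg h', h]
  · rw [if_pos (this.mpr h), h]

theorem isJ_toM {D : Finset (P L)} {J : Finset (Sym2 (P L))} (h : IsJoin L D J) :
    IsJ (fun x => if x ∈ D then 1 else 0) (toM J) := by
  refine ⟨toM_sym J, fun x => ?_⟩
  rw [← dg_cast, dg_toM h.1]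
  change ((jDegree J x : ℕ) : ZMod 2) = if x ∈ D then 1 else 0
  by_cases hx : x ∈ D
  · rw [if_pos hx]
    exact (ZMod.natCast_eq_one_iff_odd).mpr ((h.2 x).mpr hx)
  · rw [if_neg hx]
    have : ¬ Odd (jDegree J x) := fun h' => hx ((h.2 x).mp h')
    exact (ZMod.natCast_eq_zero_iff_even).mpr (Nat.not_odd_iff_even.mp this)

theorem isJoin_fromM {D : Finset (P L)} {M : Cfg L}
    (h : IsJ (fun x => if x ∈ D then 1 else 0) M) : IsJoin L D (fromM M) := by
  refine ⟨fromM_edge M, fun v => ?_⟩
  rw [← dg_toM (fromM_edge M), toM_fromM h.1, ← ZMod.natCast_eq_one_iff_odd, dg_cast, h.2]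
  by_cases hv : v ∈ D
  · simp [hv]
  · simp [hv]

end bridge

/-! ### existence of a join -/

theorem ex_add {g g' : P L → ZMod 2} (h : ∃ M, IsJ g M) (h' : ∃ M, IsJ g' M) :
    ∃ M, IsJ (g + g') M := by
  obtain ⟨M, hM⟩ := h
  obtain ⟨M', hM'⟩ := h'
  refine ⟨M + M', hM.1.add hM'.1, fun x => ?_⟩
  simp only [Pi.add_apply]
  rw [Finset.sum_add_distrib, hM.2, hM'.2]

/-- the indicator of a vertex -/
def del (a : P L) : P L → ZMod 2 := fun x => if x = a then 1 else 0

theorem ex_zero : ∃ M : Cfg L, IsJ 0 M := ⟨0, fun _ _ => rfl, fun x => by simp⟩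

theorem ex_step (a : P L) (k : ZMod 4) : ∃ M : Cfg L, IsJ (del a + del (a + d k)) M :=
  ⟨Ed a k, Ed_sym a k, fun x => Ed_sum a k x⟩

theorem del_self (a : P L) : del a + del a = 0 := by
  funext x; exact zadd_self _

theorem ex_mul (a : P L) (k : ZMod 4) (n : ℕ) :
    ∃ M : Cfg L, IsJ (del a + del (a + n • d k)) M := by
  induction n with
  | zero =>
    obtain ⟨M, hM⟩ := ex_zero (L := L)
    refine ⟨M, ?_⟩
    rw [zero_smul, add_zero, del_self]; exact hM
  | succ n ih =>
    have h1 := ex_add ih (ex_step (a + n • d k) k)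
    have e : del a + del (a + n • d k) + (del (a + n • d k) + del (a + n • d k + d k))
        = del a + del (a + (n + 1) • d k) := by
      rw [add_smul, one_smul, ← add_assoc a]
      have h2 := del_self (a + n • (d k : P L))
      calc _ = del a + del (a + n • d k + d k) + (del (a + n • d k) + del (a + n • d k)) := by abel
        _ = _ := by rw [h2, add_zero]
    rw [e] at h1
    exact h1

theorem ex_pair [NeZero L] (b : P L) : ∃ M : Cfg L, IsJ (del 0 + del b) M := by
  have h1 := ex_mul (0 : P L) 0 b.1.val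
  have h2 := ex_mul ((0 : P L) + b.1.val • d 0) 1 b.2.val
  have h3 := ex_add h1 h2
  have e : (0 : P L) + b.1.val • d 0 + b.2.val • d 1 = b := by
    apply Prod.ext
    · simp
    · simp
  have e2 : del 0 + del (0 + b.1.val • d 0) + (del (0 + b.1.val • d 0) +
      del (0 + b.1.val • d 0 + b.2.val • d 1)) = del 0 + del b := by
    rw [e]
    have h4 := del_self ((0 : P L) + b.1.val • d 0)
    calc _ = del 0 + del b + (del ((0 : P L) + b.1.val • d 0) + del ((0 : P L) + b.1.val • d 0)) := by
          abel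
      _ = _ := by rw [h4, add_zero]
  rw [e2] at h3
  exact h3

theorem ex_D [NeZero L] (D : Finset (P L)) :
    ∃ M : Cfg L, IsJ ((fun x => if x ∈ D then 1 else 0) + (fun x => (D.card : ZMod 2) * del 0 x))
      M := by
  classical
  induction D using Finset.induction_on with
  | empty =>
    obtain ⟨M, hM⟩ := ex_zero (L := L)
    refine ⟨M, ?_⟩
    have : ((fun x : P L => if x ∈ (∅ : Finset (P L)) then (1 : ZMod 2) else 0) +
        (fun x => (((∅ : Finset (P L)).card : ℕ) : ZMod 2) * del 0 x)) = 0 := by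
      funext x; simp
    rw [this]; exact hM
  | insert a D ha ih =>
    have h1 := ex_add ih (ex_pair a)
    have e : ((fun x : P L => if x ∈ D then (1 : ZMod 2) else 0) +
        (fun x => ((D.card : ℕ) : ZMod 2) * del 0 x)) + (del 0 + del a) =
        ((fun x : P L => if x ∈ insert a D then (1 : ZMod 2) else 0) +
        (fun x => (((insert a D).card : ℕ) : ZMod 2) * del 0 x)) := by
      funext x
      rw [Finset.card_insert_of_notMem ha]
      simp only [Pi.add_apply, del, Finset.mem_insert]
      push_cast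
      by_cases hx : x = a
      · subst hx
        simp only [ha, if_true, if_false, true_or]
        ring
      · simp only [hx, if_false, false_or]
        ring
    rw [e] at h1
    exact h1

theorem ex_even [NeZero L] (D : Finset (P L)) (hD : Even D.card) :
    ∃ M : Cfg L, IsJ (fun x => if x ∈ D then 1 else 0) M := by
  obtain ⟨M, hM⟩ := ex_D D
  refine ⟨M, ?_⟩
  have : ((fun x : P L => if x ∈ D then (1 : ZMod 2) else 0) +
      (fun x => ((D.card : ℕ) : ZMod 2) * del 0 x)) = fun x => if x ∈ D then (1 : ZMod 2) else 0 := by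
    have h0 : ((D.card : ℕ) : ZMod 2) = 0 := (ZMod.natCast_eq_zero_iff_even).mpr hD
    funext x; simp [h0]
  rw [this] at hM
  exact hM

/-- main theorem in terms of edge sets -/
theorem main (L : ℕ) (hL : 3 ≤ L) (hodd : Odd L) (D : Finset (ZMod L × ZMod L))
    (hD : Even D.card) : ∃ J, IsMinJoin L D J ∧ ∀ v ∈ D, jDegree J v = 1 := by
  have : OddL L := ⟨hL, hodd⟩
  obtain ⟨M, hM, hmin, h1⟩ := core (fun x : P L => if x ∈ D then (1 : ZMod 2) else 0)
    (ex_even D hD)
  have hJ := isJoin_fromM hM
  refine ⟨fromM M, ⟨hJ, ?_⟩, ?_⟩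
  · intro J' hJ'
    have h2 := hmin _ (isJ_toM hJ')
    have h3 := tot_toM hJ.1
    rw [toM_fromM hM.1] at h3
    have h4 := tot_toM hJ'.1
    omega
  · intro v hv
    rw [← dg_toM hJ.1, toM_fromM hM.1]
    exact h1 v (by simp [hv])

end R339.Tor
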